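import Pool.Agent.H85S.Const

/-! every large even number is the order of a cubic bipartite graph of girth at least
`(4/3) log₂ N - C` -/

namespace H85S

open H25G

theorem Good.even {g n : ℕ} (h : Good g n) : n % 2 = 0 := by
  obtain ⟨X, _, C, rfl, _⟩ := h
  have := side_card C
  omega

theorem pow_aux (w : ℕ) : (w + 4) * 4 ^ w ≤ 4 * 5 ^ w := by
  induction w with
  | zero => norm_num
  | succ w ih =>
    calc (w + 1 + 4) * 4 ^ (w + 1) = (4 * (w + 5)) * 4 ^ w := by ring
      _ ≤ (5 * (w + 4)) * 4 ^ w := Nat.mul_le_mul_right _ (by omega)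
      _ = 5 * ((w + 4) * 4 ^ w) := by ring
      _ ≤ 5 * (4 * 5 ^ w) := Nat.mul_le_mul_left _ ih
      _ = 4 * 5 ^ (w + 1) := by ring

theorem pow_aux' {C w : ℕ} (h : 4 * C ≤ w) : C * 8 ^ w ≤ 10 ^ w := by
  have h1 := pow_aux w
  have h2 : 4 * C * 4 ^ w ≤ 4 * 5 ^ w := (Nat.mul_le_mul_right _ (by omega)).trans h1
  have h3 : C * 4 ^ w ≤ 5 ^ w := by
    have : 4 * C * 4 ^ w = 4 * (C * 4 ^ w) := by ring
    omega
  have e1 : C * 8 ^ w = (C * 4 ^ w) * 2 ^ w := by
    rw [show (8 : ℕ) = 4 * 2 by norm_num, mul_pow]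
    ring
  have e2 : 10 ^ w = 5 ^ w * 2 ^ w := by
    rw [← mul_pow]
    norm_num
  rw [e1, e2]
  exact Nat.mul_le_mul_right _ h3

theorem list_len {T : ℕ} (l : List ℕ) (h : ∀ a ∈ l, T ≤ a) : l.length * T ≤ l.sum := by
  induction l with
  | nil => simp
  | cons a l ih =>
    have h1 := ih fun x hx => h x (List.mem_cons_of_mem _ hx)
    have h2 := h a (by simp)
    rw [List.length_cons, List.sum_cons, Nat.succ_mul]
    omega

theorem list_bounds {W : ℕ} (f : ℕ → ℕ) (l : List ℕ) (h : ∀ a ∈ l, a * W ≤ f a ∧ f a ≤ (a + 1) * W) :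
    l.sum * W ≤ (l.map f).sum ∧ (l.map f).sum ≤ (l.sum + l.length) * W := by
  induction l with
  | nil => simp
  | cons a l ih =>
    obtain ⟨h1, h2⟩ := ih fun x hx => h x (List.mem_cons_of_mem _ hx)
    obtain ⟨h3, h4⟩ := h a (by simp)
    rw [List.map_cons, List.sum_cons, List.sum_cons, List.length_cons]
    constructor
    · rw [add_mul]; omega
    · have : (a + l.sum + (l.length + 1)) * W = (a + 1) * W + (l.sum + l.length) * W := by ring
      omega

theorem good_const : ∃ K' w0 : ℕ, 1 ≤ K' ∧ ∀ w N, w0 ≤ w → N % 2 = 0 → K' * 10 ^ (6 * w) ≤ N →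
    N < K' * 10 ^ (6 * (w + 1)) → Good (2 * (Nat.log 2 (10 ^ (4 * w)) - 2) - 28) N := by
  obtain ⟨K, G, hKG⟩ := dense_sums 90 2000 (by norm_num) (by norm_num)
  set K' := K + 1 with hK'
  set K2 := K' * 10 ^ 6 with hK2
  set C2 := K2 + 2 with hC2
  set C3 := 1 + G * C2 + C2 with hC3
  refine ⟨K', 4 * C3 + 5, by omega, ?_⟩
  intro w N hw hN2 hN1 hN3
  set Wd := 10 ^ (5 * w) with hWd
  have hWd0 : 0 < Wd := by rw [hWd]; positivity
  set T := 10 ^ w with hT
  have hT0 : 0 < T := by rw [hT]; positivity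
  have hTw : w < T := Nat.lt_pow_self (by norm_num)
  have e6 : 10 ^ (6 * w) = T * Wd := by
    rw [hT, hWd, ← pow_add]
    congr 1
    ring
  have e6' : 10 ^ (6 * (w + 1)) = 10 ^ 6 * (T * Wd) := by
    rw [← e6, ← pow_add]
    congr 1
    ring
  rw [e6] at hN1
  rw [e6'] at hN3
  set t := N / Wd + 1 + G * C2 with ht
  have h1 : K' * T ≤ N / Wd := by
    rw [Nat.le_div_iff_mul_le hWd0]
    calc K' * T * Wd = K' * (T * Wd) := by ring
      _ ≤ N := hN1
  have h2 : N / Wd < K2 * T := by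
    rw [Nat.div_lt_iff_lt_mul hWd0]
    calc N < K' * (10 ^ 6 * (T * Wd)) := hN3
      _ = K2 * T * Wd := by rw [hK2]; ring
  obtain ⟨l, hl1, hl2, hl3⟩ := hKG T (AA w) (by omega) (AA_range (by omega)) (AA_card (by omega)) t
    (by
      have : K * T ≤ K' * T := Nat.mul_le_mul_right _ (by omega)
      omega)
  have h3 : l.length * T ≤ l.sum := list_len l fun a ha => (AA_range (by omega) a (hl1 a ha)).1
  have hGC : G * C2 ≤ T := by omega
  have h4 : t ≤ C2 * T := by
    have : C2 * T = K2 * T + 2 * T := by rw [hC2]; ring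
    omega
  have h5 : l.length ≤ C2 := by
    apply Nat.le_of_mul_le_mul_right _ hT0
    exact (h3.trans hl2).trans h4
  -- choice of the primes
  have hch : ∀ a, ∃ q, a ∈ AA w → q ∈ PP w ∧ vq q / Wd = a := by
    intro a
    by_cases ha : a ∈ AA w
    · unfold AA at ha
      rw [Finset.mem_image] at ha
      obtain ⟨q, h1, h2⟩ := ha
      exact ⟨q, fun _ => ⟨h1, h2⟩⟩
    · exact ⟨0, fun h => absurd h ha⟩
  choose c hc using hch
  set M := (l.map fun a => vq (c a)).sum with hM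
  obtain ⟨h6, h7⟩ := list_bounds (W := Wd) (fun a => vq (c a)) l (by
    intro a ha
    obtain ⟨h8, h9⟩ := hc a (hl1 a ha)
    constructor
    · have := Nat.div_mul_le_self (vq (c a)) Wd
      rw [h9] at this
      exact this
    · have : vq (c a) < (a + 1) * Wd := by
        apply (Nat.div_lt_iff_lt_mul hWd0).mp
        rw [h9]
        omega
      exact this.le)
  rw [← hM] at h6 h7
  set g := 2 * (Nat.log 2 (10 ^ (4 * w)) - 2) with hg
  have hgood : Good g M := by
    apply good_list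
    intro x hx
    rw [List.mem_map] at hx
    obtain ⟨a, ha, rfl⟩ := hx
    exact good_vq (by omega) (hc a (hl1 a ha)).1
  have hM2 := Good.even hgood
  have h8 : N ≤ M := by
    have h9 : G * l.length ≤ G * C2 := Nat.mul_le_mul_left _ h5
    have h10 : N / Wd + 1 ≤ l.sum := by omega
    have h11 : (N / Wd + 1) * Wd ≤ l.sum * Wd := Nat.mul_le_mul_right _ h10
    have h12 : N < (N / Wd + 1) * Wd := by
      apply (Nat.div_lt_iff_lt_mul hWd0).mp
      omega
    omega
  have h9 : M ≤ N + C3 * Wd := by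
    have h10 : (l.sum + l.length) * Wd ≤ (N / Wd + C3) * Wd := Nat.mul_le_mul_right _ (by omega)
    have h11 : (N / Wd + C3) * Wd = N / Wd * Wd + C3 * Wd := by ring
    have h12 := Nat.div_mul_le_self N Wd
    omega
  obtain ⟨h, hh⟩ : ∃ h, M - N = 2 * h := ⟨(M - N) / 2, by omega⟩
  have h10 : N = M - 2 * h := by omega
  have h8w : 2 ^ (3 * w) = 8 ^ w := by
    rw [pow_mul]
    norm_num
  have h11 : h * 2 ^ (3 * w - 3 + 3) ≤ M := by
    have e : 3 * w - 3 + 3 = 3 * w := by omega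
    rw [e, h8w]
    calc h * 8 ^ w ≤ (2 * h) * 8 ^ w := Nat.mul_le_mul_right _ (by omega)
      _ ≤ (C3 * Wd) * 8 ^ w := Nat.mul_le_mul_right _ (by omega)
      _ = (C3 * 8 ^ w) * Wd := by ring
      _ ≤ T * Wd := Nat.mul_le_mul_right _ (pow_aux' (by omega))
      _ = 1 * (T * Wd) := (one_mul _).symm
      _ ≤ K' * (T * Wd) := Nat.mul_le_mul_right _ (by omega)
      _ ≤ N := hN1
      _ ≤ M := h8
  have he1 : Nat.log 2 (10 ^ (4 * w)) ≤ 14 * w := by
    have e1 : 10 ^ (4 * w) ≤ 2 ^ (14 * w) := by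
      rw [pow_mul, pow_mul]
      exact Nat.pow_le_pow_left (by norm_num) w
    have := Nat.log_mono_right (b := 2) e1
    rwa [Nat.log_pow (by norm_num)] at this
  have he2 : 13 * w ≤ Nat.log 2 (10 ^ (4 * w)) := by
    apply (Nat.le_log_iff_pow_le (by norm_num) (by positivity)).mpr
    rw [pow_mul, pow_mul]
    exact Nat.pow_le_pow_left (by norm_num) w
  rw [h10]
  apply good_remove hgood (R := 3 * w - 3) (by omega) (by omega) _ h11
  intro x hx
  by_contra hcon
  have e1 : 3 * w - 3 + 2 = 3 * w - 1 := by omega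
  rw [e1] at hx
  obtain ⟨r, hr⟩ : ∃ r, 3 * w - 3 = r := ⟨_, rfl⟩
  have hr1 : 3 * w - 1 = r + 2 := by omega
  rw [hr, hr1] at hx
  have h12 : (r + 2) * (x + 29) ≤ (r + 2) * g := Nat.mul_le_mul_left _ (by omega)
  have h13 : (r + 2) * (x + 29) = (r + 2) * x + 29 * (r + 2) := by ring
  have h14 : (r + 2) * g = r * g + 2 * g := by ring
  omega

theorem exists_const : ∃ C : ℝ, ∀ m : ℕ, 8 ≤ m → ∃ G : SimpleGraph (Fin (2 * m)), G.Connected ∧
    (∀ v, (G.neighborSet v).ncard = 3) ∧ G.IsBipartite ∧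
    4 / 3 * Real.logb 2 (2 * m) - C ≤ (G.girth : ℝ) := by
  obtain ⟨K', w0, hK', hgood⟩ := good_const
  set lam := Real.logb 2 10 with hlam
  have hlam0 : 0 ≤ lam := Real.logb_nonneg (by norm_num) (by norm_num)
  set w1 := w0 + 2 with hw1
  refine ⟨4 / 3 * Real.logb 2 (K' * 10 ^ (6 * w1)) + (4 / 3 * Real.logb 2 K' + 8 * lam + 34), ?_⟩
  intro m hm
  have hKr : (1 : ℝ) ≤ K' := by exact_mod_cast hK'
  have hK0 : 0 ≤ Real.logb 2 K' := Real.logb_nonneg (by norm_num) hKr
  have hmr : (0 : ℝ) < 2 * m := by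
    have : (8 : ℝ) ≤ m := by exact_mod_cast hm
    linarith
  have hbig0 : 0 ≤ Real.logb 2 ((K' : ℝ) * 10 ^ (6 * w1)) := by
    apply Real.logb_nonneg (by norm_num)
    have : (1 : ℝ) ≤ 10 ^ (6 * w1) := one_le_pow₀ (by norm_num)
    nlinarith
  rcases Nat.lt_or_ge (2 * m) (K' * 10 ^ (6 * w1)) with hsmall | hbig
  · obtain ⟨G, h1, h2, h3, h4⟩ := (good_four (show 3 ≤ m by omega)).graph (by norm_num) (by omega)
    refine ⟨G, h1, h2, h3, ?_⟩
    have h5 : Real.logb 2 (2 * m) ≤ Real.logb 2 ((K' : ℝ) * 10 ^ (6 * w1)) := by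
      apply Real.logb_le_logb_of_le (by norm_num) hmr
      have : ((2 * m : ℕ) : ℝ) ≤ ((K' * 10 ^ (6 * w1) : ℕ) : ℝ) := by exact_mod_cast hsmall.le
      push_cast at this
      exact this
    have h6 : (0 : ℝ) ≤ G.girth := by positivity
    linarith
  · -- choose `w`
    have hex : ∃ w, 2 * m < K' * 10 ^ (6 * (w + 1)) := by
      refine ⟨2 * m, ?_⟩
      have h1 : 2 * m < 10 ^ (2 * m) := Nat.lt_pow_self (by norm_num)
      have h2 : 10 ^ (2 * m) ≤ 10 ^ (6 * (2 * m + 1)) := Nat.pow_le_pow_right (by norm_num) (by omega)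
      have h3 : 1 * 10 ^ (6 * (2 * m + 1)) ≤ K' * 10 ^ (6 * (2 * m + 1)) := Nat.mul_le_mul_right _ hK'
      omega
    classical
    set w := Nat.find hex with hw
    have hup : 2 * m < K' * 10 ^ (6 * (w + 1)) := Nat.find_spec hex
    have hw1w : w1 ≤ w := by
      by_contra hcon
      have h1 : 10 ^ (6 * (w + 1)) ≤ 10 ^ (6 * w1) := Nat.pow_le_pow_right (by norm_num) (by omega)
      have h2 : K' * 10 ^ (6 * (w + 1)) ≤ K' * 10 ^ (6 * w1) := Nat.mul_le_mul_left _ h1
      omega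
    have hlow : K' * 10 ^ (6 * w) ≤ 2 * m := by
      have h1 := Nat.find_min hex (m := w - 1) (by omega)
      have e : w - 1 + 1 = w := by omega
      rw [e] at h1
      omega
    have hG := hgood w (2 * m) (by omega) (by omega) hlow hup
    have he2 : 13 * w ≤ Nat.log 2 (10 ^ (4 * w)) := by
      apply (Nat.le_log_iff_pow_le (by norm_num) (by positivity)).mpr
      rw [pow_mul, pow_mul]
      exact Nat.pow_le_pow_left (by norm_num) w
    obtain ⟨G, h1, h2, h3, h4⟩ := hG.graph (by omega) (by omega)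
    refine ⟨G, h1, h2, h3, ?_⟩
    set e := Nat.log 2 (10 ^ (4 * w)) with he
    have h5 : (4 * w : ℝ) * lam < e + 1 := by
      have h6 : 10 ^ (4 * w) < 2 ^ (e + 1) := Nat.lt_pow_succ_log_self (by norm_num) _
      have h7 : Real.logb 2 ((10 : ℝ) ^ (4 * w)) < Real.logb 2 ((2 : ℝ) ^ (e + 1)) := by
        apply Real.logb_lt_logb (by norm_num) (by positivity)
        exact_mod_cast h6
      rw [Real.logb_pow, Real.logb_pow, Real.logb_self_eq_one (by norm_num)] at h7
      push_cast at h7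
      linarith
    have h6 : Real.logb 2 (2 * m) ≤ Real.logb 2 K' + 6 * (w + 1) * lam := by
      have h7 : Real.logb 2 (2 * m) ≤ Real.logb 2 ((K' : ℝ) * 10 ^ (6 * (w + 1))) := by
        apply Real.logb_le_logb_of_le (by norm_num) hmr
        have : ((2 * m : ℕ) : ℝ) ≤ ((K' * 10 ^ (6 * (w + 1)) : ℕ) : ℝ) := by exact_mod_cast hup.le
        push_cast at this
        exact this
      have h8 : Real.logb 2 ((K' : ℝ) * 10 ^ (6 * (w + 1))) =
          Real.logb 2 K' + 6 * (w + 1) * lam := by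
        rw [Real.logb_mul (by positivity) (by positivity), Real.logb_pow]
        push_cast
        ring
      rw [h8] at h7
      exact h7
    have h7 : (2 * (e : ℝ) - 32) ≤ G.girth := by
      have h8 : 2 * e ≤ G.girth + 32 := by omega
      have h9 : ((2 * e : ℕ) : ℝ) ≤ ((G.girth + 32 : ℕ) : ℝ) := by exact_mod_cast h8
      push_cast at h9
      linarith
    nlinarith

end H85S
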