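import Mathlib

/-! counting exceptional dyadic scales, and the average deficit -/

namespace H85S

open Finset

theorem tele (a : ℕ → ℝ) (h0 : ∀ i, 0 ≤ a i) (r J : ℕ) :
    ∑ j ∈ range J, (a (j + 1) - a (j - r)) ≤ ∑ i ∈ range (r + 1), a (J - i) := by
  induction J with
  | zero =>
    rw [range_zero, sum_empty]
    exact sum_nonneg fun i _ => h0 _
  | succ J ih =>
    rw [sum_range_succ, sum_range_succ' (fun i => a (J + 1 - i))]
    rw [sum_range_succ] at ih
    have : ∀ i ∈ range r, a (J + 1 - (i + 1)) = a (J - i) := by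
      intro i _
      congr 1
      omega
    rw [sum_congr rfl this]
    simp only [Nat.sub_zero]
    linarith

section

variable {b κ : ℕ → ℕ} (hmono : Monotone κ)
  (hlog : ∀ N, κ N ≤ 4 * Nat.log 2 (2 * N) + 4)
  (hlow : ∀ R N, 1 ≤ R → Even N → R + 2 ≤ κ (N / 2 ^ (R + 3)) →
    R * κ (N / 2 ^ (R + 3)) ≤ (R + 2) * b N)

include hlog in
theorem a_le (j : ℕ) : (κ (2 ^ j) : ℝ) ≤ 4 * j + 8 := by
  have h := hlog (2 ^ j)
  have h2 : Nat.log 2 (2 * 2 ^ j) = j + 1 := by
    rw [← pow_succ']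
    exact Nat.log_pow (by norm_num) _
  rw [h2] at h
  have : (κ (2 ^ j) : ℝ) ≤ ((4 * (j + 1) + 4 : ℕ) : ℝ) := by exact_mod_cast h
  push_cast at this
  linarith

include hmono in
theorem tele' (r J : ℕ) : ∑ j ∈ range J, ((κ (2 ^ (j + 1)) : ℝ) - κ (2 ^ (j - r))) ≤
    (r + 1) * κ (2 ^ J) := by
  refine (tele (fun j => (κ (2 ^ j) : ℝ)) (fun _ => by positivity) r J).trans ?_
  have h1 : ∀ i ∈ range (r + 1), (κ (2 ^ (J - i)) : ℝ) ≤ κ (2 ^ J) := by
    intro i _
    have := hmono (Nat.pow_le_pow_right (show 0 < 2 by norm_num) (Nat.sub_le J i))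
    exact_mod_cast this
  refine (sum_le_sum h1).trans ?_
  rw [sum_const, card_range, nsmul_eq_mul]
  push_cast
  exact le_rfl

include hmono in
theorem delta_nonneg (r j : ℕ) : (0 : ℝ) ≤ (κ (2 ^ (j + 1)) : ℝ) - κ (2 ^ (j - r)) := by
  have := hmono (Nat.pow_le_pow_right (show 0 < 2 by norm_num) (show j - r ≤ j + 1 by omega))
  have h2 : (κ (2 ^ (j - r)) : ℝ) ≤ κ (2 ^ (j + 1)) := by exact_mod_cast this
  linarith

include hmono hlog hlow in
theorem deficit {R j N : ℕ} (hR : 1 ≤ R) (hN : Even N) (h1 : 2 ^ j ≤ N) (h2 : N < 2 ^ (j + 1)) :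
    (κ N : ℝ) - b N ≤ ((κ (2 ^ (j + 1)) : ℝ) - κ (2 ^ (j - (R + 3)))) + (R + 10) +
      2 / (R + 2) * κ N := by
  set k' := κ (N / 2 ^ (R + 3)) with hk'
  have e1 : (κ N : ℝ) ≤ κ (2 ^ (j + 1)) := by exact_mod_cast hmono h2.le
  have e2 : (k' : ℝ) ≤ κ N := by
    have := hmono (Nat.div_le_self N (2 ^ (R + 3)))
    exact_mod_cast this
  have e3 : (κ (2 ^ (j - (R + 3))) : ℝ) ≤ k' + 8 := by
    by_cases hj : R + 3 ≤ j
    · have h3 : 2 ^ (j - (R + 3)) ≤ N / 2 ^ (R + 3) := by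
        rw [Nat.le_div_iff_mul_le (by positivity), ← pow_add]
        have : j - (R + 3) + (R + 3) = j := by omega
        rw [this]
        exact h1
      have h4 : (κ (2 ^ (j - (R + 3))) : ℝ) ≤ k' := by exact_mod_cast hmono h3
      linarith
    · have h3 : j - (R + 3) = 0 := by omega
      have h4 := a_le hlog 0
      rw [h3]
      have h5 : (0 : ℝ) ≤ k' := by positivity
      simp only [Nat.cast_zero] at h4
      linarith
  have hR2 : (0 : ℝ) < R + 2 := by positivity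
  have e4 : (k' : ℝ) ≤ b N + (R + 2) + 2 / (R + 2) * k' := by
    by_cases h : R + 2 ≤ k'
    · have h3 : ((R * k' : ℕ) : ℝ) ≤ ((R + 2) * b N : ℕ) := by exact_mod_cast hlow R N hR hN h
      push_cast at h3
      have h4 : (k' : ℝ) - 2 / (R + 2) * k' = R * k' / (R + 2) := by
        field_simp
        ring
      have h5 : (R : ℝ) * k' / (R + 2) ≤ b N := by
        rw [div_le_iff₀ hR2]
        linarith
      linarith
    · have h3 : (k' : ℝ) ≤ R + 2 := by
        have : k' ≤ R + 2 := by omega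
        exact_mod_cast this
      have h4 : (0 : ℝ) ≤ b N := by positivity
      have h5 : (0 : ℝ) ≤ 2 / (R + 2) * k' := by positivity
      linarith
  have e5 : 2 / ((R : ℝ) + 2) * k' ≤ 2 / (R + 2) * κ N := by
    apply mul_le_mul_of_nonneg_left e2
    positivity
  linarith

include hmono hlog hlow in
/-- the average deficit over the first `J` scales is `O(√J)` -/
theorem avg : ∃ C : ℝ, ∀ (J : ℕ) (f : ℕ → ℕ),
    (∀ j < J, Even (f j) ∧ 2 ^ (j + 1) ≤ f j ∧ f j < 2 ^ (j + 2)) →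
    ∑ j ∈ range J, ((κ (f j) : ℝ) - b (f j)) ≤ C * (J * √J) := by
  refine ⟨148, ?_⟩
  intro J f hf
  rcases Nat.eq_zero_or_pos J with h0 | h0
  · subst h0
    simp
  set R := Nat.sqrt J + 1 with hR
  set s := √(J : ℝ) with hs
  have hJ1 : (1 : ℝ) ≤ J := by exact_mod_cast h0
  have hs1 : 1 ≤ s := by rw [hs]; exact Real.one_le_sqrt.mpr hJ1
  have hs2 : s * s = J := by rw [hs]; exact Real.mul_self_sqrt (by positivity)
  have hRs : (R : ℝ) ≤ s + 1 := by
    rw [hR]
    push_cast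
    have : (Nat.sqrt J : ℝ) ≤ s := by rw [hs]; exact Real.nat_sqrt_le_real_sqrt
    linarith
  have hsR : s ≤ R := by
    rw [hR, hs]
    push_cast
    exact Real.real_sqrt_le_nat_sqrt_succ
  have hRpos : (0 : ℝ) < R := by linarith
  have h1 : ∀ j ∈ range J, (κ (f j) : ℝ) - b (f j) ≤
      ((κ (2 ^ (j + 1 + 1)) : ℝ) - κ (2 ^ (j + 1 - (R + 3)))) + ((s + 11) + 40 * s) := by
    intro j hj
    rw [mem_range] at hj
    obtain ⟨a1, a2, a3⟩ := hf j hj
    have h2 := deficit hmono hlog hlow (R := R) (j := j + 1) (by omega) a1 a2 a3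
    have h3 : (κ (f j) : ℝ) ≤ 20 * J := by
      have h4 : (κ (f j) : ℝ) ≤ κ (2 ^ (j + 2)) := by exact_mod_cast hmono a3.le
      have h5 := a_le hlog (j + 2)
      have h6 : (j : ℝ) + 1 ≤ J := by exact_mod_cast hj
      push_cast at h5
      linarith
    have h4 : 2 / ((R : ℝ) + 2) * κ (f j) ≤ 40 * s := by
      have h5 : 2 / ((R : ℝ) + 2) * κ (f j) ≤ 2 / s * (20 * J) := by
        apply mul_le_mul
        · apply div_le_div_of_nonneg_left (by norm_num) (by linarith) (by linarith)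
        · exact h3
        · positivity
        · positivity
      have h6 : 2 / s * (20 * (J : ℝ)) = 40 * s := by
        rw [← hs2]
        field_simp
        norm_num
      linarith
    linarith
  refine (sum_le_sum h1).trans ?_
  rw [sum_add_distrib, sum_const, card_range, nsmul_eq_mul]
  have h2 : ∑ j ∈ range J, ((κ (2 ^ (j + 1 + 1)) : ℝ) - κ (2 ^ (j + 1 - (R + 3)))) ≤
      (R + 3 + 1) * κ (2 ^ (J + 1)) := by
    have h3 := tele' hmono (R + 3) (J + 1)
    rw [sum_range_succ'] at h3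
    have h4 := delta_nonneg hmono (R + 3) 0
    have h5 : (((R + 3 : ℕ) : ℝ) + 1) = R + 3 + 1 := by push_cast; ring
    rw [h5] at h3
    linarith
  have h3 := a_le hlog (J + 1)
  push_cast at h3
  have h4 : ((R : ℝ) + 3 + 1) * κ (2 ^ (J + 1)) ≤ (6 * s) * (16 * J) := by
    apply mul_le_mul
    · linarith
    · linarith
    · positivity
    · positivity
  have h5 : (J : ℝ) * ((s + 11) + 40 * s) ≤ 52 * (J * s) := by
    have : s + 11 + 40 * s ≤ 52 * s := by linarith
    calc (J : ℝ) * ((s + 11) + 40 * s) ≤ J * (52 * s) := mul_le_mul_of_nonneg_left this (by positivity)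
      _ = 52 * (J * s) := by ring
  have h6 : (6 * s) * (16 * (J : ℝ)) = 96 * (J * s) := by ring
  linarith

include hmono hlog hlow in
/-- all but `O(log J)` of the first `J` dyadic scales have no exceptional order -/
theorem exc (hbig : ∃ j0 : ℕ, ∀ j ≥ j0, (j : ℝ) / 2 ≤ κ (2 ^ j)) (ε : ℝ) (hε : 0 < ε) :
    ∃ C : ℝ, ∀ J : ℕ, 2 ≤ J →
      (({j | j < J ∧ ∃ N, Even N ∧ 2 ^ j ≤ N ∧ N < 2 ^ (j + 1) ∧
        (b N : ℝ) < (1 - ε) * κ N} : Set ℕ).ncard : ℝ) ≤ C * Real.log J := by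
  classical
  obtain ⟨j0, hj0⟩ := hbig
  obtain ⟨R, hR⟩ : ∃ R : ℕ, 4 / ε ≤ R := exists_nat_ge _
  have hR1 : 1 ≤ R := by
    by_contra h
    have : R = 0 := by omega
    subst this
    have : 0 < 4 / ε := by positivity
    simp at hR
    linarith
  have hR2 : 2 / ((R : ℝ) + 2) ≤ ε / 2 := by
    rw [div_le_iff₀ (by positivity)]
    rw [div_le_iff₀ hε] at hR
    nlinarith
  obtain ⟨j1, hj1, hj01⟩ : ∃ j1 : ℕ, 8 * ((R : ℝ) + 10) / ε ≤ j1 ∧ j0 ≤ j1 := by
    obtain ⟨k, hk⟩ := exists_nat_ge (8 * ((R : ℝ) + 10) / ε)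
    refine ⟨max k j0, hk.trans ?_, le_max_right _ _⟩
    exact_mod_cast le_max_left _ _
  set Δ : ℕ → ℝ := fun j => (κ (2 ^ (j + 1)) : ℝ) - κ (2 ^ (j - (R + 3))) with hΔ
  have key : ∀ j, j1 ≤ j → (∃ N, Even N ∧ 2 ^ j ≤ N ∧ N < 2 ^ (j + 1) ∧
      (b N : ℝ) < (1 - ε) * κ N) → ε / 8 * j ≤ Δ j := by
    rintro j hj ⟨N, a1, a2, a3, a4⟩
    have h1 := deficit hmono hlog hlow hR1 a1 a2 a3
    have h2 : (κ (2 ^ j) : ℝ) ≤ κ N := by exact_mod_cast hmono a2
    have h3 := hj0 j (hj01.trans hj)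
    have h4 : 2 / ((R : ℝ) + 2) * κ N ≤ ε / 2 * κ N :=
      mul_le_mul_of_nonneg_right hR2 (by positivity)
    have h5 : 8 * ((R : ℝ) + 10) / ε ≤ j := hj1.trans (by exact_mod_cast hj)
    rw [div_le_iff₀ hε] at h5
    have h6 : ε / 2 * (j / 2) ≤ ε / 2 * κ N :=
      mul_le_mul_of_nonneg_left (h3.trans h2) (by positivity)
    show ε / 8 * j ≤ (κ (2 ^ (j + 1)) : ℝ) - κ (2 ^ (j - (R + 3)))
    nlinarith
  set K : ℝ := 128 * ((R : ℝ) + 4) / ε with hK
  have hK0 : 0 ≤ K := by rw [hK]; positivity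
  set E : ℕ → Finset ℕ := fun i => (Ico (2 ^ i) (2 ^ (i + 1))).filter
    (fun j => ε / 8 * (j : ℝ) ≤ Δ j) with hE
  have hEc : ∀ i, ((E i).card : ℝ) ≤ K := by
    intro i
    have h1 : ((E i).card : ℝ) * (ε / 8 * 2 ^ i) ≤ ∑ j ∈ E i, Δ j := by
      rw [← nsmul_eq_mul]
      apply card_nsmul_le_sum
      intro j hj
      rw [hE, mem_filter, mem_Ico] at hj
      refine le_trans ?_ hj.2
      apply mul_le_mul_of_nonneg_left _ (by positivity)
      exact_mod_cast hj.1.1
    have h2 : ∑ j ∈ E i, Δ j ≤ ∑ j ∈ range (2 ^ (i + 1)), Δ j := by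
      apply sum_le_sum_of_subset_of_nonneg
      · intro j hj
        rw [hE, mem_filter, mem_Ico] at hj
        rw [mem_range]
        exact hj.1.2
      · intro j _ _
        exact delta_nonneg hmono _ _
    have h3 := tele' hmono (R + 3) (2 ^ (i + 1))
    have h4 := a_le hlog (2 ^ (i + 1))
    have h5 : (1 : ℝ) ≤ 2 ^ i := one_le_pow₀ (by norm_num)
    have h6 : (4 * ((2 ^ (i + 1) : ℕ) : ℝ) + 8) ≤ 16 * 2 ^ i := by
      push_cast
      rw [pow_succ]
      linarith
    have h7 : ((((R + 3 : ℕ) : ℝ)) + 1) * κ (2 ^ 2 ^ (i + 1)) ≤ (R + 4) * (16 * 2 ^ i) := by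
      apply mul_le_mul
      · push_cast; linarith
      · linarith
      · positivity
      · positivity
    have h8 : ((E i).card : ℝ) * (ε / 8 * 2 ^ i) ≤ (R + 4) * (16 * 2 ^ i) := by
      refine h1.trans (h2.trans (le_trans ?_ h7))
      exact h3
    rw [hK, le_div_iff₀ hε]
    have h9 : (0 : ℝ) < 2 ^ i := by positivity
    have h10 : (((E i).card : ℝ) * ε) * 2 ^ i ≤ (128 * ((R : ℝ) + 4)) * 2 ^ i := by
      nlinarith
    exact le_of_mul_le_mul_right h10 h9
  have hl2 : 0 < Real.log 2 := Real.log_pos (by norm_num)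
  refine ⟨(j1 + K) / Real.log 2 + K / Real.log 2, ?_⟩
  intro J hJ
  have hsub : {j | j < J ∧ ∃ N, Even N ∧ 2 ^ j ≤ N ∧ N < 2 ^ (j + 1) ∧
        (b N : ℝ) < (1 - ε) * κ N} ⊆
      ((range j1 ∪ (range (Nat.log 2 J + 1)).biUnion E : Finset ℕ) : Set ℕ) := by
    rintro j ⟨h1, h2⟩
    simp only [coe_union, Set.mem_union, mem_coe, mem_range, mem_biUnion]
    by_cases h3 : j < j1
    · exact Or.inl h3
    · rcases Nat.eq_zero_or_pos j with h0 | h0
      · -- `j = 0`: no even number in `[1, 2)`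
        exfalso
        obtain ⟨N, a1, a2, a3, _⟩ := h2
        subst h0
        simp at a2 a3
        have : N = 1 := by omega
        subst this
        exact absurd a1 (by decide)
      · right
        refine ⟨Nat.log 2 j, ?_, ?_⟩
        · have := Nat.log_mono_right (b := 2) h1.le
          omega
        · rw [hE, mem_filter, mem_Ico]
          refine ⟨⟨Nat.pow_log_le_self 2 (by omega), Nat.lt_pow_succ_log_self (by norm_num) _⟩, ?_⟩
          exact key j (by omega) h2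
  have h1 : ({j | j < J ∧ ∃ N, Even N ∧ 2 ^ j ≤ N ∧ N < 2 ^ (j + 1) ∧
        (b N : ℝ) < (1 - ε) * κ N} : Set ℕ).ncard ≤
      (range j1 ∪ (range (Nat.log 2 J + 1)).biUnion E).card := by
    rw [← Set.ncard_coe_finset]
    exact Set.ncard_le_ncard hsub (Finset.finite_toSet _)
  have h2 : ((range j1 ∪ (range (Nat.log 2 J + 1)).biUnion E).card : ℝ) ≤
      j1 + (Nat.log 2 J + 1) * K := by
    have h3 := card_union_le (range j1) ((range (Nat.log 2 J + 1)).biUnion E)
    rw [card_range] at h3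
    have h4 : (((range (Nat.log 2 J + 1)).biUnion E).card : ℝ) ≤ (Nat.log 2 J + 1) * K := by
      have h5 : ((range (Nat.log 2 J + 1)).biUnion E).card ≤
          ∑ i ∈ range (Nat.log 2 J + 1), (E i).card := card_biUnion_le
      have h6 : ((((range (Nat.log 2 J + 1)).biUnion E).card : ℕ) : ℝ) ≤
          ∑ i ∈ range (Nat.log 2 J + 1), ((E i).card : ℝ) := by exact_mod_cast h5
      refine h6.trans ((sum_le_sum fun i _ => hEc i).trans ?_)
      rw [sum_const, card_range, nsmul_eq_mul]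
      push_cast
      exact le_rfl
    have h7 : ((range j1 ∪ (range (Nat.log 2 J + 1)).biUnion E).card : ℝ) ≤
        j1 + (((range (Nat.log 2 J + 1)).biUnion E).card : ℝ) := by exact_mod_cast h3
    linarith
  have h3 : ((({j | j < J ∧ ∃ N, Even N ∧ 2 ^ j ≤ N ∧ N < 2 ^ (j + 1) ∧
        (b N : ℝ) < (1 - ε) * κ N} : Set ℕ).ncard : ℕ) : ℝ) ≤
      j1 + (Nat.log 2 J + 1) * K := le_trans (by exact_mod_cast h1) h2
  refine h3.trans ?_
  have h4 : (Nat.log 2 J : ℝ) ≤ Real.log J / Real.log 2 := by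
    rw [le_div_iff₀ hl2, ← Real.log_pow]
    apply Real.log_le_log (by positivity)
    exact_mod_cast Nat.pow_log_le_self 2 (by omega)
  have h5 : 1 ≤ Real.log J / Real.log 2 := by
    rw [le_div_iff₀ hl2, one_mul]
    apply Real.log_le_log (by norm_num)
    exact_mod_cast hJ
  have h6 : ((Nat.log 2 J : ℝ) + 1) * K ≤ (Real.log J / Real.log 2 + 1) * K :=
    mul_le_mul_of_nonneg_right (by linarith) hK0
  have h7 : (j1 : ℝ) + K ≤ (j1 + K) * (Real.log J / Real.log 2) := by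
    have : (0 : ℝ) ≤ j1 + K := by positivity
    nlinarith
  have h8 : ((j1 + K) / Real.log 2 + K / Real.log 2) * Real.log J =
      (j1 + K) * (Real.log J / Real.log 2) + K * (Real.log J / Real.log 2) := by ring
  rw [h8]
  linarith

end

end H85S
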