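import Pool.Agent.H25G.Graph

/-!
Cubic simple graphs and three-edge-coloured bipartite graphs: the adjacency relation of a cubic graph
is a union of three permutations (Hall), which gives a colouring of the edges of a bipartite cubic
graph, and of the bipartite double cover of any cubic graph.
-/

namespace H85S

open H25G SimpleGraph

section Hall

variable {V : Type*} [Fintype V] [DecidableEq V]

theorem exists_perm (r : V → V → Prop) [∀ a b, Decidable (r a b)] {k : ℕ} (hk : 0 < k)
    (h1 : ∀ v, (Finset.univ.filter (fun w => r v w)).card = k)
    (h2 : ∀ w, (Finset.univ.filter (fun v => r v w)).card = k) :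
    ∃ σ : Equiv.Perm V, ∀ v, r v (σ v) := by
  have hall := (Finset.all_card_le_biUnion_card_iff_exists_injective
    (fun v => Finset.univ.filter (fun w => r v w))).mp (by
      intro s
      have := Finset.card_mul_le_card_mul (s := s)
        (t := s.biUnion (fun v => Finset.univ.filter (fun w => r v w))) r (m := k) (n := k)
        (by
          intro a ha
          have : (s.biUnion (fun v => Finset.univ.filter (fun w => r v w))).bipartiteAbove r a
              = Finset.univ.filter (fun w => r a w) := by
            ext w
            simp only [Finset.mem_bipartiteAbove, Finset.mem_biUnion, Finset.mem_filter,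
              Finset.mem_univ, true_and]
            exact ⟨fun h => h.2, fun h => ⟨⟨a, ha, h⟩, h⟩⟩
          rw [this, h1])
        (by
          intro b _
          rw [← h2 b]
          apply Finset.card_le_card
          intro a ha
          rw [Finset.mem_bipartiteBelow] at ha
          simp [ha.2])
      exact Nat.le_of_mul_le_mul_right this hk)
  obtain ⟨f, hf, hf'⟩ := hall
  have hb : Function.Bijective f := Finite.injective_iff_bijective.mp hf
  refine ⟨Equiv.ofBijective f hb, fun v => ?_⟩
  have := hf' v
  simpa using this

theorem exists_perms (k : ℕ) : ∀ (r : V → V → Prop) [∀ a b, Decidable (r a b)],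
    (∀ v, (Finset.univ.filter (fun w => r v w)).card = k) →
    (∀ w, (Finset.univ.filter (fun v => r v w)).card = k) →
    ∃ σ : Fin k → Equiv.Perm V, (∀ i v, r v (σ i v)) ∧ ∀ v, Function.Injective fun i => σ i v := by
  induction k with
  | zero =>
    intro r _ _ _
    exact ⟨fun i => i.elim0, fun i => i.elim0, fun v i => i.elim0⟩
  | succ k ih =>
    intro r _ h1 h2
    obtain ⟨τ, hτ⟩ := exists_perm r (Nat.succ_pos k) h1 h2
    obtain ⟨σ, hσ1, hσ2⟩ := ih (fun v w => r v w ∧ w ≠ τ v)
      (by
        intro v
        have : Finset.univ.filter (fun w => r v w ∧ w ≠ τ v) =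
            (Finset.univ.filter (fun w => r v w)).erase (τ v) := by
          ext w
          simp only [Finset.mem_filter, Finset.mem_univ, true_and, Finset.mem_erase]
          tauto
        rw [this, Finset.card_erase_of_mem (by simp [hτ]), h1]
        rfl)
      (by
        intro w
        have : Finset.univ.filter (fun v => r v w ∧ w ≠ τ v) =
            (Finset.univ.filter (fun v => r v w)).erase (τ.symm w) := by
          ext v
          simp only [Finset.mem_filter, Finset.mem_univ, true_and, Finset.mem_erase]
          constructor
          · rintro ⟨a, b⟩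
            refine ⟨?_, a⟩
            rintro rfl
            simp at b
          · rintro ⟨a, b⟩
            refine ⟨b, ?_⟩
            rintro rfl
            simp at a
        rw [this, Finset.card_erase_of_mem (by
          have := hτ (τ.symm w)
          simpa using this), h2]
        rfl)
    refine ⟨Fin.cons τ σ, ?_, ?_⟩
    · intro i v
      refine Fin.cases ?_ (fun j => ?_) i
      · simpa using hτ v
      · simpa using (hσ1 j v).1
    · intro v i j
      refine Fin.cases ?_ (fun i' => ?_) i <;> refine Fin.cases ?_ (fun j' => ?_) j
      · simp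
      · intro h
        simp only [Fin.cons_zero, Fin.cons_succ] at h
        exact absurd h.symm (hσ1 j' v).2
      · intro h
        simp only [Fin.cons_zero, Fin.cons_succ] at h
        exact absurd h (hσ1 i' v).2
      · intro h
        simp only [Fin.cons_succ] at h
        exact congrArg Fin.succ (hσ2 v h)

end Hall

/-- the adjacency of a cubic graph is a union of three permutations -/
theorem cubic_perms {V : Type*} [Finite V] (G : SimpleGraph V)
    (h3 : ∀ v, (G.neighborSet v).ncard = 3) :
    ∃ σ : Fin 3 → Equiv.Perm V, (∀ i v, G.Adj v (σ i v)) ∧ ∀ v, Function.Injective fun i => σ i v := by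
  classical
  have := Fintype.ofFinite V
  have h : ∀ v, (Finset.univ.filter (fun w => G.Adj v w)).card = 3 := by
    intro v
    rw [← h3 v, Set.ncard_eq_toFinset_card']
    congr 1
    ext w
    simp
  apply exists_perms 3 (fun v w => G.Adj v w) h
  intro w
  rw [← h w]
  congr 1
  ext v
  simp [G.adj_comm]

section Girth

variable {Y V : Type*} (C : Col Y) (G : SimpleGraph V) (π : Y → V)
  (hadj : ∀ i y, G.Adj (π y) (π (C.ι i y)))

/-- the walk of a word, in the quotient -/
def walk : (w : List (Fin 3)) → (y : Y) → G.Walk (π y) (π (C.act w y))
  | [], _ => Walk.nil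
  | i :: w, y => Walk.cons (hadj i y) (walk w (C.ι i y))

theorem walk_length (w : List (Fin 3)) (y : Y) : (walk C G π hadj w y).length = w.length := by
  induction w generalizing y with
  | nil => rfl
  | cons i w ih =>
    rw [walk, Walk.length_cons]
    exact congrArg (· + 1) (ih _)

theorem mem_walk_support (w : List (Fin 3)) (y : Y) (v : V)
    (h : v ∈ (walk C G π hadj w y).support) : ∃ a b, w = a ++ b ∧ π (C.act a y) = v := by
  induction w generalizing y with
  | nil =>
    rw [walk] at h
    simp at h
    exact ⟨[], [], rfl, h.symm⟩
  | cons i w ih =>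
    rw [walk, Walk.support_cons, List.mem_cons] at h
    rcases h with h | h
    · exact ⟨[], i :: w, rfl, h.symm⟩
    · obtain ⟨a, b, h1, h2⟩ := ih _ h
      exact ⟨i :: a, b, by rw [h1]; rfl, h2⟩

theorem walk_isPath (w : List (Fin 3)) (y : Y)
    (h : ∀ a b c, w = a ++ b ++ c → b ≠ [] → π (C.act b (C.act a y)) ≠ π (C.act a y)) :
    (walk C G π hadj w y).IsPath := by
  induction w generalizing y with
  | nil => exact Walk.IsPath.nil
  | cons i w ih =>
    rw [walk, Walk.cons_isPath_iff]
    constructor
    · apply ih
      intro a b c h1 h2
      have := h (i :: a) b c (by rw [h1]; rfl) h2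
      exact this
    · intro hm
      obtain ⟨a, b, h1, h2⟩ := mem_walk_support C G π hadj w _ _ hm
      have := h [] (i :: a) b (by rw [h1]; rfl) (by simp)
      exact this h2

include hadj in
theorem girth_of_graph (hinj : ∀ y, Function.Injective fun i => π (C.ι i y)) {g : ℕ}
    (hg : (g : ℕ∞) ≤ G.egirth) : C.Girth g := by
  classical
  by_contra hcon
  unfold Col.Girth at hcon
  push Not at hcon
  obtain ⟨w0, a0, b0, c0, y0, d0⟩ := hcon
  have hex : ∃ n, ∃ w y, w ≠ [] ∧ Red w ∧ w.length = n ∧ π (C.act w y) = π y :=
    ⟨w0.length, w0, y0, a0, b0, rfl, by rw [d0]⟩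
  obtain ⟨w, y, h1, h2, h3, h4⟩ := Nat.find_spec hex
  have hle : Nat.find hex ≤ w0.length := Nat.find_min' hex ⟨w0, y0, a0, b0, rfl, by rw [d0]⟩
  have hmin : ∀ a b c, w = a ++ b ++ c → b ≠ [] → b.length < w.length →
      π (C.act b (C.act a y)) ≠ π (C.act a y) := by
    intro a b c h5 h6 h7 h8
    refine Nat.find_min hex (m := b.length) (by rw [← h3]; exact h7) ⟨b, C.act a y, h6, ?_, rfl, h8⟩
    exact h2.of_eq a b c h5
  cases w with
  | nil => exact h1 rfl
  | cons i w =>
    -- the length is at least three
    have hw : w ≠ [] := by
      rintro rfl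
      rw [Col.act_cons, Col.act_nil] at h4
      exact (hadj i y).ne h4.symm
    have hw2 : w.length ≠ 1 := by
      intro hl
      obtain ⟨j, rfl⟩ := List.length_eq_one_iff.mp hl
      rw [Col.act_cons, Col.act_cons, Col.act_nil] at h4
      have h5 : (fun l => π (C.ι l (C.ι i y))) j = (fun l => π (C.ι l (C.ι i y))) i := by
        show π (C.ι j (C.ι i y)) = π (C.ι i (C.ι i y))
        rw [h4, C.invol]
      have h6 := hinj _ h5
      subst h6
      exact not_red_cons_cons h2
    set p := walk C G π hadj w (C.ι i y) with hp
    have hpath : p.IsPath := by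
      apply walk_isPath
      intro a b c h5 h6
      have := hmin (i :: a) b c (by rw [h5]; rfl) h6 (by rw [h5]; simp; omega)
      exact this
    have hend : π (C.act w (C.ι i y)) = π y := h4
    have hcyc : (Walk.cons (hadj i y) (p.copy rfl hend)).IsCycle := by
      rw [Walk.cons_isCycle_iff]
      constructor
      · rw [Walk.isPath_copy]
        exact hpath
      · intro hm
        have hp' : (p.copy rfl hend).IsPath := by
          rw [Walk.isPath_copy]
          exact hpath
        rw [Sym2.eq_swap] at hm
        have h5 := hp'.length_eq_one_of_mem_edges hm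
        rw [Walk.length_copy, hp, walk_length] at h5
        exact hw2 h5
    have h5 := hg.trans (egirth_le_length hcyc)
    rw [Walk.length_cons, Walk.length_copy, hp, walk_length] at h5
    have h6 : g ≤ w.length + 1 := by exact_mod_cast h5
    have h7 : (i :: w).length = w.length + 1 := rfl
    omega

end Girth

theorem egirth_ge {V : Type*} (G : SimpleGraph V) {g : ℕ} (hg : g ≤ G.girth) :
    (g : ℕ∞) ≤ G.egirth := by
  have h1 : ((G.girth : ℕ) : ℕ∞) ≤ G.egirth := G.egirth.natCast_toNat_le_self
  exact le_trans (by exact_mod_cast hg) h1

/-- the bipartite double cover -/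
theorem good_double {n g : ℕ} (G : SimpleGraph (Fin n)) (h3 : ∀ v, (G.neighborSet v).ncard = 3)
    (hg : g ≤ G.girth) : Good g (2 * n) := by
  obtain ⟨σ, h1, h2⟩ := cubic_perms G h3
  have h2' : ∀ v, Function.Injective fun i => (σ i).symm v := by
    intro v i j h
    have e : (σ i).symm v = (σ j).symm v := h
    have h5 : (fun l => σ l ((σ i).symm v)) i = (fun l => σ l ((σ i).symm v)) j := by
      show σ i ((σ i).symm v) = σ j ((σ i).symm v)
      rw [Equiv.apply_symm_apply, e, Equiv.apply_symm_apply]
    exact h2 _ h5
  let C : Col (Fin n × Bool) :=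
    { ι := fun i z => if z.2 then ((σ i).symm z.1, false) else (σ i z.1, true)
      side := fun z => z.2
      invol := by
        rintro i ⟨v, b⟩
        cases b <;> simp
      side_ι := by
        rintro i ⟨v, b⟩
        cases b <;> simp }
  refine ⟨Fin n × Bool, inferInstance, C, by simp [mul_comm], ?_⟩
  apply girth_of_graph C G Prod.fst
  · rintro i ⟨v, b⟩
    cases b
    · exact h1 i v
    · have := h1 i ((σ i).symm v)
      rw [Equiv.apply_symm_apply] at this
      exact this.symm
  · rintro ⟨v, b⟩
    cases b
    · exact h2 v
    · exact h2' v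
  · exact egirth_ge G hg

/-- edge colouring of a cubic bipartite graph -/
theorem good_of_graph' {n g : ℕ} (G : SimpleGraph (Fin n)) (h3 : ∀ v, (G.neighborSet v).ncard = 3)
    (hb : G.IsBipartite) (hg : (g : ℕ∞) ≤ G.egirth) : Good g n := by
  obtain ⟨σ, h1, h2⟩ := cubic_perms G h3
  have h2' : ∀ v, Function.Injective fun i => (σ i).symm v := by
    intro v i j h
    have e : (σ i).symm v = (σ j).symm v := h
    have h5 : (fun l => σ l ((σ i).symm v)) i = (fun l => σ l ((σ i).symm v)) j := by
      show σ i ((σ i).symm v) = σ j ((σ i).symm v)
      rw [Equiv.apply_symm_apply, e, Equiv.apply_symm_apply]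
    exact h2 _ h5
  obtain ⟨c⟩ := hb
  let s : Fin n → Bool := fun v => decide (c v = 1)
  have hs : ∀ v w, G.Adj v w → s w = !s v := by
    intro v w h
    have := c.valid h
    show decide (c w = 1) = !decide (c v = 1)
    generalize c v = a at *
    generalize c w = b at *
    revert a b
    decide
  have hadj : ∀ i v, G.Adj v (if s v then (σ i).symm v else σ i v) := by
    intro i v
    split_ifs
    · have := h1 i ((σ i).symm v)
      rw [Equiv.apply_symm_apply] at this
      exact this.symm
    · exact h1 i v
  let C : Col (Fin n) :=
    { ι := fun i v => if s v then (σ i).symm v else σ i v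
      side := s
      invol := by
        intro i v
        have e := hs _ _ (hadj i v)
        cases hv : s v
        · simp only [hv] at e ⊢
          simp at e ⊢
          simp [e]
        · simp only [hv] at e ⊢
          simp at e ⊢
          simp [e]
      side_ι := by
        intro i v
        exact hs _ _ (hadj i v) }
  refine ⟨Fin n, inferInstance, C, by simp, ?_⟩
  apply girth_of_graph C G id hadj
  · intro v
    cases hv : s v
    · intro i j h
      have h' : (if s v then (σ i).symm v else σ i v) = (if s v then (σ j).symm v else σ j v) := h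
      simp only [hv, Bool.false_eq_true, if_false] at h'
      exact h2 v h'
    · intro i j h
      have h' : (if s v then (σ i).symm v else σ i v) = (if s v then (σ j).symm v else σ j v) := h
      simp only [hv, if_true] at h'
      exact h2' v h'
  · exact hg

/-- edge colouring of a cubic bipartite graph -/
theorem good_of_graph {n g : ℕ} (G : SimpleGraph (Fin n)) (h3 : ∀ v, (G.neighborSet v).ncard = 3)
    (hb : G.IsBipartite) (hg : g ≤ G.girth) : Good g n :=
  good_of_graph' G h3 hb (egirth_ge G hg)

end H85S
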