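import Pool.Agent.H85S.Greedy
import Pool.Agent.H85S.Koenig
import Pool.Agent.H25G.Final

/-! the functions `b` and `κ`, and the basic inequalities between them -/

namespace H85S

open H25G SimpleGraph

section Moore

variable {X : Type*}

/-- the reduced word `0 x₁ 0 x₂ ...` with `xᵢ ∈ {1, 2}` given by bits -/
def bw : List Bool → List (Fin 3)
  | [] => []
  | b :: s => 0 :: (if b then 1 else 2) :: bw s

theorem bw_length (s : List Bool) : (bw s).length = 2 * s.length := by
  induction s with
  | nil => rfl
  | cons b s ih => simp [bw, ih]; ring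

theorem bw_append (s t : List Bool) : bw (s ++ t) = bw s ++ bw t := by
  induction s with
  | nil => rfl
  | cons b s ih => simp [bw, ih]

theorem bw_head (s : List Bool) : ∀ y ∈ (bw s).head?, y = 0 := by
  cases s with
  | nil => simp [bw]
  | cons b s => simp [bw]

theorem bw_red (s : List Bool) : Red (bw s) := by
  induction s with
  | nil => exact List.isChain_nil
  | cons b s ih =>
    unfold Red at ih ⊢
    rw [bw, List.isChain_cons_cons, List.isChain_cons]
    refine ⟨by cases b <;> simp, ?_, ih⟩
    intro y hy
    rw [bw_head s y hy]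
    cases b <;> simp

theorem bw_inj (C : Col X) {g : ℕ} (hg : C.Girth g) (x : X) : ∀ s t : List Bool,
    s.length = t.length → 4 * s.length < g → C.act (bw s) x = C.act (bw t) x → s = t := by
  intro s
  induction s using List.reverseRecOn with
  | nil =>
    intro t h _ _
    exact (List.length_eq_zero_iff.mp (by simpa using h.symm)).symm
  | append_singleton s b ih =>
    intro t hl hg' hact
    rcases List.eq_nil_or_concat t with h | ⟨t', c, h⟩
    · subst h
      simp at hl
    · rw [List.concat_eq_append] at h
      subst h
      simp only [List.length_append, List.length_cons, List.length_nil] at hl hg'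
      by_cases hbc : b = c
      · subst hbc
        rw [bw_append, bw_append, Col.act_append, Col.act_append] at hact
        have h1 : C.act (bw s) x = C.act (bw t') x := by
          have h2 := congrArg (C.act (bw [b]).reverse) hact
          rwa [C.act_reverse, C.act_reverse] at h2
        rw [ih t' (by omega) (by omega) h1]
      · exfalso
        have hred : Red (bw (s ++ [b]) ++ (bw (t' ++ [c])).reverse) := by
          have h1 := bw_red (s ++ [b])
          have h2 := bw_red (t' ++ [c])
          unfold Red at h1 h2 ⊢
          rw [List.isChain_append]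
          refine ⟨h1, ?_, ?_⟩
          · rw [List.isChain_reverse]
            exact h2.imp fun _ _ h => h.symm
          · intro y hy z hz
            rw [List.head?_reverse] at hz
            have e1 : (bw (s ++ [b])).getLast? = some (if b then 1 else 2) := by
              rw [bw_append, List.getLast?_append]
              simp [bw]
            have e2 : (bw (t' ++ [c])).getLast? = some (if c then 1 else 2) := by
              rw [bw_append, List.getLast?_append]
              simp [bw]
            rw [e1] at hy
            rw [e2] at hz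
            simp only [Option.mem_def, Option.some.injEq] at hy hz
            rw [← hy, ← hz]
            cases b <;> cases c <;> simp at hbc ⊢
        refine hg _ ?_ hred ?_ x ?_
        · simp [bw_append, bw]
        · rw [List.length_append, List.length_reverse, bw_length, bw_length]
          simp only [List.length_append, List.length_cons, List.length_nil]
          omega
        · rw [Col.act_append, hact, C.act_reverse]

theorem moore (C : Col X) [Finite X] [Nonempty X] {g r : ℕ} (hg : C.Girth g) (hr : 4 * r < g) :
    2 ^ r ≤ Nat.card X := by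
  obtain ⟨x⟩ := ‹Nonempty X›
  have hinj : Function.Injective (fun s : List.Vector Bool r => C.act (bw s.toList) x) := by
    intro s t h
    apply List.Vector.toList_injective
    exact bw_inj C hg x _ _ (by simp) (by simpa using hr) h
  have := Nat.card_le_card_of_injective _ hinj
  simpa using this

end Moore

/-- cubic graphs -/
def Cubic {n : ℕ} (G : SimpleGraph (Fin n)) : Prop := ∀ v, (G.neighborSet v).ncard = 3

theorem girth_zero (G : SimpleGraph (Fin 0)) : G.girth = 0 := by
  rw [girth_eq_zero]
  intro v
  exact v.elim0

theorem Good.moore {g n r : ℕ} (h : Good g n) (hn : 0 < n) (hr : 4 * r < g) : 2 ^ r ≤ n := by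
  obtain ⟨X, _, C, rfl, hC⟩ := h
  have : Nonempty X := by
    by_contra hcon
    rw [not_nonempty_iff] at hcon
    rw [Nat.card_of_isEmpty] at hn
    omega
  exact H85S.moore C hC hr

theorem girth_le_log {n : ℕ} (G : SimpleGraph (Fin n)) (h3 : Cubic G) :
    G.girth ≤ 4 * Nat.log 2 (2 * n) + 4 := by
  rcases Nat.eq_zero_or_pos n with h0 | h0
  · subst h0
    rw [girth_zero]
    omega
  · by_contra hcon
    have h1 := good_double G h3 le_rfl
    have h2 := Good.moore h1 (by omega) (r := Nat.log 2 (2 * n) + 1) (by omega)
    have h3 := Nat.lt_pow_succ_log_self (b := 2) (by norm_num) (2 * n)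
    omega

/-- a connected graph on every even number `N ≥ 2 ^ (R + 3) * n` of vertices -/
theorem exists_smooth {n g R N : ℕ} (G : SimpleGraph (Fin n)) (h3 : Cubic G) (hg : g ≤ G.girth)
    (hR : 1 ≤ R) (hRg : R + 2 ≤ g) (hN2 : Even N) (hN : 2 ^ (R + 3) * n ≤ N) :
    ∃ H : SimpleGraph (Fin N), H.Connected ∧ Cubic H ∧ H.IsBipartite ∧
      R * g ≤ (R + 2) * H.girth := by
  have hn0 : 0 < n := by
    rcases Nat.eq_zero_or_pos n with h | h
    · subst h
      rw [girth_zero] at hg
      omega
    · exact h
  obtain ⟨m, hm⟩ := hN2
  have hm' : N = 2 * m := by omega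
  subst hm'
  have hm3 : 3 ≤ m := by
    have h1 : 2 ^ 4 ≤ 2 ^ (R + 3) := Nat.pow_le_pow_right (by norm_num) (by omega)
    have h2 : 2 ^ (R + 3) * 1 ≤ 2 ^ (R + 3) * n := Nat.mul_le_mul_left _ hn0
    omega
  set g' := (R * g + (R + 1)) / (R + 2) with hg'
  have hlow : ∀ l, R * g ≤ (R + 2) * l → g' ≤ l := by
    intro l hl
    rw [hg']
    apply Nat.lt_succ_iff.mp
    rw [Nat.div_lt_iff_lt_mul (by omega)]
    have : l.succ * (R + 2) = (R + 2) * l + (R + 2) := by
      rw [Nat.succ_eq_add_one]; ring
    omega
  have hup : R * g ≤ (R + 2) * g' := by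
    have h1 := Nat.div_add_mod' (R * g + (R + 1)) (R + 2)
    have h2 := Nat.mod_lt (R * g + (R + 1)) (show 0 < R + 2 by omega)
    rw [← hg'] at h1
    have h3 : g' * (R + 2) = (R + 2) * g' := by ring
    omega
  by_cases h4 : 4 ≤ g'
  · have h5 := good_double G h3 hg
    have h6 := good_smooth h5 (by omega) (by omega) hR hRg hlow (N := 2 * m) (by omega) (by
      have : 2 ^ (R + 2) * (2 * n) = 2 ^ (R + 3) * n := by ring
      omega)
    obtain ⟨H, h7, h8, h9, h10⟩ := h6.graph (by omega) (by omega)
    exact ⟨H, h7, h8, h9, hup.trans (Nat.mul_le_mul_left _ h10)⟩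
  · obtain ⟨H, h7, h8, h9, h10⟩ := (good_four hm3).graph (by norm_num) (by omega)
    refine ⟨H, h7, h8, h9, hup.trans (Nat.mul_le_mul_left _ (by omega))⟩

/-- removing one edge: `2` fewer vertices, girth smaller by at most `2` -/
theorem exists_minus_two {m : ℕ} (hm : 3 ≤ m) (G : SimpleGraph (Fin (2 * m + 2))) (h3 : Cubic G)
    (hb : G.IsBipartite) :
    ∃ H : SimpleGraph (Fin (2 * m)), Cubic H ∧ H.IsBipartite ∧ G.girth ≤ H.girth + 2 := by
  by_cases h6 : G.girth ≤ 6
  · obtain ⟨H, _, h8, h9, h10⟩ := (good_four hm).graph (by norm_num) (by omega)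
    exact ⟨H, h8, h9, by omega⟩
  · obtain ⟨X, _, C, hc, hC⟩ := good_of_graph G h3 hb le_rfl
    set g := G.girth
    have hne : Nonempty X := by
      by_contra hcon
      rw [not_nonempty_iff] at hcon
      rw [Nat.card_of_isEmpty] at hc
      omega
    obtain ⟨a, ha⟩ : ∃ a, C.side a = false := by
      obtain ⟨x⟩ := hne
      cases hs : C.side x
      · exact ⟨x, hs⟩
      · exact ⟨C.ι 0 x, by rw [C.side_ι, hs]; rfl⟩
    have hS : Sep C (g - 2) {a} := by
      intro u hu
      rw [Set.mem_singleton_iff] at hu
      subst hu
      refine ⟨ha, ?_⟩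
      intro u' hu' hne
      exact absurd hu' hne
    have hok := hS.ok (by omega) hC (by omega)
    have hgir := rem_girth hok hS hC (by omega) (g' := g - 2) (by
      intro l hl
      have e : g - 2 + 2 = g := by omega
      rw [e, mul_comm] at hl
      exact Nat.le_of_mul_le_mul_left hl (by omega))
    have hgood : Good (g - 2) (2 * m) := by
      refine ⟨{z // ¬ bad C {a} z}, inferInstance, rem C {a} hok, ?_, hgir⟩
      have h1 := bad_card C hS
      have h2 := Set.ncard_add_ncard_compl {z | bad C {a} z}
      have h3 : Nat.card {z // ¬ bad C {a} z} = {z | bad C {a} z}ᶜ.ncard := by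
        rw [← Nat.card_coe_set_eq]
        rfl
      rw [h3]
      rw [Set.ncard_singleton] at h1
      omega
    obtain ⟨H, _, h8, h9, h10⟩ := hgood.graph (by omega) (by omega)
    exact ⟨H, h8, h9, by omega⟩

end H85S
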