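import Pool.Agent.H85S.InsertGirth
import Pool.Agent.H85S.Kappa

/-! two more vertices -/

namespace H85S

open H25G SimpleGraph

theorem sum_two_pow (k : ℕ) : ∑ i : Fin k, 2 ^ (i : ℕ) + 1 = 2 ^ k := by
  rw [Fin.sum_univ_eq_sum_range (fun i => 2 ^ i) k]
  induction k with
  | zero => rfl
  | succ k ih =>
    rw [Finset.sum_range_succ, pow_succ]
    omega

theorem ball_card {X : Type*} [Finite X] {C : Col X} (x0 : X) {g ρ : ℕ} (hg : C.Girth g)
    (hρ : 2 * ρ + 4 ≤ g) : {x | InB C x0 ρ x}.ncard + 2 = 2 ^ (ρ + 2) := by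
  classical
  let φ : Bool × (Σ i : Fin (ρ + 1), List.Vector Bool i) → X := fun p => vt C x0 p.1 p.2.2.toList
  have hinj : Function.Injective φ := by
    rintro ⟨e, i, s⟩ ⟨e', i', s'⟩ h
    have h1 := vt_inj C x0 hg (e := e) (e' := e') (s := s.toList) (s' := s'.toList) (by
      rw [List.Vector.toList_length, List.Vector.toList_length]
      have := i.2
      have := i'.2
      omega) h
    obtain ⟨h2, h3⟩ := h1
    subst h2
    have h4 : i = i' := by
      apply Fin.ext
      rw [← s.toList_length, ← s'.toList_length, h3]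
    subst h4
    have h5 : s = s' := List.Vector.toList_injective h3
    rw [h5]
  have hrange : {x | InB C x0 ρ x} = Set.range φ := by
    ext x
    simp only [Set.mem_ofPred_eq, Set.mem_range]
    constructor
    · rintro ⟨e, s, h1, h2⟩
      exact ⟨(e, ⟨⟨s.length, by omega⟩, ⟨s, rfl⟩⟩), h2⟩
    · rintro ⟨⟨e, i, s⟩, h⟩
      refine ⟨e, s.toList, ?_, h⟩
      rw [List.Vector.toList_length]
      have := i.2
      omega
  rw [hrange, ← Set.image_univ, Set.ncard_image_of_injective _ hinj, Set.ncard_univ]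
  have h1 : Nat.card (Bool × (Σ i : Fin (ρ + 1), List.Vector Bool i)) =
      2 * ∑ i : Fin (ρ + 1), 2 ^ (i : ℕ) := by
    rw [Nat.card_prod, Nat.card_sigma]
    simp
  rw [h1]
  have h2 := sum_two_pow (ρ + 1)
  have h3 : 2 ^ (ρ + 2) = 2 * 2 ^ (ρ + 1) := by ring
  omega

theorem good_insert {g g' n ρ : ℕ} (hn : Good g n) (hn0 : 0 < n) (hρ : 2 * ρ + 4 ≤ g)
    (h1 : g' ≤ 2 ^ (ρ + 2)) (h2 : g' + 2 * ρ ≤ g) (h3 : 3 ≤ g') : Good g' (n + 2) := by
  classical
  obtain ⟨X, _, C, rfl, hC⟩ := hn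
  obtain ⟨x0⟩ : Nonempty X := by
    by_contra hcon
    rw [not_nonempty_iff] at hcon
    rw [Nat.card_of_isEmpty] at hn0
    omega
  have hM : 0 < 2 ^ (ρ + 1) := by positivity
  have : NeZero (2 ^ (ρ + 1)) := ⟨hM.ne'⟩
  have hcard : Nat.card (ZMod (2 ^ (ρ + 1))) = Nat.card {s : List Bool // s.length = ρ + 1} := by
    rw [Nat.card_zmod]
    have : Nat.card (List.Vector Bool (ρ + 1)) = 2 ^ (ρ + 1) := by simp
    exact this.symm
  have hfin : Finite {s : List Bool // s.length = ρ + 1} := by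
    have : Finite (List.Vector Bool (ρ + 1)) := inferInstance
    exact this
  let E : ZMod (2 ^ (ρ + 1)) ≃ {s : List Bool // s.length = ρ + 1} :=
    (Finite.card_eq.mp hcard).some
  have hP : (ins x0 hC hρ E).PGirth g' := by
    apply ins_girth x0 hC hρ E _ h2
    have : 2 * 2 ^ (ρ + 1) = 2 ^ (ρ + 2) := by ring
    rw [this]
    exact h1
  apply Port.good hP h3
  rw [Nat.card_sum, Nat.card_prod, Nat.card_zmod]
  have h4 := ball_card x0 hC hρ
  have h5 := Set.ncard_add_ncard_compl {x | InB C x0 ρ x}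
  have h6 : Nat.card {x // ¬ InB C x0 ρ x} = {x | InB C x0 ρ x}ᶜ.ncard := by
    rw [← Nat.card_coe_set_eq]
    rfl
  have h7 : 2 ^ (ρ + 2) = 2 ^ (ρ + 1) * 2 := by ring
  have h8 : Nat.card Bool = 2 := by simp
  rw [h6, h8, ← h7]
  omega

end H85S
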