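import Mathlib

/-!
# Passing from `b N ≥ R/(R+2) κ(N / 2^(R+3))` to equality of liminf and limsup (MP_7ef8f0_co)
-/

namespace H85S

open Filter Topology

/-- Abstract comparison of liminf and limsup of two real sequences along `m ↦ m / P`. -/
theorem liminf_limsup_of_div (U V : ℕ → ℝ) (huv : ∀ m, U m ≤ V m)
    (hkey : ∀ ε : ℝ, 0 < ε → ∃ P : ℕ, 1 ≤ P ∧ ∀ᶠ m : ℕ in atTop, V (m / P) ≤ U m + ε) :
    liminf (fun m : ℕ => ((U m : ℝ) : EReal)) atTop =
      liminf (fun m : ℕ => ((V m : ℝ) : EReal)) atTop ∧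
    limsup (fun m : ℕ => ((U m : ℝ) : EReal)) atTop =
      limsup (fun m : ℕ => ((V m : ℝ) : EReal)) atTop := by
  constructor
  · apply le_antisymm
    · exact liminf_le_liminf (Eventually.of_forall fun m => EReal.coe_le_coe_iff.2 (huv m))
    · refine EReal.ge_of_forall_gt_iff_ge.1 fun z hz => ?_
      have h1 : ∀ᶠ m : ℕ in atTop, (z : EReal) < (V m : EReal) := eventually_lt_of_lt_liminf hz
      refine EReal.ge_of_forall_gt_iff_ge.1 fun w hw => ?_
      have hwz : w < z := by exact_mod_cast hw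
      obtain ⟨P, hP, hk⟩ := hkey (z - w) (by linarith)
      have h2 : ∀ᶠ m : ℕ in atTop, (z : EReal) < (V (m / P) : EReal) :=
        (Nat.tendsto_div_const_atTop (n := P) (by omega)).eventually h1
      refine le_liminf_of_le ?_ ?_
      · isBoundedDefault
      filter_upwards [hk, h2] with m hm hm2
      have h3 : z < V (m / P) := by exact_mod_cast hm2
      have : w ≤ U m := by linarith
      exact_mod_cast this
  · apply le_antisymm
    · exact limsup_le_limsup (Eventually.of_forall fun m => EReal.coe_le_coe_iff.2 (huv m))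
    · refine EReal.le_of_forall_lt_iff_le.1 fun z hz => ?_
      have h1 : ∀ᶠ m : ℕ in atTop, (U m : EReal) < (z : EReal) := eventually_lt_of_limsup_lt hz
      refine EReal.le_of_forall_lt_iff_le.1 fun w hw => ?_
      have hwz : z < w := by exact_mod_cast hw
      obtain ⟨P, hP, hk⟩ := hkey (w - z) (by linarith)
      have htP : Tendsto (fun m : ℕ => P * m) atTop atTop :=
        tendsto_id.const_mul_atTop' (by omega)
      have h2 := htP.eventually hk
      have h3 := htP.eventually h1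
      refine limsup_le_of_le ?_ ?_
      · isBoundedDefault
      filter_upwards [h2, h3] with m hm hm2
      have h4 : U (P * m) < z := by exact_mod_cast hm2
      rw [Nat.mul_div_cancel_left m (by omega : 0 < P)] at hm
      have : V m ≤ w := by linarith
      exact_mod_cast this

theorem logb_two_nonneg (m : ℕ) : 0 ≤ Real.logb 2 (2 * (m : ℝ)) := by
  rcases Nat.eq_zero_or_pos m with h | h
  · subst h; simp
  · apply Real.logb_nonneg (by norm_num)
    have : (1 : ℝ) ≤ m := by exact_mod_cast h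
    linarith

theorem key_bound (b κ : ℕ → ℕ) (hle : ∀ N, b N ≤ κ N) (hmono : Monotone κ)
    (hlog : ∀ N, κ N ≤ 4 * Nat.log 2 (2 * N) + 4)
    (hlow : ∀ R N, 1 ≤ R → Even N → R + 2 ≤ κ (N / 2 ^ (R + 3)) →
      R * κ (N / 2 ^ (R + 3)) ≤ (R + 2) * b N) (R : ℕ) (hR : 1 ≤ R) :
    ∀ᶠ m : ℕ in atTop,
      (κ (2 * (m / 2 ^ (R + 3))) : ℝ) / Real.logb 2 (2 * ((m / 2 ^ (R + 3) : ℕ) : ℝ)) ≤
        (b (2 * m) : ℝ) / Real.logb 2 (2 * (m : ℝ)) + 8 / R +
          ((2 / R) * (4 * R + 24) + (R + 2) + 12 * (R + 4)) /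
            Real.logb 2 (2 * ((m / 2 ^ (R + 3) : ℕ) : ℝ)) := by
  filter_upwards [eventually_ge_atTop (2 ^ (R + 3))] with m hm
  set P : ℕ := 2 ^ (R + 3) with hPdef
  have hPpos : 0 < P := by positivity
  set m' : ℕ := m / P with hm'
  have hm1 : 1 ≤ m' := by
    rw [hm', Nat.one_le_div_iff hPpos]; exact hm
  have hm1r : (1 : ℝ) ≤ (m' : ℝ) := by exact_mod_cast hm1
  set L : ℝ := Real.logb 2 (2 * (m : ℝ)) with hL
  set L' : ℝ := Real.logb 2 (2 * (m' : ℝ)) with hL'
  have hL'1 : 1 ≤ L' := by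
    rw [hL', Real.le_logb_iff_rpow_le (by norm_num) (by linarith)]
    norm_num; linarith
  have hmm' : m < P * (m' + 1) := Nat.lt_mul_div_succ m hPpos
  have hm'm : m' ≤ m := Nat.div_le_self _ _
  have hmr : (1 : ℝ) ≤ (m : ℝ) := le_trans hm1r (by exact_mod_cast hm'm)
  have hLL' : L' ≤ L := by
    rw [hL, hL']
    apply Real.logb_le_logb_of_le (by norm_num) (by linarith)
    have : (m' : ℝ) ≤ m := by exact_mod_cast hm'm
    linarith
  have hLle : L ≤ L' + (R + 4) := by
    have h1 : (2 * (m : ℝ)) ≤ (2 * (m' : ℝ)) * 2 ^ (R + 4) := by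
      have h2 : m ≤ P * (2 * m') := by
        refine le_trans hmm'.le ?_
        apply Nat.mul_le_mul_left; omega
      have h3 : (m : ℝ) ≤ (P : ℝ) * (2 * m') := by exact_mod_cast h2
      have h4 : (P : ℝ) = 2 ^ (R + 3) := by rw [hPdef]; push_cast; ring
      rw [h4] at h3
      have h5 : (2 : ℝ) ^ (R + 4) = 2 * 2 ^ (R + 3) := by rw [pow_succ]; ring
      rw [h5]; linarith
    have h6 : L ≤ Real.logb 2 ((2 * (m' : ℝ)) * 2 ^ (R + 4)) := by
      rw [hL]
      exact Real.logb_le_logb_of_le (by norm_num) (by linarith) h1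
    rw [Real.logb_mul (by positivity) (by positivity)] at h6
    have h7 : Real.logb 2 ((2 : ℝ) ^ (R + 4)) = (R + 4 : ℕ) := by
      rw [← Real.rpow_natCast, Real.logb_rpow (by norm_num) (by norm_num)]
    rw [h7] at h6
    push_cast at h6
    exact h6
  have hL1 : 1 ≤ L := le_trans hL'1 hLL'
  -- the combinatorial bound
  have hRpos : (0 : ℝ) < R := by exact_mod_cast hR
  have hcomb : R * κ (2 * m') ≤ (R + 2) * b (2 * m) + R * (R + 2) := by
    have h1 : 2 * m' ≤ (2 * m) / P := by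
      rw [Nat.le_div_iff_mul_le hPpos]
      have := Nat.div_mul_le_self m P
      calc 2 * m' * P = 2 * (m / P * P) := by rw [hm']; ring
        _ ≤ 2 * m := Nat.mul_le_mul_left 2 this
    have h2 : κ (2 * m') ≤ κ ((2 * m) / P) := hmono h1
    rcases le_or_gt (R + 2) (κ ((2 * m) / P)) with h | h
    · have h3 := hlow R (2 * m) hR (even_two_mul m) h
      calc R * κ (2 * m') ≤ R * κ ((2 * m) / P) := Nat.mul_le_mul_left R h2
        _ ≤ (R + 2) * b (2 * m) := h3
        _ ≤ _ := Nat.le_add_right _ _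
    · have h3 : κ (2 * m') ≤ R + 2 := by omega
      calc R * κ (2 * m') ≤ R * (R + 2) := Nat.mul_le_mul_left R h3
        _ ≤ _ := Nat.le_add_left _ _
  have hcombr : (R : ℝ) * κ (2 * m') ≤ (R + 2) * b (2 * m) + R * (R + 2) := by
    exact_mod_cast hcomb
  have hb : (b (2 * m) : ℝ) ≤ 4 * L + 8 := by
    have h1 : b (2 * m) ≤ 4 * Nat.log 2 (2 * (2 * m)) + 4 := le_trans (hle _) (hlog _)
    have h2 : ((Nat.log 2 (2 * (2 * m)) : ℕ) : ℝ) ≤ Real.logb 2 ((2 * (2 * m) : ℕ) : ℝ) := by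
      have := Real.natLog_le_logb (2 * (2 * m)) 2
      exact_mod_cast this
    have h3 : Real.logb 2 ((2 * (2 * m) : ℕ) : ℝ) = 1 + L := by
      push_cast
      rw [Real.logb_mul (by norm_num) (by positivity), Real.logb_self_eq_one (by norm_num)]
    have h4 : (b (2 * m) : ℝ) ≤ 4 * (Nat.log 2 (2 * (2 * m)) : ℕ) + 4 := by exact_mod_cast h1
    rw [h3] at h2
    linarith
  have hb0 : (0 : ℝ) ≤ b (2 * m) := Nat.cast_nonneg _
  -- conclude
  have hκ : (κ (2 * m') : ℝ) ≤ b (2 * m) + (2 / R) * b (2 * m) + (R + 2) := by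
    have h1 : (κ (2 * m') : ℝ) ≤ ((R + 2) * b (2 * m) + R * (R + 2)) / R := by
      rw [le_div_iff₀ hRpos]; linarith
    have h2 : (((R : ℝ) + 2) * b (2 * m) + R * (R + 2)) / R =
        b (2 * m) + (2 / R) * b (2 * m) + (R + 2) := by
      field_simp
    rw [h2] at h1; exact h1
  have hL'pos : 0 < L' := by linarith
  have hLpos : 0 < L := by linarith
  have e1 : (b (2 * m) : ℝ) / L' ≤ (b (2 * m) : ℝ) / L + 12 * (R + 4) / L' := by
    have h1 : (b (2 * m) : ℝ) / L' - (b (2 * m) : ℝ) / L =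
        ((b (2 * m) : ℝ) / L) * (L - L') / L' := by
      field_simp
    have h2 : (b (2 * m) : ℝ) / L ≤ 12 := by
      rw [div_le_iff₀ hLpos]; linarith
    have h3 : ((b (2 * m) : ℝ) / L) * (L - L') ≤ 12 * (R + 4) := by
      apply mul_le_mul h2 (by linarith) (by linarith) (by norm_num)
    have h4 : ((b (2 * m) : ℝ) / L) * (L - L') / L' ≤ 12 * (R + 4) / L' :=
      div_le_div_of_nonneg_right h3 hL'pos.le
    linarith
  have e2 : (2 / R) * (b (2 * m) : ℝ) / L' ≤ 8 / R + ((2 / R) * (4 * R + 24)) / L' := by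
    have h1 : (2 / (R : ℝ)) * (b (2 * m) : ℝ) ≤ (2 / R) * (4 * L' + (4 * R + 24)) := by
      apply mul_le_mul_of_nonneg_left _ (by positivity)
      linarith
    have h2 : (2 / (R : ℝ)) * (b (2 * m) : ℝ) / L' ≤ (2 / R) * (4 * L' + (4 * R + 24)) / L' :=
      div_le_div_of_nonneg_right h1 hL'pos.le
    have h3 : (2 / (R : ℝ)) * (4 * L' + (4 * R + 24)) / L' =
        8 / R + ((2 / R) * (4 * R + 24)) / L' := by
      field_simp
      ring
    rw [h3] at h2; exact h2
  have e3 : (κ (2 * m') : ℝ) / L' ≤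
      (b (2 * m) + (2 / R) * b (2 * m) + (R + 2)) / L' :=
    div_le_div_of_nonneg_right hκ hL'pos.le
  have e4 : ((b (2 * m) : ℝ) + (2 / R) * b (2 * m) + (R + 2)) / L' =
      (b (2 * m) : ℝ) / L' + (2 / R) * (b (2 * m) : ℝ) / L' + (R + 2) / L' := by
    rw [add_div, add_div]
  have e5 : ((2 / (R : ℝ)) * (4 * R + 24) + (R + 2) + 12 * (R + 4)) / L' =
      ((2 / R) * (4 * R + 24)) / L' + (R + 2) / L' + 12 * (R + 4) / L' := by
    rw [add_div, add_div]
  rw [e5]
  linarith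

/-- **The limit lemma**: if `b ≤ κ`, `κ` is monotone of logarithmic growth and
`R κ(N / 2^(R+3)) ≤ (R+2) b(N)` for even `N` as soon as `κ(N / 2^(R+3)) ≥ R + 2`, then
`b(2m)/log₂(2m)` and `κ(2m)/log₂(2m)` have the same liminf and the same limsup. -/
theorem liminf_limsup_eq (b κ : ℕ → ℕ) (hle : ∀ N, b N ≤ κ N) (hmono : Monotone κ)
    (hlog : ∀ N, κ N ≤ 4 * Nat.log 2 (2 * N) + 4)
    (hlow : ∀ R N, 1 ≤ R → Even N → R + 2 ≤ κ (N / 2 ^ (R + 3)) →
      R * κ (N / 2 ^ (R + 3)) ≤ (R + 2) * b N) :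
    liminf (fun m : ℕ => (((b (2 * m) : ℝ) / Real.logb 2 (2 * m) : ℝ) : EReal)) atTop =
      liminf (fun m : ℕ => (((κ (2 * m) : ℝ) / Real.logb 2 (2 * m) : ℝ) : EReal)) atTop ∧
    limsup (fun m : ℕ => (((b (2 * m) : ℝ) / Real.logb 2 (2 * m) : ℝ) : EReal)) atTop =
      limsup (fun m : ℕ => (((κ (2 * m) : ℝ) / Real.logb 2 (2 * m) : ℝ) : EReal)) atTop := by
  refine liminf_limsup_of_div (fun m : ℕ => (b (2 * m) : ℝ) / Real.logb 2 (2 * m))
    (fun m : ℕ => (κ (2 * m) : ℝ) / Real.logb 2 (2 * m)) ?_ ?_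
  · intro m
    exact div_le_div_of_nonneg_right (by exact_mod_cast hle _) (logb_two_nonneg m)
  · intro ε hε
    obtain ⟨R, hR⟩ := exists_nat_gt (16 / ε)
    have hR1 : 1 ≤ R := by
      rcases Nat.eq_zero_or_pos R with h | h
      · subst h
        have : 0 < 16 / ε := by positivity
        push_cast at hR; linarith
      · exact h
    have hRpos : (0 : ℝ) < R := by exact_mod_cast hR1
    have h8 : 8 / (R : ℝ) < ε / 2 := by
      rw [div_lt_iff₀ hε] at hR
      rw [div_lt_iff₀ hRpos]; nlinarith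
    refine ⟨2 ^ (R + 3), Nat.one_le_two_pow, ?_⟩
    have hk := key_bound b κ hle hmono hlog hlow R hR1
    set C : ℝ := (2 / R) * (4 * R + 24) + (R + 2) + 12 * (R + 4) with hC
    have hdiv : Tendsto (fun m : ℕ => m / 2 ^ (R + 3)) atTop atTop :=
      Nat.tendsto_div_const_atTop (by positivity)
    have hlogt : Tendsto (fun m : ℕ => Real.logb 2 (2 * (m : ℝ))) atTop atTop :=
      (Real.tendsto_logb_atTop (by norm_num)).comp
        (tendsto_natCast_atTop_atTop.const_mul_atTop (by norm_num))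
    have hT : Tendsto (fun m : ℕ => C / Real.logb 2 (2 * ((m / 2 ^ (R + 3) : ℕ) : ℝ)))
        atTop (𝓝 0) := (hlogt.comp hdiv).const_div_atTop C
    have hev : ∀ᶠ m : ℕ in atTop, C / Real.logb 2 (2 * ((m / 2 ^ (R + 3) : ℕ) : ℝ)) < ε / 2 :=
      hT.eventually_lt_const (by positivity)
    filter_upwards [hk, hev] with m h1 h2
    linarith

end H85S
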