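import Pool.Agent.H85S.Kappa
import Pool.Agent.H85S.Count
import Pool.Agent.H85S.Lim
import Pool.Agent.H85S.InsertGood
import Pool.Agent.H85S.Const2

/-! the functions `b` (sup of girths of the cubic bipartite graphs of order `n`) and `κ` (sup of the
girths of the cubic graphs of order at most `N`), as abstract suprema of sets -/

namespace H85S

open H25G SimpleGraph Filter

/-- girths of the cubic bipartite graphs on `Fin n` -/
def SB (n : ℕ) : Set ℕ := {g | ∃ G : SimpleGraph (Fin n),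
  (∀ v, (G.neighborSet v).ncard = 3) ∧ G.IsBipartite ∧ G.girth = g}

/-- girths of the cubic graphs on at most `N` vertices -/
def SK (N : ℕ) : Set ℕ := {g | ∃ n ≤ N, ∃ G : SimpleGraph (Fin n),
  (∀ v, (G.neighborSet v).ncard = 3) ∧ G.girth = g}

theorem SB_bdd (n : ℕ) : BddAbove (SB n) := by
  refine ⟨4 * Nat.log 2 (2 * n) + 4, ?_⟩
  rintro g ⟨G, h3, _, rfl⟩
  exact girth_le_log G h3

theorem SK_le {N g : ℕ} (h : g ∈ SK N) : g ≤ 4 * Nat.log 2 (2 * N) + 4 := by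
  obtain ⟨n, hn, G, h3, rfl⟩ := h
  have h1 := girth_le_log G h3
  have h2 : Nat.log 2 (2 * n) ≤ Nat.log 2 (2 * N) := Nat.log_mono_right (by omega)
  omega

theorem SK_bdd (N : ℕ) : BddAbove (SK N) := ⟨_, fun _ h => SK_le h⟩

theorem SK_ne (N : ℕ) : (SK N).Nonempty :=
  ⟨0, 0, Nat.zero_le _, ⊥, fun v => v.elim0, girth_zero _⟩

noncomputable def bb (n : ℕ) : ℕ := sSup (SB n)

noncomputable def kk (N : ℕ) : ℕ := sSup (SK N)

theorem kk_log (N : ℕ) : kk N ≤ 4 * Nat.log 2 (2 * N) + 4 :=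
  csSup_le (SK_ne N) fun _ h => SK_le h

theorem kk_mono : Monotone kk := by
  intro M N h
  apply csSup_le_csSup (SK_bdd N) (SK_ne M)
  rintro g ⟨n, hn, G, h3⟩
  exact ⟨n, hn.trans h, G, h3⟩

theorem bb_le_kk (N : ℕ) : bb N ≤ kk N := by
  rcases Set.eq_empty_or_nonempty (SB N) with h | h
  · unfold bb
    rw [h, csSup_empty]
    exact Nat.zero_le _
  · apply csSup_le_csSup (SK_bdd N) h
    rintro g ⟨G, h3, _, hg⟩
    exact ⟨N, le_rfl, G, h3, hg⟩

theorem le_bb {n : ℕ} (G : SimpleGraph (Fin n)) (h3 : ∀ v, (G.neighborSet v).ncard = 3)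
    (hb : G.IsBipartite) : G.girth ≤ bb n := le_csSup (SB_bdd n) ⟨G, h3, hb, rfl⟩

theorem kk_low (R N : ℕ) (hR : 1 ≤ R) (hN : Even N) (h : R + 2 ≤ kk (N / 2 ^ (R + 3))) :
    R * kk (N / 2 ^ (R + 3)) ≤ (R + 2) * bb N := by
  obtain ⟨n, hn, G, h3, hg⟩ := Nat.sSup_mem (SK_ne (N / 2 ^ (R + 3))) (SK_bdd _)
  change G.girth = kk (N / 2 ^ (R + 3)) at hg
  rw [← hg] at h ⊢
  obtain ⟨H, _, h4, h5, h6⟩ := exists_smooth (g := G.girth) G h3 le_rfl hR h hN
    ((Nat.mul_le_mul_left _ hn).trans (Nat.mul_div_le _ _))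
  exact h6.trans (Nat.mul_le_mul_left _ (le_bb H h4 h5))

theorem kk_big : ∃ j0 : ℕ, ∀ j ≥ j0, (j : ℝ) / 2 ≤ kk (2 ^ j) := by
  obtain ⟨C, hC⟩ := exists_const
  obtain ⟨k, hk⟩ := exists_nat_ge (2 * C)
  refine ⟨max 4 k, ?_⟩
  intro j hj
  have h4 : 4 ≤ j := (le_max_left _ _).trans hj
  have hkj : k ≤ j := (le_max_right _ _).trans hj
  have hkj' : (k : ℝ) ≤ j := by exact_mod_cast hkj
  have h8 : 8 ≤ 2 ^ (j - 1) := by
    calc 8 = 2 ^ 3 := by norm_num
      _ ≤ 2 ^ (j - 1) := Nat.pow_le_pow_right (by norm_num) (by omega)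
  obtain ⟨G, _, h3, hb, hg⟩ := hC (2 ^ (j - 1)) h8
  have e : 2 * 2 ^ (j - 1) = 2 ^ j := by
    rw [← pow_succ', show j - 1 + 1 = j by omega]
  have e' : Real.logb 2 (2 * ((2 ^ (j - 1) : ℕ) : ℝ)) = j := by
    have : (2 * ((2 ^ (j - 1) : ℕ) : ℝ)) = 2 ^ j := by exact_mod_cast e
    rw [this, Real.logb_pow, Real.logb_self_eq_one (by norm_num), mul_one]
  rw [e'] at hg
  have h5 : (G.girth : ℝ) ≤ kk (2 ^ j) := by
    have h6 := (le_bb G h3 hb).trans (bb_le_kk _)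
    have h7 : kk (2 * 2 ^ (j - 1)) = kk (2 ^ j) := by rw [e]
    rw [h7] at h6
    exact_mod_cast h6
  have h6 : (4 : ℝ) ≤ j := by exact_mod_cast h4
  linarith

theorem bb_four {n : ℕ} (hn : Even n) (h6 : 6 ≤ n) : 4 ≤ bb n := by
  obtain ⟨m, rfl⟩ := hn
  rw [← two_mul] at h6 ⊢
  obtain ⟨G, _, h3, hb, hg⟩ := (good_four (show 3 ≤ m by omega)).graph (by norm_num) (by omega)
  exact hg.trans (le_bb G h3 hb)

theorem bb_mem {n : ℕ} (hn : Even n) (h6 : 6 ≤ n) : ∃ G : SimpleGraph (Fin n),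
    (∀ v, (G.neighborSet v).ncard = 3) ∧ G.IsBipartite ∧ G.girth = bb n := by
  have hne : (SB n).Nonempty := by
    by_contra hcon
    rw [Set.not_nonempty_iff_eq_empty] at hcon
    have := bb_four hn h6
    unfold bb at this
    rw [hcon, csSup_empty] at this
    simp at this
  exact Nat.sSup_mem hne (SB_bdd n)

theorem bb_succ_le {n : ℕ} (hn : Even n) (h6 : 6 ≤ n) : bb (n + 2) ≤ bb n + 2 := by
  obtain ⟨m, hm⟩ := hn
  have e : n = 2 * m := by omega
  subst e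
  obtain ⟨G, h3, hb, hg⟩ := bb_mem (n := 2 * m + 2) ⟨m + 1, by ring⟩ (by omega)
  obtain ⟨H, h3', hb', hg'⟩ := exists_minus_two (by omega) G h3 hb
  have := le_bb H h3' hb'
  omega

theorem le_bb_succ {n ρ : ℕ} (hn : Even n) (h6 : 6 ≤ n) (hρ : 2 * ρ + 4 ≤ bb n) :
    min (2 ^ (ρ + 2)) (bb n - 2 * ρ) ≤ bb (n + 2) := by
  obtain ⟨G, h3, hb, hg⟩ := bb_mem hn h6
  have h1 : Good (bb n) n := by
    rw [← hg]
    exact good_of_graph G h3 hb le_rfl
  have h4 : 4 ≤ 2 ^ (ρ + 2) := by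
    calc 4 = 2 ^ 2 := by norm_num
      _ ≤ 2 ^ (ρ + 2) := Nat.pow_le_pow_right (by norm_num) (by omega)
  have h2 : Good (min (2 ^ (ρ + 2)) (bb n - 2 * ρ)) (n + 2) :=
    good_insert h1 (by omega) hρ (min_le_left _ _)
      (by have := min_le_right (2 ^ (ρ + 2)) (bb n - 2 * ρ); omega)
      (by rw [le_min_iff]; omega)
  obtain ⟨m, rfl⟩ := hn
  have e : m + m + 2 = 2 * (m + 1) := by ring
  rw [e] at h2 ⊢
  obtain ⟨H, _, h3', hb', hg'⟩ := h2.graph (by rw [le_min_iff]; omega) (by omega)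
  exact hg'.trans (le_bb H h3' hb')

theorem two_clog_le {g : ℕ} (hg : 8 ≤ g) : 2 * Nat.clog 2 g ≤ g := by
  have h : g ≤ 2 ^ (g / 2) := by
    obtain ⟨k, hk⟩ : ∃ k, g / 2 = k := ⟨_, rfl⟩
    rw [hk]
    have h1 : g ≤ 2 * k + 1 := by omega
    have h2 : ∀ k, 4 ≤ k → 2 * k + 1 ≤ 2 ^ k := by
      intro k hk
      induction k, hk using Nat.le_induction with
      | base => norm_num
      | succ k hk ih => rw [pow_succ]; omega
    exact h1.trans (h2 k (by omega))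
  have h2 := (Nat.clog_le_iff_le_pow (b := 2) (by norm_num)).mpr h
  omega

theorem bb_low {n : ℕ} (hn : Even n) (h6 : 6 ≤ n) :
    (bb n : ℝ) - 2 * Real.logb 2 (bb n) + 2 ≤ bb (n + 2) := by
  have h4 := bb_four hn h6
  have h4r : (4 : ℝ) ≤ bb n := by exact_mod_cast h4
  have h4' := bb_four (n := n + 2) (by obtain ⟨m, rfl⟩ := hn; exact ⟨m + 1, by ring⟩) (by omega)
  have h4'r : (4 : ℝ) ≤ bb (n + 2) := by exact_mod_cast h4'
  have hl4 : (2 : ℝ) ≤ Real.logb 2 (bb n) := by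
    rw [Real.le_logb_iff_rpow_le (by norm_num) (by linarith)]
    norm_num
    exact_mod_cast h4
  rcases Nat.lt_or_ge (bb n) 8 with h8 | h8
  · have h9 : (bb n : ℝ) ≤ 7 := by exact_mod_cast (show bb n ≤ 7 by omega)
    rcases Nat.lt_or_ge (bb n) 7 with h7 | h7
    · have : (bb n : ℝ) ≤ 6 := by exact_mod_cast (show bb n ≤ 6 by omega)
      linarith
    · have h7' : (7 : ℝ) ≤ bb n := by exact_mod_cast h7
      have : (2.5 : ℝ) ≤ Real.logb 2 (bb n) := by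
        rw [Real.le_logb_iff_rpow_le (by norm_num) (by linarith)]
        have h10 : (2 : ℝ) ^ (2.5 : ℝ) ≤ 7 := by
          have : ((2 : ℝ) ^ (2.5 : ℝ)) ^ 2 ≤ 7 ^ 2 := by
            rw [← Real.rpow_natCast, ← Real.rpow_mul (by norm_num)]
            norm_num
          nlinarith [Real.rpow_nonneg (show (0 : ℝ) ≤ 2 by norm_num) 2.5]
        linarith
      linarith
  · have h1 := two_clog_le h8
    have h2 : bb n ≤ 2 ^ Nat.clog 2 (bb n) := Nat.le_pow_clog (by norm_num) _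
    have h3 : 3 ≤ Nat.clog 2 (bb n) := by
      by_contra hcon
      have : 2 ^ Nat.clog 2 (bb n) ≤ 2 ^ 2 := Nat.pow_le_pow_right (by norm_num) (by omega)
      omega
    have h5 := le_bb_succ (ρ := Nat.clog 2 (bb n) - 2) hn h6 (by omega)
    rw [show Nat.clog 2 (bb n) - 2 + 2 = Nat.clog 2 (bb n) by omega] at h5
    rw [min_eq_right (by omega)] at h5
    have h7 : bb n + 4 ≤ bb (n + 2) + 2 * Nat.clog 2 (bb n) := by omega
    have h8' : ((bb n + 4 : ℕ) : ℝ) ≤ ((bb (n + 2) + 2 * Nat.clog 2 (bb n) : ℕ) : ℝ) := by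
      exact_mod_cast h7
    push_cast at h8'
    have h9 : (Nat.clog 2 (bb n) : ℝ) ≤ Real.logb 2 (bb n) + 1 := by
      have h10 : 2 ^ (Nat.clog 2 (bb n) - 1) < bb n := Nat.pow_pred_clog_lt_self (by norm_num) (by omega)
      have h11 : ((Nat.clog 2 (bb n) - 1 : ℕ) : ℝ) ≤ Real.logb 2 (bb n) := by
        rw [Real.le_logb_iff_rpow_le (by norm_num) (by linarith), Real.rpow_natCast]
        exact_mod_cast h10.le
      rw [Nat.cast_sub (by omega)] at h11
      push_cast at h11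
      linarith
    linarith

end H85S
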