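import Pool.Agent.H85S.Remove

/-! choosing separated edges greedily; the smoothing lemma for `Good` -/

namespace H85S

open H25G

variable {X : Type*}

section

variable [DecidableEq X]

/-- endpoints of the reduced words of length `≤ r` not starting with `c` -/
def T (C : Col X) : ℕ → Fin 3 → X → Finset X
  | 0, _, x => {x}
  | r + 1, c, x => insert x ((Finset.univ.filter (fun i => i ≠ c)).biUnion
      fun i => T C r i (C.ι i x))

theorem card_filter_ne (c : Fin 3) : (Finset.univ.filter (fun i : Fin 3 => i ≠ c)).card = 2 := by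
  revert c; decide

theorem T_card (C : Col X) (r : ℕ) (c : Fin 3) (x : X) : (T C r c x).card + 1 ≤ 2 ^ (r + 1) := by
  induction r generalizing c x with
  | zero => simp [T]
  | succ r ih =>
    rw [T]
    have h1 := Finset.card_insert_le x ((Finset.univ.filter (fun i => i ≠ c)).biUnion
      fun i => T C r i (C.ι i x))
    have h2 : ((Finset.univ.filter (fun i => i ≠ c)).biUnion
      fun i => T C r i (C.ι i x)).card ≤ (Finset.univ.filter (fun i : Fin 3 => i ≠ c)).card *
        (2 ^ (r + 1) - 1) := by
      apply Finset.card_biUnion_le_card_mul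
      intro i _
      have := ih i (C.ι i x)
      omega
    have h3 : (Finset.univ.filter (fun i : Fin 3 => i ≠ c)).card = 2 := card_filter_ne c
    rw [h3] at h2
    have h4 : 2 ^ (r + 1 + 1) = 2 * 2 ^ (r + 1) := by ring
    have h5 : 1 ≤ 2 ^ (r + 1) := Nat.one_le_two_pow
    omega

theorem self_mem_T (C : Col X) (r : ℕ) (c : Fin 3) (x : X) : x ∈ T C r c x := by
  cases r with
  | zero => simp [T]
  | succ r => simp [T]

theorem mem_T (C : Col X) (w : List (Fin 3)) (hw : Red w) : ∀ (r : ℕ) (c : Fin 3) (x : X),
    w.head? ≠ some c → w.length ≤ r → C.act w x ∈ T C r c x := by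
  induction w with
  | nil => intro r c x _ _; exact self_mem_T C r c x
  | cons i w ih =>
    intro r c x hc hl
    cases r with
    | zero => simp at hl
    | succ r =>
      unfold Red at hw
      rw [List.isChain_cons] at hw
      rw [T, Finset.mem_insert, Finset.mem_biUnion]
      right
      refine ⟨i, ?_, ?_⟩
      · simp at hc ⊢
        exact hc
      · rw [Col.act_cons]
        apply ih hw.2 r i
        · intro h
          exact hw.1 i (by rw [h]; simp) rfl
        · simpa using hl

/-- vertices that may not be chosen once `u` has been chosen -/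
def forb (C : Col X) (R : ℕ) (u : X) : Finset X :=
  (T C R 0 u ∪ T C R 0 (C.ι 0 u)).image (fun t => if C.side t then C.ι 0 t else t)

theorem forb_card (C : Col X) (R : ℕ) (u : X) : (forb C R u).card ≤ 2 ^ (R + 2) := by
  unfold forb
  refine Finset.card_image_le.trans ((Finset.card_union_le _ _).trans ?_)
  have h1 := T_card C R 0 u
  have h2 := T_card C R 0 (C.ι 0 u)
  have h3 : 2 ^ (R + 2) = 2 * 2 ^ (R + 1) := by ring
  omega

theorem mem_forb (C : Col X) {R : ℕ} {u v e : X} (he : e = u ∨ e = C.ι 0 u)
    (hv : C.side v = false) (w : List (Fin 3)) (hw : Red w) (h0 : w.head? ≠ some 0)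
    (hl : w.length ≤ R) (hact : C.act w e = v ∨ C.act w e = C.ι 0 v) : v ∈ forb C R u := by
  unfold forb
  rw [Finset.mem_image]
  refine ⟨C.act w e, ?_, ?_⟩
  · rw [Finset.mem_union]
    rcases he with rfl | rfl
    · left; exact mem_T C w hw R 0 _ h0 hl
    · right; exact mem_T C w hw R 0 _ h0 hl
  · rcases hact with h | h
    · rw [h, hv]; simp
    · rw [h, C.side_ι, hv]; simp [C.invol]

/-- the same with the two ends exchanged -/
theorem mem_forb' (C : Col X) {R : ℕ} {u v e : X} (he : e = v ∨ e = C.ι 0 v)
    (hv : C.side v = false) (w : List (Fin 3)) (hw : Red w) (h0 : w.head? ≠ some 0)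
    (hl : w.length ≤ R) (hact : C.act w e = u ∨ C.act w e = C.ι 0 u) : v ∈ forb C R u := by
  rcases List.eq_nil_or_concat w with h | ⟨w1, l, h⟩
  · subst h
    rw [Col.act_nil] at hact
    exact mem_forb C hact hv [] List.isChain_nil (by simp) (by simp) (by simpa using he)
  · rw [List.concat_eq_append] at h
    subst h
    by_cases hl0 : l = 0
    · subst hl0
      have hr1 : Red w1 := hw.of_eq [] w1 [0] (by simp)
      have e1 : C.act w1 e = u ∨ C.act w1 e = C.ι 0 u := by
        rw [Col.act_append, Col.act_cons, Col.act_nil] at hact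
        rcases hact with h | h
        · right; rw [← h, C.invol]
        · left
          have := congrArg (C.ι 0) h
          rwa [C.invol, C.invol] at this
      refine mem_forb C e1 hv w1.reverse ?_ ?_ (by simp at hl ⊢; omega) ?_
      · unfold Red at hr1 ⊢
        rw [List.isChain_reverse]
        exact hr1.imp fun _ _ h => h.symm
      · rw [List.head?_reverse]
        intro h
        unfold Red at hw
        rw [List.isChain_append] at hw
        exact hw.2.2 0 h 0 (by simp) rfl
      · rw [Col.act_reverse]
        exact he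
    · refine mem_forb C (w := (w1 ++ [l]).reverse) hact hv ?_ ?_ (by simpa using hl) ?_
      · unfold Red at hw ⊢
        rw [List.isChain_reverse]
        exact hw.imp fun _ _ h => h.symm
      · simpa using hl0
      · rw [Col.act_reverse]
        exact he

end

theorem side_card (C : Col X) [Finite X] : 2 * {x | C.side x = false}.ncard = Nat.card X := by
  have h1 : {x | C.side x = false}ᶜ = C.ι 0 '' {x | C.side x = false} := by
    ext x
    simp only [Set.mem_compl_iff, Set.mem_setOf_eq, Set.mem_image]
    constructor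
    · intro h
      refine ⟨C.ι 0 x, ?_, C.invol 0 x⟩
      rw [C.side_ι]
      simpa using h
    · rintro ⟨y, hy, rfl⟩
      rw [C.side_ι, hy]
      simp
  have hinj : Function.Injective (C.ι 0) := fun a b h => by
    rw [← C.invol 0 a, h, C.invol]
  have h2 := Set.ncard_add_ncard_compl {x | C.side x = false}
  rw [h1, Set.ncard_image_of_injective _ hinj] at h2
  omega

theorem exists_sep (C : Col X) [Finite X] (R : ℕ) (h : ℕ) (hh : h * 2 ^ (R + 3) ≤ Nat.card X) :
    ∃ S : Set X, S.ncard = h ∧ Sep C R S := by
  classical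
  induction h with
  | zero => exact ⟨∅, by simp, fun u hu => absurd hu (by simp)⟩
  | succ h ih =>
    have h8 : 0 < 2 ^ (R + 3) := by positivity
    obtain ⟨S, hS1, hS2⟩ := ih (by rw [Nat.succ_mul] at hh; omega)
    have hfin : S.Finite := Set.toFinite S
    -- the forbidden set
    set F := hfin.toFinset.biUnion (forb C R) with hF
    have hFc : F.card ≤ h * 2 ^ (R + 2) := by
      have := Finset.card_biUnion_le_card_mul hfin.toFinset (forb C R) _
        (fun u _ => forb_card C R u)
      rwa [← Set.ncard_eq_toFinset_card S hfin, hS1] at this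
    have hsc := side_card C
    have hlt : (F : Set X).ncard < {x | C.side x = false}.ncard := by
      rw [Set.ncard_coe_finset]
      have e1 : 2 ^ (R + 3) = 2 * 2 ^ (R + 2) := by ring
      rw [Nat.succ_mul, e1] at hh
      have : h * (2 * 2 ^ (R + 2)) = 2 * (h * 2 ^ (R + 2)) := by ring
      have h9 : 0 < 2 ^ (R + 2) := by positivity
      omega
    obtain ⟨v, hv, hvF⟩ := Set.exists_mem_notMem_of_ncard_lt_ncard hlt
    have hv' : C.side v = false := hv
    have hvF' : ∀ u ∈ S, v ∉ forb C R u := by
      intro u hu h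
      apply hvF
      rw [hF]
      simp only [Finset.coe_biUnion, Set.mem_iUnion]
      exact ⟨u, by simpa using hu, h⟩
    have hvS : v ∉ S := by
      intro h
      exact hvF' v h (mem_forb C (Or.inl rfl) hv' [] List.isChain_nil (by simp) (by simp)
        (Or.inl rfl))
    refine ⟨insert v S, by rw [Set.ncard_insert_of_notMem hvS hfin, hS1], ?_⟩
    intro u hu
    rcases hu with rfl | hu
    · refine ⟨hv', ?_⟩
      intro u' hu' hne e he w hw h0 hl
      rcases hu' with rfl | hu'
      · exact absurd rfl hne
      · constructor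
        · intro h
          exact hvF' u' hu' (mem_forb' C he hv' w hw h0 hl (Or.inl h))
        · intro h
          exact hvF' u' hu' (mem_forb' C he hv' w hw h0 hl (Or.inr h))
    · refine ⟨(hS2 u hu).1, ?_⟩
      intro u' hu' hne e he w hw h0 hl
      rcases hu' with rfl | hu'
      · constructor
        · intro h
          exact hvF' u hu (mem_forb C he hv' w hw h0 hl (Or.inl h))
        · intro h
          exact hvF' u hu (mem_forb C he hv' w hw h0 hl (Or.inr h))
      · exact (hS2 u hu).2 u' hu' hne e he w hw h0 hl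

theorem bad_card (C : Col X) [Finite X] {R : ℕ} {S : Set X} (hS : Sep C R S) :
    {z | bad C S z}.ncard = 2 * S.ncard := by
  have hinj : Function.Injective (C.ι 0) := fun a b h => by
    rw [← C.invol 0 a, h, C.invol]
  have h1 : {z | bad C S z} = S ∪ C.ι 0 '' S := by
    ext z
    simp only [bad, Set.mem_setOf_eq, Set.mem_union, Set.mem_image]
    constructor
    · rintro (h | h)
      · exact Or.inl h
      · exact Or.inr ⟨_, h, C.invol 0 z⟩
    · rintro (h | ⟨y, hy, rfl⟩)
      · exact Or.inl h
      · right; rwa [C.invol]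
  rw [h1, Set.ncard_union_eq _ (Set.toFinite _) (Set.toFinite _),
    Set.ncard_image_of_injective _ hinj]
  · ring
  · rw [Set.disjoint_left]
    rintro z hz ⟨y, hy, rfl⟩
    have e1 := (hS _ hz).1
    rw [C.side_ι, (hS _ hy).1] at e1
    simp at e1

/-- removal of `2h` vertices -/
theorem good_remove {R g g' M h : ℕ} (hM : Good g M) (hR : 1 ≤ R) (hRg : R + 2 ≤ g)
    (hg' : ∀ l, R * g ≤ (R + 2) * l → g' ≤ l) (hh : h * 2 ^ (R + 3) ≤ M) :
    Good g' (M - 2 * h) := by
  obtain ⟨X, _, C, rfl, hC⟩ := hM
  obtain ⟨S, hS1, hS2⟩ := exists_sep C R h hh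
  have hok := hS2.ok hR hC (by omega)
  refine ⟨{z // ¬ bad C S z}, inferInstance, rem C S hok, ?_, rem_girth hok hS2 hC hRg hg'⟩
  have h1 := bad_card C hS2
  have h2 := Set.ncard_add_ncard_compl {z | bad C S z}
  have h3 : Nat.card {z // ¬ bad C S z} = {z | bad C S z}ᶜ.ncard := by
    rw [← Nat.card_coe_set_eq]
    rfl
  rw [h3]
  omega

/-- smoothing: every even `N ≥ 2 ^ (R + 2) * n` -/
theorem good_smooth {R g g' n N : ℕ} (hn : Good g n) (hn0 : 0 < n) (hn2 : n % 2 = 0)
    (hR : 1 ≤ R) (hRg : R + 2 ≤ g) (hg' : ∀ l, R * g ≤ (R + 2) * l → g' ≤ l) (hN2 : N % 2 = 0)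
    (hN : 2 ^ (R + 2) * n ≤ N) : Good g' N := by
  set k := (N + n - 1) / n with hk
  have h1 : N ≤ k * n := by
    have h2 := Nat.div_add_mod' (N + n - 1) n
    have h3 := Nat.mod_lt (N + n - 1) hn0
    rw [← hk] at h2
    omega
  have h2 : k * n < N + n := by
    have h2 := Nat.div_mul_le_self (N + n - 1) n
    rw [← hk] at h2
    omega
  have h3 : (k * n) % 2 = 0 := by
    rw [Nat.mul_mod, hn2]
    simp
  obtain ⟨h, hh⟩ : ∃ h, k * n - N = 2 * h := ⟨(k * n - N) / 2, by omega⟩
  have h4 : N = k * n - 2 * h := by omega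
  rw [h4]
  apply good_remove (hn.mul k) hR hRg hg'
  have h5 : 2 ^ (R + 2) * (2 * h) ≤ 2 ^ (R + 2) * n := Nat.mul_le_mul_left _ (by omega)
  have h6 : h * 2 ^ (R + 3) = 2 ^ (R + 2) * (2 * h) := by ring
  omega

end H85S
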