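import Pool.Agent.H85S.Schnir
import Pool.Agent.H85S.Greedy
import Pool.Agent.H25G.Final
import Pool.Agent.CopelandErdos.Cheb
import Pool.Agent.CopelandErdos.BT

/-! all orders with a bounded error -/

namespace H85S

open H25G Finset

/-- order of the graph of the prime `q` -/
def vq (q : ℕ) : ℕ := 2 * (q * (q ^ 2 - 1))

/-- primes with `2w + 1` digits -/
def PP (w : ℕ) : Finset ℕ := (Ico (10 ^ (2 * w)) (10 ^ (2 * w + 1))).filter Nat.Prime

/-- their orders, in units of `10 ^ (5 w)` -/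
def AA (w : ℕ) : Finset ℕ := (PP w).image (fun q => vq q / 10 ^ (5 * w))

theorem vq_cast {q : ℕ} (hq : 1 ≤ q) : (vq q : ℤ) = 2 * (q ^ 3 - q) := by
  unfold vq
  have : 1 ≤ q ^ 2 := Nat.one_le_pow _ _ hq
  push_cast [Nat.cast_sub this]
  ring

theorem vq_diff {X q q' : ℕ} (hX : 1 ≤ X) (hq : X ≤ q) (hqq : q ≤ q') :
    vq q + (q' - q) * X ^ 2 ≤ vq q' := by
  have h1 := vq_cast (show 1 ≤ q by omega)
  have h2 := vq_cast (show 1 ≤ q' by omega)
  have h3 : ((vq q + (q' - q) * X ^ 2 : ℕ) : ℤ) ≤ (vq q' : ℤ) := by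
    push_cast [Nat.cast_sub hqq]
    rw [h1, h2]
    have e1 : (1 : ℤ) ≤ X := by exact_mod_cast hX
    have e2 : (X : ℤ) ≤ q := by exact_mod_cast hq
    have e3 : (q : ℤ) ≤ q' := by exact_mod_cast hqq
    have e4 : (X : ℤ) ^ 2 + 2 ≤ 2 * (q' ^ 2 + q' * q + q ^ 2) := by
      have h5 : (X : ℤ) ^ 2 ≤ q ^ 2 := pow_le_pow_left₀ (by omega) e2 2
      have h6 : (1 : ℤ) ≤ q' ^ 2 := by nlinarith
      have h7 : (0 : ℤ) ≤ q' * q := by positivity
      have h8 : (0 : ℤ) ≤ q ^ 2 := by positivity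
      linarith
    have e5 : (0 : ℤ) ≤ q' - q := by linarith
    nlinarith [mul_le_mul_of_nonneg_left e4 e5]
  exact_mod_cast h3

theorem vq_lower {X q : ℕ} (hX : 2 ≤ X) (hq : X ≤ q) : X ^ 3 ≤ vq q := by
  have h1 : X ^ 3 ≤ vq X := by
    have h2 := vq_cast (show 1 ≤ X by omega)
    have h3 : ((X ^ 3 : ℕ) : ℤ) ≤ (vq X : ℤ) := by
      rw [h2]
      push_cast
      have e1 : (2 : ℤ) ≤ X := by exact_mod_cast hX
      nlinarith [mul_le_mul e1 e1 (by norm_num) (by linarith), sq_nonneg ((X : ℤ) - 2)]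
    exact_mod_cast h3
  have h2 := vq_diff (show 1 ≤ X by omega) le_rfl hq
  omega

theorem vq_upper (q : ℕ) : vq q ≤ 2 * q ^ 3 := by
  unfold vq
  have : q * (q ^ 2 - 1) ≤ q * q ^ 2 := Nat.mul_le_mul_left _ (Nat.sub_le _ _)
  have e : q * q ^ 2 = q ^ 3 := by ring
  omega

theorem AA_range {w : ℕ} (hw : 1 ≤ w) : ∀ a ∈ AA w, 10 ^ w ≤ a ∧ a ≤ 2000 * 10 ^ w := by
  intro a ha
  unfold AA PP at ha
  rw [mem_image] at ha
  obtain ⟨q, hq, rfl⟩ := ha
  rw [mem_filter, mem_Ico] at hq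
  have hX2 : 2 ≤ 10 ^ (2 * w) := by
    calc 2 ≤ 10 ^ 1 := by norm_num
      _ ≤ 10 ^ (2 * w) := Nat.pow_le_pow_right (by norm_num) (by omega)
  have e1 : (10 ^ (2 * w)) ^ 3 = 10 ^ w * 10 ^ (5 * w) := by
    rw [← pow_mul, ← pow_add]
    congr 1
    ring
  constructor
  · rw [Nat.le_div_iff_mul_le (by positivity), ← e1]
    exact vq_lower hX2 hq.1.1
  · have h1 : vq q ≤ 2000 * 10 ^ w * 10 ^ (5 * w) := by
      have h2 : q ^ 3 ≤ (10 ^ (2 * w + 1)) ^ 3 := Nat.pow_le_pow_left hq.1.2.le 3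
      have h3 : (10 ^ (2 * w + 1)) ^ 3 = 1000 * (10 ^ w * 10 ^ (5 * w)) := by
        have h6 : 10 ^ (2 * w + 1) = 10 ^ (2 * w) * 10 := pow_succ _ _
        rw [h6, mul_pow, e1]
        ring
      have h4 := vq_upper q
      rw [h3] at h2
      have h5 : 2000 * 10 ^ w * 10 ^ (5 * w) = 2 * (1000 * (10 ^ w * 10 ^ (5 * w))) := by ring
      rw [h5]
      omega
    exact Nat.div_le_of_le_mul (by rw [mul_comm]; exact h1)

theorem fiber {w : ℕ} (hw : 1 ≤ w) (a : ℕ) :
    (((PP w).filter (fun q => vq q / 10 ^ (5 * w) = a)).card : ℝ) ≤ 30 * 10 ^ w / w := by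
  set F := (PP w).filter (fun q => vq q / 10 ^ (5 * w) = a) with hF
  rcases F.eq_empty_or_nonempty with h | hne
  · rw [h, card_empty, Nat.cast_zero]
    positivity
  · set q0 := F.min' hne with hq0
    have h0 : q0 ∈ F := min'_mem _ _
    refine le_trans ?_ (Pool.Agent.CopelandErdos.primes_in_progression q0 0 w hw)
    have : F.card ≤ ((range (10 ^ w)).filter
        (fun k => (q0 + 10 ^ 0 * k).Prime ∧ 10 ^ w < q0 + 10 ^ 0 * k)).card := by
      apply card_le_card_of_injOn (fun q => q - q0)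
      · intro q hq
        rw [mem_coe] at hq
        have hle : q0 ≤ q := min'_le _ _ hq
        rw [hF, mem_filter, PP, mem_filter, mem_Ico] at hq h0
        rw [mem_coe, mem_filter, mem_range]
        dsimp only
        have e1 : q0 + 10 ^ 0 * (q - q0) = q := by rw [pow_zero, one_mul]; omega
        rw [e1]
        refine ⟨?_, hq.1.2, ?_⟩
        · have h1 := vq_diff (show 1 ≤ 10 ^ (2 * w) from Nat.one_le_pow _ _ (by norm_num))
            h0.1.1.1 hle
          have h2 : vq q < (a + 1) * 10 ^ (5 * w) := by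
            apply (Nat.div_lt_iff_lt_mul (by positivity)).mp
            rw [hq.2]
            omega
          have h3 : a * 10 ^ (5 * w) ≤ vq q0 := by
            rw [← h0.2]
            exact Nat.div_mul_le_self _ _
          have h4 : (q - q0) * (10 ^ (2 * w)) ^ 2 < 10 ^ (5 * w) := by
            have : (a + 1) * 10 ^ (5 * w) = a * 10 ^ (5 * w) + 10 ^ (5 * w) := by ring
            omega
          have h5 : 10 ^ (5 * w) = 10 ^ w * (10 ^ (2 * w)) ^ 2 := by
            rw [← pow_mul, ← pow_add]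
            congr 1
            ring
          rw [h5] at h4
          exact Nat.lt_of_mul_lt_mul_right h4
        · calc 10 ^ w < 10 ^ (2 * w) := Nat.pow_lt_pow_right (by norm_num) (by omega)
            _ ≤ q := hq.1.1.1
      · intro q hq q' hq' h
        rw [mem_coe] at hq hq'
        have hle : q0 ≤ q := min'_le _ _ hq
        have hle' : q0 ≤ q' := min'_le _ _ hq'
        dsimp only at h
        omega
    exact_mod_cast this

theorem AA_card {w : ℕ} (hw : 5 ≤ w) : 10 ^ w ≤ 90 * (AA w).card := by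
  have h1 := Pool.Agent.CopelandErdos.card_primes_digits (ℓ := 2 * w) (by omega)
  have hP : ((Ico (10 ^ (2 * w)) (10 ^ (2 * w + 1))).filter Nat.Prime) = PP w := rfl
  rw [hP] at h1
  set n := ⌊(30 : ℝ) * 10 ^ w / w⌋₊ with hn
  have hwr : (5 : ℝ) ≤ w := by exact_mod_cast hw
  have h2 : (PP w).card ≤ n * (AA w).card := by
    apply card_le_mul_card_image
    intro a _
    rw [hn]
    apply Nat.le_floor
    exact fiber (by omega) a
  have h3 : ((PP w).card : ℝ) ≤ n * (AA w).card := by exact_mod_cast h2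
  have h4 : (n : ℝ) ≤ 30 * 10 ^ w / w := Nat.floor_le (by positivity)
  have h5 : ((PP w).card : ℝ) ≤ 30 * 10 ^ w / w * (AA w).card :=
    h3.trans (mul_le_mul_of_nonneg_right h4 (by positivity))
  have h6 : (10 : ℝ) ^ (2 * w + 1) / (10 * (((2 * w : ℕ) : ℝ) + 1)) = 10 ^ w * 10 ^ w / (2 * w + 1) := by
    push_cast
    rw [pow_succ, two_mul, pow_add]
    field_simp
  rw [h6] at h1
  have h7 := h1.trans h5
  rw [div_le_iff₀ (by positivity)] at h7
  have hpos : (0 : ℝ) < 10 ^ w := by positivity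
  have h8 : (10 : ℝ) ^ w * 10 ^ w ≤ 10 ^ w * (90 * (AA w).card) := by
    refine h7.trans ?_
    have h9 : 30 * (10 : ℝ) ^ w / w * (AA w).card * (2 * w + 1) =
        10 ^ w * (30 * ((2 * w + 1) / w) * (AA w).card) := by
      field_simp
    rw [h9]
    apply mul_le_mul_of_nonneg_left _ hpos.le
    apply mul_le_mul_of_nonneg_right _ (by positivity)
    have : (2 * (w : ℝ) + 1) / w ≤ 3 := by
      rw [div_le_iff₀ (by linarith)]
      linarith
    linarith
  have h9 := le_of_mul_le_mul_left h8 hpos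
  exact_mod_cast h9

theorem good_list {g : ℕ} (l : List ℕ) (h : ∀ x ∈ l, Good g x) : Good g l.sum := by
  induction l with
  | nil => exact Good.zero g
  | cons a l ih =>
    rw [List.sum_cons]
    exact (h a (by simp)).add (ih fun x hx => h x (List.mem_cons_of_mem _ hx))

/-- the girth obtained from the primes with `2w + 1` digits -/
theorem good_vq {w q : ℕ} (hw : 1 ≤ w) (hq : q ∈ PP w) :
    Good (2 * (Nat.log 2 (10 ^ (4 * w)) - 2)) (vq q) := by
  rw [PP, mem_filter, mem_Ico] at hq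
  set e := Nat.log 2 (10 ^ (4 * w)) with he
  have h1 : 2 ^ e ≤ 10 ^ (4 * w) := Nat.pow_log_le_self 2 (by positivity)
  have h2 : 10 ^ (4 * w) ≤ q ^ 2 := by
    have : 10 ^ (4 * w) = (10 ^ (2 * w)) ^ 2 := by
      rw [← pow_mul]
      congr 1
      ring
    rw [this]
    exact Nat.pow_le_pow_left hq.1.1 2
  have h4 : 3 ≤ e := by
    rw [he]
    apply (Nat.le_log_iff_pow_le (by norm_num) (by positivity)).mpr
    calc 2 ^ 3 ≤ 10 ^ 1 := by norm_num
      _ ≤ 10 ^ (4 * w) := Nat.pow_le_pow_right (by norm_num) (by omega)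
  have h5 : 10 ≤ q := by
    calc 10 = 10 ^ 1 := by norm_num
      _ ≤ 10 ^ (2 * w) := Nat.pow_le_pow_right (by norm_num) (by omega)
      _ ≤ q := hq.1.1
  apply good_prime hq.2 (by omega)
  calc 2 ^ (e - 2 + 1) < 2 ^ e := Nat.pow_lt_pow_right (by norm_num) (by omega)
    _ ≤ q ^ 2 := h1.trans h2

end H85S
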