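import Pool.Agent.H85S.Port
import Pool.Agent.H25G.Cay

/-!
Replacing a ball around an edge of a three-edge-coloured cubic bipartite graph by a cycle with the
same number of outgoing edges: the new graph has exactly two more vertices.
-/

namespace H85S

open H25G

/-! ### words from bits -/

/-- the reduced word, not starting with `c`, given by bits -/
def wd : Fin 3 → List Bool → List (Fin 3)
  | _, [] => []
  | c, b :: s => (c + if b then 1 else 2) :: wd (c + if b then 1 else 2) s

theorem wd_length (s : List Bool) : ∀ c, (wd c s).length = s.length := by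
  induction s with
  | nil => intro c; rfl
  | cons b s ih => intro c; simp [wd, ih]

theorem add_ne (c : Fin 3) (b : Bool) : (c + if b then 1 else 2) ≠ c := by
  revert c b; decide

theorem wd_head (s : List Bool) (c : Fin 3) : ∀ y ∈ (wd c s).head?, y ≠ c := by
  cases s with
  | nil => simp [wd]
  | cons b s =>
    intro y hy
    simp only [wd, List.head?_cons, Option.mem_def, Option.some.injEq] at hy
    rw [← hy]
    exact add_ne c b

theorem wd_red (s : List Bool) : ∀ c, Red (wd c s) := by
  induction s with
  | nil => intro c; exact List.isChain_nil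
  | cons b s ih =>
    intro c
    have h := ih (c + if b then 1 else 2)
    unfold Red at h ⊢
    rw [wd, List.isChain_cons]
    exact ⟨fun y hy => (wd_head s _ y hy).symm, h⟩

theorem exists_bit (c i : Fin 3) (h : i ≠ c) : ∃ b : Bool, (c + if b then 1 else 2) = i := by
  revert c i; decide

theorem wd_surj (w : List (Fin 3)) : ∀ c, Red w → (∀ y ∈ w.head?, y ≠ c) → ∃ s, wd c s = w := by
  induction w with
  | nil => intro c _ _; exact ⟨[], rfl⟩
  | cons i w ih =>
    intro c hr hc
    unfold Red at hr
    rw [List.isChain_cons] at hr
    obtain ⟨b, hb⟩ := exists_bit c i (hc i (by simp))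
    obtain ⟨s, hs⟩ := ih i hr.2 (fun y hy => (hr.1 y hy).symm)
    refine ⟨b :: s, ?_⟩
    rw [wd, hb, hs]

theorem bit_inj (c : Fin 3) (b b' : Bool) (h : (c + if b then 1 else 2) = (c + if b' then 1 else 2)) :
    b = b' := by
  revert c b b'; decide

theorem wd_inj (s : List Bool) : ∀ t c, wd c s = wd c t → s = t := by
  induction s with
  | nil =>
    intro t c h
    cases t with
    | nil => rfl
    | cons b t => simp [wd] at h
  | cons b s ih =>
    intro t c h
    cases t with
    | nil => simp [wd] at h
    | cons b' t =>
      rw [wd, wd, List.cons.injEq] at h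
      have hb := bit_inj c b b' h.1
      subst hb
      rw [ih t _ h.2]

/-- last letter -/
def lst (s : List Bool) : Fin 3 := ((wd 0 s).getLast?).getD 0

theorem wd_split {s : List Bool} (hs : s ≠ []) :
    ∃ s1, wd 0 s = wd 0 s1 ++ [lst s] ∧ s.length = s1.length + 1 := by
  have hne : wd 0 s ≠ [] := by
    intro h
    have := wd_length s 0
    rw [h] at this
    simp at this
    exact hs (List.length_eq_zero_iff.mp this.symm)
  obtain ⟨w1, i, h⟩ : ∃ w1 i, wd 0 s = w1 ++ [i] := by
    rcases List.eq_nil_or_concat (wd 0 s) with h | ⟨w1, i, h⟩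
    · exact absurd h hne
    · exact ⟨w1, i, by rw [h, List.concat_eq_append]⟩
  have hi : lst s = i := by
    unfold lst
    rw [h]
    simp
  have hr := wd_red s 0
  rw [h] at hr
  have hr1 : Red w1 := hr.of_eq [] w1 [i] (by simp)
  obtain ⟨s1, hs1⟩ := wd_surj w1 0 hr1 (by
    intro y hy
    apply wd_head s 0 y
    rw [h]
    cases w1 with
    | nil => simp at hy
    | cons a w1 => simpa using hy)
  refine ⟨s1, by rw [hs1, hi, h], ?_⟩
  have h1 := wd_length s 0
  rw [h] at h1
  have h2 := wd_length s1 0
  rw [hs1] at h2
  simp at h1
  omega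

/-! ### uniqueness -/

section

variable {X : Type*} (C : Col X) {g : ℕ} (hg : C.Girth g)

theorem red_append_reverse {w w' : List (Fin 3)} (h1 : Red w) (h2 : Red w')
    (h3 : ∀ x ∈ w.getLast?, ∀ y ∈ w'.getLast?, x ≠ y) : Red (w ++ w'.reverse) := by
  unfold Red at h1 h2 ⊢
  rw [List.isChain_append, List.isChain_reverse, List.head?_reverse]
  exact ⟨h1, h2.imp fun _ _ h => h.symm, h3⟩

include hg in
theorem uniq (x0 : X) (w : List (Fin 3)) : ∀ (w' : List (Fin 3)) (a a' : X),
    (a = x0 ∨ a = C.ι 0 x0) → (a' = x0 ∨ a' = C.ι 0 x0) → Red w → Red w' →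
    (∀ y ∈ w.head?, y ≠ 0) → (∀ y ∈ w'.head?, y ≠ 0) → w.length + w'.length + 1 < g →
    C.act w a = C.act w' a' → w = w' ∧ a = a' := by
  -- the case where no common last letter can be removed
  have key : ∀ (w w' : List (Fin 3)) (a a' : X),
      (a = x0 ∨ a = C.ι 0 x0) → (a' = x0 ∨ a' = C.ι 0 x0) → Red w → Red w' →
      (∀ y ∈ w.head?, y ≠ 0) → (∀ y ∈ w'.head?, y ≠ 0) → w.length + w'.length + 1 < g →
      C.act w a = C.act w' a' → (∀ x ∈ w.getLast?, ∀ y ∈ w'.getLast?, x ≠ y) →
      w = w' ∧ a = a' := by
    intro w w' a a' ha ha' hr hr' hh hh' hl hact hlast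
    have hU := red_append_reverse hr hr' hlast
    have hUact : C.act (w ++ w'.reverse) a = a' := by
      rw [Col.act_append, hact, Col.act_reverse]
    have hUlen : (w ++ w'.reverse).length = w.length + w'.length := by simp
    by_cases haa : a = a'
    · subst haa
      by_cases hw : w ++ w'.reverse = []
      · rw [List.append_eq_nil_iff, List.reverse_eq_nil_iff] at hw
        exact ⟨by rw [hw.1, hw.2], rfl⟩
      · exact absurd hUact (hg _ hw hU (by omega) a)
    · exfalso
      have h0 : C.ι 0 a' = a ∧ C.ι 0 a = a' := by
        rcases ha with h | h <;> rcases ha' with h' | h'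
        · exact absurd (h.trans h'.symm) haa
        · rw [h, h', C.invol]; exact ⟨rfl, rfl⟩
        · rw [h, h', C.invol]; exact ⟨rfl, rfl⟩
        · exact absurd (h.trans h'.symm) haa
      by_cases hw' : w' = []
      · subst hw'
        rw [List.reverse_nil, List.append_nil] at hU hUact
        simp at hl
        refine hg (0 :: w) (by simp) ?_ (by simp; omega) a' ?_
        · unfold Red at hU ⊢
          rw [List.isChain_cons]
          exact ⟨fun y hy => (hh y hy).symm, hU⟩
        · rw [Col.act_cons, h0.1, hUact]
      · refine hg (w ++ w'.reverse ++ [0]) (by simp) ?_ (by simp; omega) a ?_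
        · unfold Red at hU ⊢
          rw [List.isChain_append]
          refine ⟨hU, List.isChain_singleton _, ?_⟩
          intro x hx y hy
          simp only [List.head?_cons, Option.mem_def, Option.some.injEq] at hy
          subst hy
          apply hh'
          rw [List.getLast?_append, List.getLast?_reverse] at hx
          cases w' with
          | nil => exact absurd rfl hw'
          | cons b w' => simpa using hx
        · rw [Col.act_append, hUact, Col.act_cons, Col.act_nil, h0.1]
  induction w using List.reverseRecOn with
  | nil =>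
    intro w' a a' ha ha' hr hr' hh hh' hl hact
    exact key [] w' a a' ha ha' hr hr' hh hh' hl hact (by simp)
  | append_singleton w i ih =>
    intro w' a a' ha ha' hr hr' hh hh' hl hact
    rcases List.eq_nil_or_concat w' with h | ⟨w1, j, h⟩
    · subst h
      exact key _ [] a a' ha ha' hr hr' hh hh' hl hact (by simp)
    · rw [List.concat_eq_append] at h
      subst h
      by_cases hij : i = j
      · subst hij
        rw [Col.act_append, Col.act_append] at hact
        have h1 : C.act w a = C.act w1 a' := by
          have h2 := congrArg (C.ι i) hact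
          simpa only [Col.act_cons, Col.act_nil, C.invol] using h2
        have h2 := ih w1 a a' ha ha' (hr.of_eq [] w [i] (by simp))
          (hr'.of_eq [] w1 [i] (by simp))
          (by
            intro y hy
            apply hh
            cases w with
            | nil => simp at hy
            | cons b w => simpa using hy)
          (by
            intro y hy
            apply hh'
            cases w1 with
            | nil => simp at hy
            | cons b w => simpa using hy)
          (by simp at hl; omega) h1
        exact ⟨by rw [h2.1], h2.2⟩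
      · apply key _ _ a a' ha ha' hr hr' hh hh' hl hact
        intro x hx y hy
        simp at hx hy
        rw [← hx, ← hy]
        exact hij

end

section

variable {X : Type*} (C : Col X) (x0 : X)

/-- the two roots -/
def rt (e : Bool) : X := if e then C.ι 0 x0 else x0

theorem rt_or (e : Bool) : rt C x0 e = x0 ∨ rt C x0 e = C.ι 0 x0 := by
  cases e
  · left; rfl
  · right; rfl

theorem rt_not (e : Bool) : C.ι 0 (rt C x0 e) = rt C x0 (!e) := by
  cases e
  · rfl
  · exact C.invol 0 x0

theorem rt_inj {e e' : Bool} (h : rt C x0 e = rt C x0 e') : e = e' := by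
  cases e <;> cases e'
  · rfl
  · exact absurd h.symm (C.ι_ne 0 x0)
  · exact absurd h (C.ι_ne 0 x0)
  · rfl

/-- vertices of the tree -/
def vt (e : Bool) (s : List Bool) : X := C.act (wd 0 s) (rt C x0 e)

theorem vt_inj {g : ℕ} (hg : C.Girth g) {e e' : Bool} {s s' : List Bool}
    (hl : s.length + s'.length + 1 < g) (h : vt C x0 e s = vt C x0 e' s') : e = e' ∧ s = s' := by
  have := uniq C hg x0 (wd 0 s) (wd 0 s') _ _ (rt_or C x0 e) (rt_or C x0 e') (wd_red s 0)
    (wd_red s' 0) (wd_head s 0) (wd_head s' 0) (by rw [wd_length, wd_length]; exact hl) h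
  exact ⟨rt_inj C x0 this.2, wd_inj s s' 0 this.1⟩

theorem side_vt (e e' : Bool) {s s' : List Bool} (h : s.length = s'.length) :
    C.side (vt C x0 e s) = (if e = e' then C.side (vt C x0 e' s') else !C.side (vt C x0 e' s')) := by
  have h1 : C.side (rt C x0 true) = !C.side (rt C x0 false) := C.side_ι 0 x0
  unfold vt
  rw [Col.side_act, Col.side_act, wd_length, wd_length, h]
  cases e <;> cases e' <;> rcases Nat.mod_two_eq_zero_or_one s'.length with h2 | h2 <;>
    simp [h2, h1]

/-- the ball -/
def InB (ρ : ℕ) (x : X) : Prop := ∃ e s, s.length ≤ ρ ∧ vt C x0 e s = x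

theorem outer_notin {g ρ : ℕ} (hg : C.Girth g) (hρ : 2 * ρ + 4 ≤ g) (e : Bool) {s : List Bool}
    (hs : s.length = ρ + 1) : ¬ InB C x0 ρ (vt C x0 e s) := by
  rintro ⟨e', s', h1, h2⟩
  have := vt_inj C x0 hg (by omega) h2
  rw [this.2] at h1
  omega

theorem exists_pend {ρ : ℕ} {x : X} {i : Fin 3} (hx : ¬ InB C x0 ρ x)
    (h : InB C x0 ρ (C.ι i x)) : ∃ e s, s.length = ρ + 1 ∧ vt C x0 e s = x ∧ lst s = i := by
  obtain ⟨e, s, h1, h2⟩ := h
  have h3 : x = C.ι i (vt C x0 e s) := by rw [h2, C.invol]
  by_cases hs : s = []
  · subst hs
    by_cases hi : i = 0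
    · exfalso
      apply hx
      refine ⟨!e, [], by simp, ?_⟩
      rw [h3, hi]
      exact (rt_not C x0 e).symm
    · obtain ⟨s', hs'⟩ := wd_surj [i] 0 (List.isChain_singleton _) (by
        intro y hy
        simp at hy
        rw [← hy]
        exact hi)
      have hl := wd_length s' 0
      rw [hs'] at hl
      have hv : vt C x0 e s' = x := by
        unfold vt
        rw [hs', h3]
        rfl
      refine ⟨e, s', ?_, hv, ?_⟩
      · by_contra hcon
        apply hx
        refine ⟨e, s', ?_, hv⟩
        simp at hl
        omega
      · unfold lst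
        rw [hs']
        rfl
  · obtain ⟨s1, hs1, hs1l⟩ := wd_split hs
    by_cases hi : lst s = i
    · exfalso
      apply hx
      refine ⟨e, s1, by omega, ?_⟩
      rw [h3]
      unfold vt
      rw [hs1, Col.act_append, Col.act_cons, Col.act_nil, hi, C.invol]
    · have hred : Red (wd 0 s ++ [i]) := by
        have hr := wd_red s 0
        unfold Red at hr ⊢
        rw [List.isChain_append]
        refine ⟨hr, List.isChain_singleton _, ?_⟩
        intro x hx y hy
        rw [hs1] at hx
        simp at hx hy
        rw [← hx, ← hy]
        exact hi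
      obtain ⟨s', hs'⟩ := wd_surj _ 0 hred (by
        intro y hy
        apply wd_head s 0
        rw [hs1] at hy ⊢
        cases h5 : wd 0 s1 with
        | nil => rw [h5] at hy; simpa using hy
        | cons b w => rw [h5] at hy; simpa using hy)
      have hl := wd_length s' 0
      rw [hs', List.length_append, wd_length] at hl
      simp at hl
      have hv : vt C x0 e s' = x := by
        rw [h3]
        unfold vt
        rw [hs', Col.act_append]
        rfl
      refine ⟨e, s', ?_, hv, ?_⟩
      · by_contra hcon
        apply hx
        exact ⟨e, s', by omega, hv⟩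
      · unfold lst
        rw [hs']
        simp

theorem back_in {ρ : ℕ} (e : Bool) {s : List Bool} (hs : s.length = ρ + 1) :
    InB C x0 ρ (C.ι (lst s) (vt C x0 e s)) := by
  obtain ⟨s1, h1, h2⟩ := wd_split (s := s) (by rintro rfl; simp at hs)
  refine ⟨e, s1, by omega, ?_⟩
  unfold vt
  rw [h1, Col.act_append, Col.act_cons, Col.act_nil, C.invol]

open Classical in
/-- the position on the cycle of a neighbour of the ball -/
noncomputable def pend {ρ M : ℕ} (E : ZMod M ≃ {s : List Bool // s.length = ρ + 1}) (x : X) :
    ZMod M × Bool :=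
  if h : ∃ q : ZMod M × Bool, vt C x0 q.2 (E q.1) = x then h.choose else (0, false)

variable {C}

section Ins

variable {g ρ M : ℕ} (hg : C.Girth g) (hρ : 2 * ρ + 4 ≤ g)
  (E : ZMod M ≃ {s : List Bool // s.length = ρ + 1})

include hg hρ in
theorem pend_eq {x : X} {q : ZMod M × Bool} (h : vt C x0 q.2 (E q.1) = x) : pend C x0 E x = q := by
  have hex : ∃ q : ZMod M × Bool, vt C x0 q.2 (E q.1) = x := ⟨q, h⟩
  have h1 : pend C x0 E x = hex.choose := dif_pos hex
  have h2 := hex.choose_spec
  rw [← h1] at h2
  have h3 := vt_inj C x0 hg (by
    rw [(E (pend C x0 E x).1).2, (E q.1).2]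
    omega) (h2.trans h.symm)
  have h4 : (pend C x0 E x).1 = q.1 := E.injective (Subtype.ext h3.2)
  exact Prod.ext h4 h3.1

include hg hρ in
theorem pend_spec {x : X} {i : Fin 3} (hx : ¬ InB C x0 ρ x) (h : InB C x0 ρ (C.ι i x)) :
    vt C x0 (pend C x0 E x).2 (E (pend C x0 E x).1) = x ∧ lst (E (pend C x0 E x).1) = i := by
  obtain ⟨e, s, h1, h2, h3⟩ := exists_pend C x0 hx h
  have h4 : pend C x0 E x = (E.symm ⟨s, h1⟩, e) := by
    apply pend_eq x0 hg hρ
    simpa using h2
  rw [h4]
  simp [h2, h3]

open Classical in
/-- the new graph -/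
noncomputable def ins : Port ({x // ¬ InB C x0 ρ x} ⊕ (ZMod M × Bool)) where
  nb z i := match z with
    | Sum.inl x => if h : InB C x0 ρ (C.ι i x) then Sum.inr (pend C x0 E x) else Sum.inl ⟨C.ι i x, h⟩
    | Sum.inr q => if i = 0 then Sum.inl ⟨vt C x0 q.2 (E q.1), outer_notin C x0 hg hρ q.2 (E q.1).2⟩
        else if i = 1 then Sum.inr (q.1, !q.2)
        else if q.2 then Sum.inr (q.1 + 1, false) else Sum.inr (q.1 - 1, true)
  rv z i := match z with
    | Sum.inl x => if InB C x0 ρ (C.ι i x) then 0 else i
    | Sum.inr q => if i = 0 then lst (E q.1) else i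
  side z := match z with
    | Sum.inl x => C.side x
    | Sum.inr q => !C.side (vt C x0 q.2 (E q.1))
  nb_nb z i := by
    rcases z with x | q
    · by_cases h : InB C x0 ρ (C.ι i x)
      · have := pend_spec x0 hg hρ E x.2 h
        simp only [h, dif_pos, if_true]
        congr 1
        exact Subtype.ext this.1
      · have h2 : ¬ InB C x0 ρ (C.ι i (C.ι i x)) := by rw [C.invol]; exact x.2
        simp only [h, h2, dif_neg, not_false_eq_true, if_false]
        congr 1
        apply Subtype.ext
        exact C.invol i x
    · by_cases h0 : i = 0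
      · subst h0
        have h1 := back_in C x0 q.2 (E q.1).2
        simp only [if_true, h1, dif_pos]
        congr 1
        exact pend_eq x0 hg hρ E rfl
      · by_cases h1 : i = 1
        · subst h1
          simp
        · rcases q with ⟨k, e⟩
          cases e
          · simp [h0, h1]
          · simp [h0, h1]
  rv_rv z i := by
    rcases z with x | q
    · by_cases h : InB C x0 ρ (C.ι i x)
      · have := pend_spec x0 hg hρ E x.2 h
        simp only [h, dif_pos, if_true]
        exact this.2
      · have h2 : ¬ InB C x0 ρ (C.ι i (C.ι i x)) := by rw [C.invol]; exact x.2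
        simp only [h, h2, dif_neg, not_false_eq_true, if_false]
    · by_cases h0 : i = 0
      · subst h0
        have h1 := back_in C x0 q.2 (E q.1).2
        simp only [if_true, h1]
      · by_cases h1 : i = 1
        · subst h1
          simp
        · rcases q with ⟨k, e⟩
          cases e
          · simp [h0, h1]
          · simp [h0, h1]
  side_nb z i := by
    rcases z with x | q
    · by_cases h : InB C x0 ρ (C.ι i x)
      · have := pend_spec x0 hg hρ E x.2 h
        simp only [h, dif_pos]
        rw [this.1]
      · simp only [h, dif_neg, not_false_eq_true]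
        exact C.side_ι i x
    · by_cases h0 : i = 0
      · subst h0
        simp
      · by_cases h1 : i = 1
        · subst h1
          simp only [one_ne_zero, if_false, if_true]
          rw [side_vt C x0 (!q.2) q.2 (s := E q.1) (s' := E q.1) rfl]
          simp
        · rcases q with ⟨k, e⟩
          cases e
          · simp only [h0, h1, if_false, Bool.false_eq_true]
            rw [side_vt C x0 true false (s := E (k - 1)) (s' := E k)
              ((E (k - 1)).2.trans (E k).2.symm)]
            simp
          · simp only [h0, h1, if_false, if_true]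
            rw [side_vt C x0 false true (s := E (k + 1)) (s' := E k)
              ((E (k + 1)).2.trans (E k).2.symm)]
            simp

end Ins

end

end H85S
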