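import Pool.Agent.H85S.Insert

/-! the girth of the graph `ins` -/

namespace H85S

open H25G

/-- the word of the letters `a s, ..., a (s + m - 1)` -/
def W (a : ℕ → Fin 3) : ℕ → ℕ → List (Fin 3)
  | _, 0 => []
  | s, m + 1 => a s :: W a (s + 1) m

theorem W_length (a : ℕ → Fin 3) (m : ℕ) : ∀ s, (W a s m).length = m := by
  induction m with
  | zero => intro s; rfl
  | succ m ih => intro s; simp [W, ih]

theorem W_snoc (a : ℕ → Fin 3) (m : ℕ) : ∀ s, W a s (m + 1) = W a s m ++ [a (s + m)] := by
  induction m with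
  | zero => intro s; rfl
  | succ m ih =>
    intro s
    rw [W, ih, W, List.cons_append]
    congr 4
    ring

theorem W_head (a : ℕ → Fin 3) (s m : ℕ) : ∀ y ∈ (W a s m).head?, y = a s := by
  cases m with
  | zero => simp [W]
  | succ m => simp [W]

theorem act_W {X : Type*} (C : Col X) (a : ℕ → Fin 3) (y : ℕ → X) (m : ℕ) : ∀ s,
    (∀ n, s ≤ n → n < s + m → C.ι (a n) (y n) = y (n + 1)) → C.act (W a s m) (y s) = y (s + m) := by
  induction m with
  | zero => intro s _; rfl
  | succ m ih =>
    intro s h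
    rw [W, Col.act_cons, h s le_rfl (by omega), ih (s + 1) (fun n h1 h2 => h n (by omega) (by omega))]
    congr 1
    ring

theorem red_W (a : ℕ → Fin 3) (m : ℕ) : ∀ s, (∀ n, s ≤ n → n + 1 < s + m → a (n + 1) ≠ a n) →
    Red (W a s m) := by
  induction m with
  | zero => intro s _; exact List.isChain_nil
  | succ m ih =>
    intro s h
    have h1 := ih (s + 1) (fun n h1 h2 => h n (by omega) (by omega))
    unfold Red at h1 ⊢
    rw [W, List.isChain_cons]
    refine ⟨?_, h1⟩
    intro y hy
    cases m with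
    | zero => simp [W] at hy
    | succ m =>
      rw [W_head a _ _ y hy]
      exact (h s le_rfl (by omega)).symm

section

variable {X : Type*} {C : Col X} (x0 : X) {g ρ M : ℕ} (hg : C.Girth g) (hρ : 2 * ρ + 4 ≤ g)
  (E : ZMod M ≃ {s : List Bool // s.length = ρ + 1})

theorem step_inl {x x' : {x // ¬ InB C x0 ρ x}} {i : Fin 3}
    (h : (ins x0 hg hρ E).nb (Sum.inl x) i = Sum.inl x') :
    C.ι i x = x' ∧ (ins x0 hg hρ E).rv (Sum.inl x) i = i := by
  by_cases h1 : InB C x0 ρ (C.ι i x)
  · simp [ins, h1] at h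
  · simp only [ins, h1, dif_neg, not_false_eq_true, Sum.inl.injEq] at h ⊢
    exact ⟨congrArg Subtype.val h, by simp⟩

theorem step_in {x : {x // ¬ InB C x0 ρ x}} {q : ZMod M × Bool} {i : Fin 3}
    (h : (ins x0 hg hρ E).nb (Sum.inl x) i = Sum.inr q) :
    vt C x0 q.2 (E q.1) = x ∧ lst (E q.1) = i ∧ (ins x0 hg hρ E).rv (Sum.inl x) i = 0 := by
  by_cases h1 : InB C x0 ρ (C.ι i x)
  · simp only [ins, h1, dif_pos, Sum.inr.injEq] at h ⊢
    have := pend_spec x0 hg hρ E x.2 h1
    rw [h] at this
    exact ⟨this.1, this.2, by simp⟩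
  · simp [ins, h1] at h

theorem step_out {x : {x // ¬ InB C x0 ρ x}} {q : ZMod M × Bool} {i : Fin 3}
    (h : (ins x0 hg hρ E).nb (Sum.inr q) i = Sum.inl x) :
    i = 0 ∧ vt C x0 q.2 (E q.1) = x ∧ (ins x0 hg hρ E).rv (Sum.inr q) i = lst (E q.1) := by
  by_cases h0 : i = 0
  · subst h0
    simp only [ins, if_true, Sum.inl.injEq] at h ⊢
    exact ⟨trivial, congrArg Subtype.val h, trivial⟩
  · exfalso
    by_cases h1 : i = 1
    · subst h1
      simp [ins] at h
    · rcases q with ⟨k, e⟩
      cases e <;> simp [ins, h0, h1] at h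

theorem step_ring {q q' : ZMod M × Bool} {i : Fin 3}
    (h : (ins x0 hg hρ E).nb (Sum.inr q) i = Sum.inr q') :
    i ≠ 0 ∧ (ins x0 hg hρ E).rv (Sum.inr q) i = i ∧
      q' = (if i = 1 then (q.1, !q.2) else if q.2 then (q.1 + 1, false) else (q.1 - 1, true)) := by
  by_cases h0 : i = 0
  · subst h0
    simp [ins] at h
  · by_cases h1 : i = 1
    · subst h1
      simp [ins] at h ⊢
      exact h.symm
    · rcases q with ⟨k, e⟩
      cases e <;> simp [ins, h0, h1] at h ⊢ <;> exact h.symm

/-- closed walks on the cycle -/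
theorem ring_case {l : ℕ} {f : ℕ → {x // ¬ InB C x0 ρ x} ⊕ (ZMod M × Bool)}
    {a : ℕ → Fin 3} (hl : 0 < l) (h : Per (ins x0 hg hρ E) l f a) (q : ℕ → ZMod M × Bool)
    (hq : ∀ n, f n = Sum.inr (q n)) : 2 * M ≤ l := by
  have hs : ∀ n, a n ≠ 0 ∧ a (n + 1) ≠ a n ∧
      q (n + 1) = (if a n = 1 then ((q n).1, !(q n).2) else
        if (q n).2 then ((q n).1 + 1, false) else ((q n).1 - 1, true)) := by
    intro n
    have h1 := h.step n
    rw [hq, hq] at h1
    have h2 := step_ring x0 hg hρ E h1
    refine ⟨h2.1, ?_, h2.2.2⟩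
    have h3 := h.nbt n
    rw [hq, h2.2.1] at h3
    exact h3
  have hcases : ∀ i j : Fin 3, i ≠ 0 → j ≠ 0 → i ≠ j → (i = 1 ∧ j = 2) ∨ (i = 2 ∧ j = 1) := by
    decide
  -- two steps
  obtain ⟨d, hd1, hd⟩ : ∃ d : ZMod M, (d = 1 ∨ d = -1) ∧ ∀ t : ℕ,
      q (2 * t) = ((q 0).1 + t * d, (q 0).2) ∧ a (2 * t) = a 0 := by
    set d : ZMod M := if (a 0 = 1 ∧ (q 0).2 = false) ∨ (a 0 = 2 ∧ (q 0).2 = true) then 1 else -1
      with hdd
    refine ⟨d, ?_, ?_⟩
    · rw [hdd]
      split_ifs
      · left; rfl
      · right; rfl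
    · intro t
      induction t with
      | zero => simp
      | succ t ih =>
        obtain ⟨h1, h2⟩ := ih
        have e1 := hs (2 * t)
        have e2 := hs (2 * t + 1)
        have e3 : 2 * (t + 1) = 2 * t + 1 + 1 := by ring
        rw [e3]
        rcases hcases (a (2 * t)) (a (2 * t + 1)) e1.1 e2.1 e1.2.1.symm with h3 | h3
        · have h4 : a (2 * t + 1 + 1) = 1 := by
            rcases hcases (a (2 * t + 1)) (a (2 * t + 1 + 1)) e2.1 (hs _).1 e2.2.1.symm with h5 | h5
            · rw [h5.1] at h3; exact absurd h3.2 (by decide)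
            · exact h5.2
          have h5 : a 0 = 1 := by rw [← h2]; exact h3.1
          refine ⟨?_, by rw [h4, h5]⟩
          rw [e2.2.2, e1.2.2, h1]
          simp only [h3.1, h3.2, if_true]
          cases hb : (q 0).2
          · simp [hdd, h5, hb]; ring
          · simp [hdd, h5, hb]; ring
        · have h4 : a (2 * t + 1 + 1) = 2 := by
            rcases hcases (a (2 * t + 1)) (a (2 * t + 1 + 1)) e2.1 (hs _).1 e2.2.1.symm with h5 | h5
            · exact h5.2
            · rw [h5.1] at h3; exact absurd h3.2 (by decide)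
          have h5 : a 0 = 2 := by rw [← h2]; exact h3.1
          refine ⟨?_, by rw [h4, h5]⟩
          rw [e2.2.2, e1.2.2, h1]
          simp only [h3.1, h3.2, if_true]
          cases hb : (q 0).2
          · simp [hdd, h5, hb]; ring
          · simp [hdd, h5, hb]; ring
  -- the length is even
  have hside : ∀ n, (ins x0 hg hρ E).side (f n) =
      if n % 2 = 1 then !(ins x0 hg hρ E).side (f 0) else (ins x0 hg hρ E).side (f 0) := by
    intro n
    induction n with
    | zero => simp
    | succ n ih =>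
      rw [← h.step n, (ins x0 hg hρ E).side_nb, ih]
      rcases Nat.mod_two_eq_zero_or_one n with h1 | h1
      · have h2 : (n + 1) % 2 = 1 := by omega
        simp [h1, h2]
      · have h2 : (n + 1) % 2 = 0 := by omega
        simp [h1, h2]
  have hl2 : l % 2 = 0 := by
    rcases Nat.mod_two_eq_zero_or_one l with h1 | h1
    · exact h1
    · have h2 := hside l
      have h3 := h.perf 0
      rw [zero_add] at h3
      rw [h3, if_pos h1] at h2
      cases hh : (ins x0 hg hρ E).side (f 0) <;> rw [hh] at h2 <;> simp at h2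
  obtain ⟨t, ht⟩ : ∃ t, l = 2 * t := ⟨l / 2, by omega⟩
  have h1 := (hd t).1
  have h2 : q (2 * t) = q 0 := by
    have h3 := h.perf 0
    rw [zero_add, hq, hq, ht] at h3
    exact Sum.inr_injective h3
  rw [h2] at h1
  have h3 : (t : ZMod M) * d = 0 := by
    have := congrArg Prod.fst h1
    simp only at this
    exact left_eq_add.mp this
  have h4 : (t : ZMod M) = 0 := by
    rcases hd1 with h5 | h5
    · rw [h5, mul_one] at h3; exact h3
    · rw [h5, mul_neg, mul_one, neg_eq_zero] at h3; exact h3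
  rw [ZMod.natCast_eq_zero_iff] at h4
  have := Nat.le_of_dvd (by omega) h4
  omega

/-- closed walks using both parts -/
theorem mixed_case {l : ℕ} {f : ℕ → {x // ¬ InB C x0 ρ x} ⊕ (ZMod M × Bool)}
    {a : ℕ → Fin 3} (hl : 0 < l) (h : Per (ins x0 hg hρ E) l f a) (n0 : ℕ)
    (h1 : ∃ q, f n0 = Sum.inr q) (h2 : ∃ x, f (n0 + 1) = Sum.inl x) : g ≤ 2 * ρ + l := by
  classical
  obtain ⟨q1, hq1⟩ := h1
  -- the first return to the cycle
  have hex : ∃ j, ∃ q, f (n0 + 1 + j) = Sum.inr q := by
    refine ⟨l - 1, q1, ?_⟩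
    have : n0 + 1 + (l - 1) = n0 + l := by omega
    rw [this, h.perf, hq1]
  set j := Nat.find hex with hj
  obtain ⟨q2, hq2⟩ := Nat.find_spec hex
  have hjl : j ≤ l - 1 := Nat.find_min' hex (by
    refine ⟨q1, ?_⟩
    have : n0 + 1 + (l - 1) = n0 + l := by omega
    rw [this, h.perf, hq1])
  have hj1 : 1 ≤ j := by
    by_contra hcon
    have : j = 0 := by omega
    rw [← hj, this] at hq2
    obtain ⟨x, hx⟩ := h2
    rw [add_zero, hx] at hq2
    exact absurd hq2 (by simp)
  have hmin : ∀ i < j, ∃ x, f (n0 + 1 + i) = Sum.inl x := by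
    intro i hi
    have h3 := Nat.find_min hex hi
    push Not at h3
    rcases hf : f (n0 + 1 + i) with x | q
    · exact ⟨x, rfl⟩
    · exact absurd hf (h3 q)
  -- the sequence of outer vertices
  set y : ℕ → X := fun n => match f n with
    | Sum.inl x => x
    | Sum.inr _ => x0 with hy
  have hyf : ∀ n x, f n = Sum.inl x → y n = x := by
    intro n x hx
    simp only [hy, hx]
  -- leaving the cycle
  obtain ⟨x1, hx1⟩ := h2
  have e1 := h.step n0
  rw [hq1, hx1] at e1
  have e1' := step_out x0 hg hρ E e1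
  have n1 := h.nbt n0
  rw [hq1, e1'.2.2] at n1
  have ha0 : a n0 = 0 := e1'.1
  -- entering the cycle
  obtain ⟨x2, hx2⟩ := hmin (j - 1) (by omega)
  have hidx : n0 + 1 + (j - 1) + 1 = n0 + 1 + j := by omega
  have e2 := h.step (n0 + 1 + (j - 1))
  rw [hx2, hidx, hq2] at e2
  have e2' := step_in x0 hg hρ E e2
  have hjl2 : j ≤ l - 2 := by
    by_contra hcon
    have hjeq : j = l - 1 := by omega
    have n2 := h.nbt (n0 + 1 + (j - 1))
    rw [hx2, e2'.2.2, hidx] at n2
    have : n0 + 1 + j = n0 + l := by omega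
    rw [this, h.pera, ha0] at n2
    exact n2 rfl
  have hl2 : 2 ≤ l := by omega
  -- the inner steps
  have hin : ∀ n, n0 + 1 ≤ n → n < n0 + 1 + (j - 1) →
      C.ι (a n) (y n) = y (n + 1) ∧ a (n + 1) ≠ a n := by
    intro n h3 h4
    obtain ⟨i, rfl⟩ : ∃ i, n = n0 + 1 + i := ⟨n - (n0 + 1), by omega⟩
    obtain ⟨u, hu⟩ := hmin i (by omega)
    obtain ⟨v, hv⟩ := hmin (i + 1) (by omega)
    have hv' : f (n0 + 1 + i + 1) = Sum.inl v := hv
    have h5 := h.step (n0 + 1 + i)
    rw [hu, hv'] at h5
    have h6 := step_inl x0 hg hρ E h5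
    rw [hyf _ _ hu, hyf _ _ hv']
    refine ⟨h6.1, ?_⟩
    have h7 := h.nbt (n0 + 1 + i)
    rw [hu, h6.2] at h7
    exact h7
  set v := W a (n0 + 1) (j - 1) with hv
  have hvl : v.length = j - 1 := W_length _ _ _
  have hvact : C.act v (vt C x0 q1.2 (E q1.1)) = vt C x0 q2.2 (E q2.1) := by
    have h3 := act_W C a y (j - 1) (n0 + 1) (fun n h3 h4 => (hin n h3 h4).1)
    rw [hyf _ _ hx1, hyf _ _ hx2, ← e1'.2.1, ← e2'.1] at h3
    exact h3
  have hvred : Red (W a (n0 + 1) j) := by
    apply red_W
    intro n h3 h4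
    exact (hin n h3 (by omega)).2
  have hvsnoc : W a (n0 + 1) j = v ++ [lst (E q2.1)] := by
    have : j = (j - 1) + 1 := by omega
    rw [this, W_snoc, ← hv, e2'.2.1]
  rw [hvsnoc] at hvred
  set w1 := wd 0 (E q1.1) with hw1
  set w2 := wd 0 (E q2.1) with hw2
  have hw1l : w1.length = ρ + 1 := by rw [hw1, wd_length]; exact (E q1.1).2
  have hw2l : w2.length = ρ + 1 := by rw [hw2, wd_length]; exact (E q2.1).2
  obtain ⟨s1, hs1, _⟩ := wd_split (s := (E q1.1 : List Bool)) (by
    intro h3
    have := (E q1.1).2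
    rw [h3] at this
    simp at this)
  obtain ⟨s2, hs2, _⟩ := wd_split (s := (E q2.1 : List Bool)) (by
    intro h3
    have := (E q2.1).2
    rw [h3] at this
    simp at this)
  have hr2 : Red w2.reverse := by
    have := wd_red (E q2.1 : List Bool) 0
    unfold Red at this ⊢
    rw [List.isChain_reverse]
    exact this.imp fun _ _ h => h.symm
  have hr2h : w2.reverse = lst (E q2.1) :: (wd 0 s2).reverse := by
    rw [hw2, hs2]
    simp
  have hvr : Red (v ++ w2.reverse) := by
    unfold Red at hvred hr2 ⊢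
    rw [List.isChain_append] at hvred ⊢
    refine ⟨hvred.1, hr2, ?_⟩
    intro x hx z hz
    rw [hr2h] at hz
    exact hvred.2.2 x hx z (by simpa using hz)
  have hU : Red (w1 ++ (v ++ w2.reverse)) := by
    have h3 := wd_red (E q1.1 : List Bool) 0
    unfold Red at hvr h3 ⊢
    rw [List.isChain_append]
    refine ⟨h3, hvr, ?_⟩
    intro x hx z hz
    have hx' : x = lst (E q1.1) := by
      rw [hw1, hs1] at hx
      simpa using hx.symm
    have hz' : z = a (n0 + 1) := by
      have h5 : (v ++ w2.reverse).head? = (W a (n0 + 1) j).head? := by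
        rw [hvsnoc, hr2h]
        cases v <;> simp
      rw [h5] at hz
      exact W_head a _ _ z hz
    rw [hx', hz']
    exact n1.symm
  have hUact : C.act (w1 ++ (v ++ w2.reverse)) (rt C x0 q1.2) = rt C x0 q2.2 := by
    rw [Col.act_append, Col.act_append]
    have h3 : C.act w1 (rt C x0 q1.2) = vt C x0 q1.2 (E q1.1) := rfl
    rw [h3, hvact]
    have h4 : vt C x0 q2.2 (E q2.1) = C.act w2 (rt C x0 q2.2) := rfl
    rw [h4, Col.act_reverse]
  have hUl : (w1 ++ (v ++ w2.reverse)).length = 2 * (ρ + 1) + (j - 1) := by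
    simp [hw1l, hw2l, hvl]
    ring
  have hUne : w1 ++ (v ++ w2.reverse) ≠ [] := by
    intro h3
    rw [h3] at hUl
    simp at hUl
    omega
  by_contra hcon
  by_cases hee : q1.2 = q2.2
  · rw [← hee] at hUact
    exact hg _ hUne hU (by omega) _ hUact
  · have hee' : q2.2 = !q1.2 := by
      cases hb1 : q1.2 <;> cases hb2 : q2.2 <;> rw [hb1, hb2] at hee <;> simp at hee ⊢
    refine hg (w1 ++ (v ++ w2.reverse) ++ [0]) (by simp) ?_ (by
      rw [List.length_append, hUl]
      simp
      omega) (rt C x0 q1.2) ?_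
    · unfold Red at hU ⊢
      rw [List.isChain_append]
      refine ⟨hU, List.isChain_singleton _, ?_⟩
      intro x hx z hz
      simp only [List.head?_cons, Option.mem_def, Option.some.injEq] at hz
      subst hz
      apply wd_head (E q2.1 : List Bool) 0 x
      rw [← hw2]
      have h3 : (w1 ++ (v ++ w2.reverse)).getLast? = w2.head? := by
        rw [List.getLast?_append, List.getLast?_append, List.getLast?_reverse]
        cases hw2' : w2 with
        | nil => rw [hw2'] at hw2l; simp at hw2l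
        | cons b w => simp
      rw [← h3]
      exact hx
    · rw [Col.act_append, hUact, hee', Col.act_cons, Col.act_nil, ← rt_not, C.invol]

theorem ins_girth {g' : ℕ} (h1 : g' ≤ 2 * M) (h2 : g' + 2 * ρ ≤ g) :
    (ins x0 hg hρ E).PGirth g' := by
  intro l f a hl h
  by_cases hA : ∀ n, ∃ x, f n = Sum.inl x
  · choose x hx using hA
    have hs : ∀ n, C.ι (a n) (x n) = x (n + 1) ∧ a (n + 1) ≠ a n := by
      intro n
      have h3 := h.step n
      rw [hx, hx] at h3
      have h4 := step_inl x0 hg hρ E h3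
      refine ⟨h4.1, ?_⟩
      have h5 := h.nbt n
      rw [hx, h4.2] at h5
      exact h5
    have h3 := act_W C a (fun n => (x n : X)) l 0 (fun n _ _ => (hs n).1)
    have h4 := red_W a l 0 (fun n _ _ => (hs n).2)
    have h5 : (x (0 + l) : X) = x 0 := by
      have h6 := h.perf 0
      rw [hx, hx] at h6
      exact congrArg Subtype.val (Sum.inl_injective h6)
    rw [h5] at h3
    by_contra hcon
    refine hg _ ?_ h4 (by rw [W_length]; omega) _ h3
    intro h6
    have := W_length a l 0
    rw [h6] at this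
    simp at this
    omega
  · push Not at hA
    obtain ⟨n1, hn1⟩ := hA
    obtain ⟨q1, hq1⟩ : ∃ q, f n1 = Sum.inr q := by
      rcases hf : f n1 with x | q
      · exact absurd hf (hn1 x)
      · exact ⟨q, rfl⟩
    by_cases hB : ∀ n, ∃ q, f n = Sum.inr q
    · choose q hq using hB
      exact h1.trans (ring_case x0 hg hρ E hl h q hq)
    · -- find an exit
      push Not at hB
      obtain ⟨n2, hn2⟩ := hB
      have hperk : ∀ k n, f (n + k * l) = f n := by
        intro k
        induction k with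
        | zero => intro n; simp
        | succ k ih =>
          intro n
          have : n + (k + 1) * l = n + k * l + l := by ring
          rw [this, h.perf, ih]
      have hex : ∃ m, ∃ x, f (n1 + 1 + m) = Sum.inl x := by
        -- a later copy of `n2`
        obtain ⟨k, hk⟩ : ∃ k, n1 + 1 ≤ n2 + k * l := by
          refine ⟨n1 + 1, ?_⟩
          have : n1 + 1 ≤ (n1 + 1) * l := Nat.le_mul_of_pos_right _ hl
          omega
        refine ⟨n2 + k * l - (n1 + 1), ?_⟩
        have e : n1 + 1 + (n2 + k * l - (n1 + 1)) = n2 + k * l := by omega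
        rw [e, hperk]
        rcases hf : f n2 with x | q
        · exact ⟨x, rfl⟩
        · exact absurd hf (hn2 q)
      classical
      set m := Nat.find hex with hm
      obtain ⟨x, hx⟩ := Nat.find_spec hex
      have hprev : ∃ q, f (n1 + m) = Sum.inr q := by
        rcases Nat.eq_zero_or_pos m with h0 | h0
        · rw [h0, add_zero]
          exact ⟨q1, hq1⟩
        · have h3 := Nat.find_min hex (m := m - 1) (by omega)
          push Not at h3
          have e : n1 + 1 + (m - 1) = n1 + m := by omega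
          rw [e] at h3
          rcases hf : f (n1 + m) with x | q
          · exact absurd hf (h3 x)
          · exact ⟨q, rfl⟩
      have e : n1 + 1 + m = n1 + m + 1 := by ring
      have := mixed_case x0 hg hρ E hl h (n1 + m) hprev ⟨x, by rw [← e]; exact hx⟩
      omega

end

end H85S
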