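import Pool.Agent.H85S.SurgGood
import Pool.Agent.H85S.Bk

/-! the modulus of continuity of `b` -/

namespace H85S

open H25G SimpleGraph

theorem even_add {n h : ℕ} (hn : Even n) : Even (n + 2 * h) := by
  obtain ⟨m, rfl⟩ := hn
  exact ⟨m + h, by ring⟩

theorem Good.le_bb {g n : ℕ} (h : Good g n) (h3 : 3 ≤ g) (hn : Even n) (h0 : 0 < n) : g ≤ bb n := by
  obtain ⟨m, rfl⟩ := hn
  have e : m + m = 2 * m := by ring
  rw [e] at h h0 ⊢
  obtain ⟨H, _, h4, h5, h6⟩ := h.graph h3 (by omega)
  exact h6.trans (H85S.le_bb H h4 h5)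

theorem good_bb {n : ℕ} (hn : Even n) (h6 : 6 ≤ n) : Good (bb n) n := by
  obtain ⟨G, h3, hb, hg⟩ := bb_mem hn h6
  rw [← hg]
  exact good_of_graph G h3 hb le_rfl

/-- going down -/
theorem bb_down {n h R : ℕ} (hn : Even n) (h6 : 6 ≤ n) (hR : 1 ≤ R) (hRb : R + 2 ≤ bb (n + 2 * h))
    (hh : h * 2 ^ (R + 3) ≤ n + 2 * h) : R * bb (n + 2 * h) ≤ (R + 2) * bb n := by
  set g := bb (n + 2 * h) with hg
  have hG : Good g (n + 2 * h) := good_bb (even_add hn) (by omega)
  -- the least `l` with `R g ≤ (R + 2) l`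
  have hex : ∃ l, R * g ≤ (R + 2) * l := ⟨g, Nat.mul_le_mul_right _ (by omega)⟩
  classical
  set g' := Nat.find hex with hg'
  have h1 : R * g ≤ (R + 2) * g' := Nat.find_spec hex
  have h2 : Good g' (n + 2 * h - 2 * h) :=
    good_remove hG hR hRb (fun l hl => Nat.find_min' hex hl) hh
  rw [Nat.add_sub_cancel] at h2
  have h3 : g' ≤ bb n := by
    rcases Nat.lt_or_ge g' 3 with h3 | h3
    · have := bb_four hn h6
      omega
    · exact Good.le_bb h2 h3 hn (by omega)
  exact h1.trans (Nat.mul_le_mul_left _ h3)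

/-- going up -/
theorem bb_up {n h ρ D : ℕ} (hn : Even n) (h6 : 6 ≤ n) (hρ : 2 * ρ + 4 ≤ bb n) (hD : 1 ≤ D)
    (hDg : D + 2 * ρ + 3 ≤ bb n) (h1 : bb n ≤ 2 ^ (ρ + 2)) (hh : h * 4 ^ (D + 2 * ρ + 3) ≤ n) :
    bb n ≤ bb (n + 2 * h) + 2 * ρ * (bb n / (D + 3)) := by
  set g := bb n with hg
  have hG : Good g n := good_bb hn h6
  have h4 := bb_four (even_add (h := h) hn) (by omega)
  by_contra hcon
  have h2 : Good (g - 2 * ρ * (g / (D + 3))) (n + 2 * h) := by
    apply good_insert_many hG hρ hD hDg ((Nat.sub_le _ _).trans h1) _ (by omega) hh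
    intro l v h5 h7
    rcases Nat.lt_or_ge l g with h8 | h8
    · have h9 : v ≤ g / (D + 3) := by
        rw [Nat.le_div_iff_mul_le (by omega)]
        omega
      have h10 : 2 * ρ * v ≤ 2 * ρ * (g / (D + 3)) := Nat.mul_le_mul_left _ h9
      omega
    · omega
  have h3 := Good.le_bb h2 (by omega) (even_add hn) (by omega)
  omega

theorem bb_le (n : ℕ) : bb n ≤ 4 * Nat.log 2 (2 * n) + 4 := (bb_le_kk n).trans (kk_log n)

/-- `bb n ≤ 9 log n` and `bb (n + 2h) ≤ 11 log n` -/
theorem bb_le_log {n : ℕ} (h16 : 16 ≤ n) : (bb n : ℝ) ≤ 9 * Real.log n := by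
  have h1 := bb_le n
  have e : Nat.log 2 (2 * n) = Nat.log 2 n + 1 := by
    rw [mul_comm, Nat.log_mul_base (by norm_num) (by omega)]
  rw [e] at h1
  have h2 : (Nat.log 2 n : ℝ) ≤ Real.logb 2 n := by
    have := Real.natLog_le_logb n 2
    exact_mod_cast this
  have h3 : Real.logb 2 n = Real.log n / Real.log 2 := rfl
  have h4 : Real.log 2 > 0.6931 := by linarith [Real.log_two_gt_d9]
  have h5 : (4 : ℝ) * Real.log 2 ≤ Real.log n := by
    have : (4 : ℝ) * Real.log 2 = Real.log 16 := by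
      rw [show (16 : ℝ) = 2 ^ 4 by norm_num, Real.log_pow]
      norm_num
    rw [this]
    apply Real.log_le_log (by norm_num)
    exact_mod_cast h16
  have h6 : (bb n : ℝ) ≤ 4 * (Nat.log 2 n + 1) + 4 := by exact_mod_cast h1
  rw [h3, le_div_iff₀ (by linarith)] at h2
  nlinarith

theorem bb_le_log' {n h : ℕ} (h16 : 16 ≤ n) (hh : 2 * h ≤ n) :
    (bb (n + 2 * h) : ℝ) ≤ 12 * Real.log n := by
  have h1 := bb_le_log (n := n + 2 * h) (by omega)
  have h4 : Real.log 2 > 0.6931 := by linarith [Real.log_two_gt_d9]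
  have h5 : (4 : ℝ) * Real.log 2 ≤ Real.log n := by
    have : (4 : ℝ) * Real.log 2 = Real.log 16 := by
      rw [show (16 : ℝ) = 2 ^ 4 by norm_num, Real.log_pow]
      norm_num
    rw [this]
    apply Real.log_le_log (by norm_num)
    exact_mod_cast h16
  have h6 : Real.log ((n + 2 * h : ℕ) : ℝ) ≤ Real.log 2 + Real.log n := by
    have hn0 : (0 : ℝ) < n := by
      have : 0 < n := by omega
      exact_mod_cast this
    rw [← Real.log_mul (by norm_num) hn0.ne']
    apply Real.log_le_log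
    · have : 0 < n + 2 * h := by omega
      exact_mod_cast this
    · have : n + 2 * h ≤ 2 * n := by omega
      exact_mod_cast this
  linarith

/-- the exponent `s` -/
theorem exists_s {n h : ℕ} (h1 : 1 ≤ h) (h2 : 2 * h ≤ n) : ∃ s : ℕ, 1 ≤ s ∧ h * 2 ^ s ≤ n ∧
    Real.log ((n : ℝ) / h) ≤ s + 1 := by
  refine ⟨Nat.log 2 (n / h), ?_, ?_, ?_⟩
  · have h3 : 2 ≤ n / h := by rw [Nat.le_div_iff_mul_le (by omega)]; omega
    apply (Nat.le_log_iff_pow_le (by norm_num) (by omega)).mpr
    omega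
  · have h3 : 2 ^ Nat.log 2 (n / h) ≤ n / h := Nat.pow_log_le_self _ (by
      have : 2 ≤ n / h := by rw [Nat.le_div_iff_mul_le (by omega)]; omega
      omega)
    calc h * 2 ^ Nat.log 2 (n / h) ≤ h * (n / h) := Nat.mul_le_mul_left _ h3
      _ ≤ n := Nat.mul_div_le _ _
  · set s := Nat.log 2 (n / h) with hs
    have h3 : n / h < 2 ^ (s + 1) := Nat.lt_pow_succ_log_self (by norm_num) _
    have h4 : n < 2 ^ (s + 1) * h := by
      rwa [Nat.div_lt_iff_lt_mul (by omega)] at h3
    have hh : (0 : ℝ) < h := by exact_mod_cast h1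
    have hn : (0 : ℝ) < n := by
      have : 0 < n := by omega
      exact_mod_cast this
    have h5 : (n : ℝ) / h ≤ 2 ^ (s + 1) := by
      rw [div_le_iff₀ hh]
      exact_mod_cast h4.le
    calc Real.log ((n : ℝ) / h) ≤ Real.log (2 ^ (s + 1)) := Real.log_le_log (by positivity) h5
      _ = (s + 1) * Real.log 2 := by rw [Real.log_pow]; push_cast; ring
      _ ≤ (s + 1) * 1 := by
        apply mul_le_mul_of_nonneg_left _ (by positivity)
        linarith [Real.log_two_lt_d9]
      _ = s + 1 := by ring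

theorem facts {n h : ℕ} (h16 : 16 ≤ n) (h1 : 1 ≤ h) (h2 : 2 * h ≤ n) :
    0 < Real.log ((n : ℝ) / h) ∧ 1 ≤ Real.log n / Real.log ((n : ℝ) / h) ∧
    2.77 ≤ Real.log n ∧ 1 ≤ Real.log (Real.log n) := by
  have hh : (0 : ℝ) < h := by exact_mod_cast h1
  have hh1 : (1 : ℝ) ≤ h := by exact_mod_cast h1
  have hn : (0 : ℝ) < n := by
    have : 0 < n := by omega
    exact_mod_cast this
  have hn2 : (2 : ℝ) * h ≤ n := by exact_mod_cast h2
  have g1 : 0 < Real.log ((n : ℝ) / h) := by
    apply Real.log_pos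
    rw [lt_div_iff₀ hh]
    linarith
  have g2 : Real.log ((n : ℝ) / h) ≤ Real.log n := by
    apply Real.log_le_log (by positivity)
    rw [div_le_iff₀ hh]
    nlinarith
  have g3 : (2.77 : ℝ) ≤ Real.log n := by
    have h5 : Real.log 16 ≤ Real.log n := by
      apply Real.log_le_log (by norm_num)
      exact_mod_cast h16
    have h6 : Real.log 16 = 4 * Real.log 2 := by
      rw [show (16 : ℝ) = 2 ^ 4 by norm_num, Real.log_pow]
      norm_num
    linarith [Real.log_two_gt_d9]
  refine ⟨g1, ?_, g3, ?_⟩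
  · rw [le_div_iff₀ g1]
    linarith
  · rw [Real.le_log_iff_exp_le (by linarith)]
    linarith [Real.exp_one_lt_d9]

theorem upper {n h : ℕ} (hn : Even n) (h16 : 16 ≤ n) (h1 : 1 ≤ h) (h2 : 2 * h ≤ n) :
    (bb (n + 2 * h) : ℝ) ≤ bb n + 50 * (Real.log n / Real.log ((n : ℝ) / h)) := by
  obtain ⟨g1, g2, g3, _⟩ := facts h16 h1 h2
  obtain ⟨s, hs1, hs2, hs3⟩ := exists_s h1 h2
  set x := Real.log ((n : ℝ) / h) with hx
  set L := Real.log n with hL
  have hN := bb_le_log' h16 h2
  rw [← hL] at hN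
  set g := bb (n + 2 * h) with hg
  have hg4 := bb_four (even_add (h := h) hn) (by omega)
  have hb0 : (0 : ℝ) ≤ bb n := by positivity
  rcases Nat.lt_or_ge s 4 with h4 | h4
  · have h5 : x ≤ 4 := by
      have : (s : ℝ) ≤ 3 := by exact_mod_cast (show s ≤ 3 by omega)
      linarith
    have h6 : L / 4 ≤ L / x := div_le_div_of_nonneg_left (by linarith) g1 h5
    linarith
  · -- `R = min (s - 3) (g - 2)`
    obtain ⟨R, hR1, hR2, hR3, hR4⟩ : ∃ R, 1 ≤ R ∧ R + 2 ≤ g ∧ R + 3 ≤ s ∧
        (R + 2 = g ∨ R + 3 = s) := by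
      refine ⟨min (s - 3) (g - 2), ?_, ?_, ?_, ?_⟩
      · rw [le_min_iff]; omega
      · have := min_le_right (s - 3) (g - 2); omega
      · have := min_le_left (s - 3) (g - 2); omega
      · rcases min_choice (s - 3) (g - 2) with h | h
        · right; omega
        · left; omega
    have h5 := bb_down (h := h) hn (by omega) hR1 hR2 (by
      calc h * 2 ^ (R + 3) ≤ h * 2 ^ s := Nat.mul_le_mul_left _ (Nat.pow_le_pow_right (by norm_num) hR3)
        _ ≤ n := hs2
        _ ≤ n + 2 * h := by omega)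
    have h6 : (R : ℝ) * g ≤ (R + 2) * bb n := by exact_mod_cast h5
    have hRr : (1 : ℝ) ≤ R := by exact_mod_cast hR1
    have hg0 : (0 : ℝ) < g := by
      have : 0 < g := by omega
      exact_mod_cast this
    -- `g - bb n ≤ 2 g / (R + 2)`
    have h7 : (g : ℝ) ≤ bb n + 2 * g / (R + 2) := by
      have h8 : (2 * (g : ℝ) / (R + 2)) * (R + 2) = 2 * g := by field_simp
      nlinarith
    have h9 : 2 * (g : ℝ) / (R + 2) ≤ 50 * (L / x) := by
      rcases hR4 with h10 | h10
      · have h11 : ((R : ℝ) + 2) = g := by exact_mod_cast h10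
        rw [h11, mul_div_assoc, div_self hg0.ne']
        linarith
      · have h11 : ((R : ℝ) + 3) = s := by exact_mod_cast h10
        have h12 : (4 : ℝ) ≤ s := by exact_mod_cast h4
        have h13 : x / 2 ≤ R + 2 := by linarith
        calc 2 * (g : ℝ) / (R + 2) ≤ 2 * (g : ℝ) / (x / 2) :=
              div_le_div_of_nonneg_left (by positivity) (by positivity) h13
          _ = 4 * g / x := by field_simp; ring
          _ ≤ 4 * (12 * L) / x := by
              apply div_le_div_of_nonneg_right _ g1.le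
              linarith
          _ = 48 * (L / x) := by ring
          _ ≤ 50 * (L / x) := by linarith
    linarith

theorem four_clog {g : ℕ} (hg : 20 ≤ g) : 4 * Nat.clog 2 g ≤ g := by
  rcases Nat.lt_or_ge (Nat.clog 2 g) 6 with h | h
  · omega
  · have h1 : 2 ^ (Nat.clog 2 g - 1) < g := Nat.pow_pred_clog_lt_self (by norm_num) (by omega)
    have h2 : ∀ k, 6 ≤ k → 4 * k ≤ 2 ^ (k - 1) := by
      intro k hk
      induction k, hk using Nat.le_induction with
      | base => norm_num
      | succ k hk ih =>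
        have : 2 ^ (k + 1 - 1) = 2 * 2 ^ (k - 1) := by
          rw [← pow_succ']
          congr 1
          omega
        omega
    have := h2 _ h
    omega

theorem lower {n h : ℕ} (hn : Even n) (h16 : 16 ≤ n) (h1 : 1 ≤ h) (h2 : 2 * h ≤ n) :
    (bb n : ℝ) - 600 * (Real.log n / Real.log ((n : ℝ) / h)) * Real.log (Real.log n) ≤
      bb (n + 2 * h) := by
  obtain ⟨g1, g2, g3, g4⟩ := facts h16 h1 h2
  obtain ⟨s, hs1, hs2, hs3⟩ := exists_s h1 h2
  set x := Real.log ((n : ℝ) / h) with hx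
  set L := Real.log n with hL
  set μ := Real.log L with hμ
  have hN := bb_le_log h16
  rw [← hL] at hN
  set g := bb n with hg
  have hb0 : (0 : ℝ) ≤ bb (n + 2 * h) := by positivity
  have hmu : 1 ≤ L / x * μ := by nlinarith
  rcases Nat.lt_or_ge g 20 with h4 | h4
  · have h5 : (g : ℝ) ≤ 20 := by exact_mod_cast h4.le
    nlinarith
  · set k := Nat.clog 2 g with hk
    have hk1 := four_clog h4
    rw [← hk] at hk1
    have hk2 : g ≤ 2 ^ k := Nat.le_pow_clog (by norm_num) _
    have hk3 : 2 ^ (k - 1) < g := Nat.pow_pred_clog_lt_self (by norm_num) (by omega)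
    have hk5 : 5 ≤ k := by
      by_contra hcon
      have : 2 ^ k ≤ 2 ^ 4 := Nat.pow_le_pow_right (by norm_num) (by omega)
      omega
    obtain ⟨ρ, hρ⟩ : ∃ ρ, k = ρ + 2 := ⟨k - 2, by omega⟩
    -- `ρ ≤ 4 μ`
    have hρμ : (ρ : ℝ) ≤ 4 * μ := by
      have h5 : (2 : ℝ) ^ (ρ + 1) ≤ 9 * L := by
        have h6 : 2 ^ (ρ + 1) ≤ g := by
          have : k - 1 = ρ + 1 := by omega
          rw [this] at hk3
          exact hk3.le
        have h7 : (2 : ℝ) ^ (ρ + 1) ≤ g := by exact_mod_cast h6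
        linarith
      have h6 : Real.log ((2 : ℝ) ^ (ρ + 1)) ≤ Real.log (9 * L) :=
        Real.log_le_log (by positivity) h5
      rw [Real.log_pow, Real.log_mul (by norm_num) (by linarith)] at h6
      have h7 : Real.log 9 ≤ 2.21 := by
        have h8 : Real.log 9 ≤ Real.log (2 ^ 3 * (9 / 8)) := by norm_num
        rw [Real.log_mul (by norm_num) (by norm_num), Real.log_pow] at h8
        have h9 : Real.log (9 / 8) ≤ 9 / 8 - 1 := Real.log_le_sub_one_of_pos (by norm_num)
        have h10 := Real.log_two_lt_d9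
        push_cast at h8
        linarith
      have h8 := Real.log_two_gt_d9
      push_cast at h6
      have h9 : ((ρ : ℝ) + 1) * 0.69 ≤ ((ρ : ℝ) + 1) * Real.log 2 :=
        mul_le_mul_of_nonneg_left (by linarith) (by positivity)
      linarith
    have hρ0 : (0 : ℝ) ≤ ρ := by positivity
    rcases Nat.lt_or_ge (s / 2) (4 * ρ + 7) with h5 | h5
    · -- `h` is too large
      have h6 : s ≤ 8 * ρ + 14 := by omega
      have h7 : (s : ℝ) ≤ 8 * ρ + 14 := by exact_mod_cast h6
      have h8 : x ≤ 47 * μ := by linarith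
      have h9 : L ≤ 47 * (L / x * μ) := by
        have h10 : L / x * μ = L * μ / x := by ring
        rw [h10]
        have h11 : L * x ≤ 47 * (L * μ) := by nlinarith
        have h12 : L ≤ 47 * (L * μ) / x := by
          rw [le_div_iff₀ g1]
          exact h11
        calc L ≤ 47 * (L * μ) / x := h12
          _ = 47 * (L * μ / x) := by ring
      linarith
    · set m := min (s / 2) g with hm
      have hm1 : 4 * ρ + 7 ≤ m := by
        rw [hm, le_min_iff]
        refine ⟨h5, ?_⟩
        omega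
      have hm2 : m ≤ g := min_le_right _ _
      have hm3 : m ≤ s / 2 := min_le_left _ _
      obtain ⟨D, hD⟩ : ∃ D, m = D + 2 * ρ + 3 := ⟨m - 2 * ρ - 3, by omega⟩
      have h6 := bb_up (n := n) (h := h) (ρ := ρ) (D := D) hn (by omega) (by omega) (by omega)
        (by omega) (by rw [← hg, ← hρ]; exact hk2) (by
          rw [← hD]
          calc h * 4 ^ m = h * 2 ^ (2 * m) := by rw [pow_mul]; norm_num
            _ ≤ h * 2 ^ s := Nat.mul_le_mul_left _ (Nat.pow_le_pow_right (by norm_num) (by omega))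
            _ ≤ n := hs2)
      rw [← hg] at h6
      have h7 : (g : ℝ) ≤ bb (n + 2 * h) + 2 * ρ * ((g / (D + 3) : ℕ) : ℝ) := by exact_mod_cast h6
      have h8 : ((g / (D + 3) : ℕ) : ℝ) ≤ (g : ℝ) / ((D + 3 : ℕ) : ℝ) := Nat.cast_div_le
      have hm7 : (7 : ℝ) ≤ m := by exact_mod_cast (show 7 ≤ m by omega)
      have h9 : (m : ℝ) / 2 ≤ ((D + 3 : ℕ) : ℝ) := by
        have : (m : ℝ) ≤ ((2 * (D + 3) : ℕ) : ℝ) := by exact_mod_cast (show m ≤ 2 * (D + 3) by omega)
        push_cast at this ⊢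
        linarith
      have hg0 : (0 : ℝ) ≤ g := by positivity
      have h10 : (g : ℝ) / ((D + 3 : ℕ) : ℝ) ≤ 2 * g / m := by
        calc (g : ℝ) / ((D + 3 : ℕ) : ℝ) ≤ (g : ℝ) / (m / 2) :=
              div_le_div_of_nonneg_left hg0 (by positivity) h9
          _ = 2 * g / m := by field_simp
      -- `g / m ≤ 36 L / x`
      have h11 : (g : ℝ) / m ≤ 36 * (L / x) := by
        rcases min_choice (s / 2) g with h | h
        · rw [← hm] at h
          have h12 : x / 4 ≤ m := by
            have h13 : s ≤ 2 * m + 1 := by omega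
            have h14 : (s : ℝ) ≤ 2 * m + 1 := by exact_mod_cast h13
            linarith
          calc (g : ℝ) / m ≤ g / (x / 4) := div_le_div_of_nonneg_left hg0 (by positivity) h12
            _ = 4 * g / x := by field_simp
            _ ≤ 4 * (9 * L) / x := by
              apply div_le_div_of_nonneg_right _ g1.le
              linarith
            _ = 36 * (L / x) := by ring
        · rw [← hm] at h
          rw [h, div_self (by
            have : (0 : ℝ) < m := by linarith
            rw [← h]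
            exact this.ne')]
          linarith
      have h12 : 2 * (ρ : ℝ) * ((g / (D + 3) : ℕ) : ℝ) ≤ 600 * (L / x) * μ := by
        have h13 : ((g / (D + 3) : ℕ) : ℝ) ≤ 72 * (L / x) := by
          calc ((g / (D + 3) : ℕ) : ℝ) ≤ 2 * g / m := h8.trans h10
            _ = 2 * (g / m) := by ring
            _ ≤ 72 * (L / x) := by linarith
        calc 2 * (ρ : ℝ) * ((g / (D + 3) : ℕ) : ℝ) ≤ 2 * (4 * μ) * (72 * (L / x)) := by
              apply mul_le_mul (by linarith) h13 (by positivity) (by linarith)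
          _ = 576 * (L / x * μ) := by ring
          _ ≤ 600 * (L / x) * μ := by nlinarith
      linarith

end H85S
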