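import Pool.Agent.H85S.Koenig

/-! cubic bipartite graphs with numbered ports, and closed non-backtracking walks as periodic
sequences -/

namespace H85S

open H25G SimpleGraph

/-- cubic bipartite (multi)graphs with numbered ports: the edge at port `i` of `x` leads to `nb x i`,
where it uses port `rv x i` -/
structure Port (X : Type*) where
  nb : X → Fin 3 → X
  rv : X → Fin 3 → Fin 3
  side : X → Bool
  nb_nb : ∀ x i, nb (nb x i) (rv x i) = x
  rv_rv : ∀ x i, rv (nb x i) (rv x i) = i
  side_nb : ∀ x i, side (nb x i) = !side x

/-- closed non-backtracking walks as periodic sequences -/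
structure Per {X : Type*} (P : Port X) (l : ℕ) (f : ℕ → X) (a : ℕ → Fin 3) : Prop where
  step : ∀ n, P.nb (f n) (a n) = f (n + 1)
  nbt : ∀ n, a (n + 1) ≠ P.rv (f n) (a n)
  perf : ∀ n, f (n + l) = f n
  pera : ∀ n, a (n + l) = a n

namespace Port

variable {X : Type*} (P : Port X)

/-- all closed non-backtracking walks have length at least `g` -/
def PGirth (g : ℕ) : Prop := ∀ l f a, 0 < l → Per P l f a → g ≤ l

/-- the underlying graph -/
def gr : SimpleGraph X where
  Adj x y := ∃ i, P.nb x i = y
  symm := ⟨by
    rintro x y ⟨i, rfl⟩
    exact ⟨P.rv x i, P.nb_nb x i⟩⟩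
  loopless := ⟨by
    rintro x ⟨i, h⟩
    have := P.side_nb x i
    rw [h] at this
    cases hx : P.side x <;> rw [hx] at this <;> simp at this⟩

variable {P}

theorem nb_injective {g : ℕ} (hg : P.PGirth g) (h3 : 3 ≤ g) (x : X) :
    Function.Injective (P.nb x) := by
  intro i j hij
  by_contra hne
  have := hg 2 (fun n => if n % 2 = 0 then x else P.nb x i)
    (fun n => if n % 2 = 0 then i else P.rv x j) (by norm_num)
    { step := by
        intro n
        rcases Nat.mod_two_eq_zero_or_one n with h | h
        · have h' : (n + 1) % 2 = 1 := by omega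
          simp [h, h']
        · have h' : (n + 1) % 2 = 0 := by omega
          simp only [h, h', one_ne_zero, if_false, if_true]
          rw [hij, P.nb_nb]
      nbt := by
        intro n
        rcases Nat.mod_two_eq_zero_or_one n with h | h
        · have h' : (n + 1) % 2 = 1 := by omega
          simp only [h, h', one_ne_zero, if_false, if_true]
          intro h5
          apply hne
          rw [← P.rv_rv x i, ← h5, hij, P.rv_rv]
        · have h' : (n + 1) % 2 = 0 := by omega
          simp only [h, h', one_ne_zero, if_false, if_true]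
          rw [hij, P.rv_rv]
          exact hne
      perf := by
        intro n
        have : (n + 2) % 2 = n % 2 := by omega
        simp only [this]
      pera := by
        intro n
        have : (n + 2) % 2 = n % 2 := by omega
        simp only [this] }
  omega

theorem cubic_gr {g : ℕ} (hg : P.PGirth g) (h3 : 3 ≤ g) (x : X) :
    (P.gr.neighborSet x).ncard = 3 := by
  have : P.gr.neighborSet x = Set.range (P.nb x) := by
    ext y
    simp [gr]
  rw [this, ← Set.image_univ, Set.ncard_image_of_injective _ (nb_injective hg h3 x)]
  simp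

theorem bip_gr : P.gr.IsBipartite := by
  have c : P.gr.Coloring Bool := ⟨P.side, by
    rintro x y ⟨i, rfl⟩
    simp [P.side_nb]⟩
  have := c.colorable
  simpa using this

theorem egirth_gr {g : ℕ} (hg : P.PGirth g) : (g : ℕ∞) ≤ P.gr.egirth := by
  classical
  rw [le_egirth]
  intro u p hp
  set l := p.length with hl
  have hl3 : 3 ≤ l := hp.three_le_length
  set f : ℕ → X := fun n => p.getVert (n % l) with hf
  have hadj : ∀ n, ∃ i, P.nb (f n) i = f (n + 1) := by
    intro n
    have h1 : n % l < l := Nat.mod_lt _ (by omega)
    have h2 := p.adj_getVert_succ (i := n % l) h1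
    have h3 : p.getVert (n % l + 1) = f (n + 1) := by
      show p.getVert (n % l + 1) = p.getVert ((n + 1) % l)
      rcases Nat.lt_or_ge (n % l + 1) l with h | h
      · congr 1
        rw [Nat.add_mod, Nat.mod_eq_of_lt (show 1 < l by omega), Nat.mod_eq_of_lt h]
      · have h4 : n % l + 1 = l := by omega
        have h5 : (n + 1) % l = 0 := by
          rw [Nat.add_mod, Nat.mod_eq_of_lt (show 1 < l by omega), h4, Nat.mod_self]
        rw [h4, h5, hl, p.getVert_length, p.getVert_zero]
    rw [h3] at h2
    exact h2
  let pt : X → X → Fin 3 := fun x y => if h : ∃ i, P.nb x i = y then h.choose else 0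
  have hpt : ∀ n, P.nb (f n) (pt (f n) (f (n + 1))) = f (n + 1) := by
    intro n
    show P.nb (f n) (if h : ∃ i, P.nb (f n) i = f (n + 1) then h.choose else 0) = f (n + 1)
    rw [dif_pos (hadj n)]
    exact (hadj n).choose_spec
  have hper : ∀ n, f (n + l) = f n := by
    intro n
    show p.getVert ((n + l) % l) = p.getVert (n % l)
    rw [Nat.add_mod_right]
  have := hg l f (fun n => pt (f n) (f (n + 1))) (by omega)
    { step := hpt
      nbt := by
        intro n h
        have h1 := hpt (n + 1)
        have h1' : P.nb (f (n + 1)) (pt (f (n + 1)) (f (n + 1 + 1))) = f (n + 1 + 1) := h1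
        have h' : pt (f (n + 1)) (f (n + 1 + 1)) = P.rv (f n) (pt (f n) (f (n + 1))) := h
        rw [h'] at h1'
        have h2 : P.nb (f (n + 1)) (P.rv (f n) (pt (f n) (f (n + 1)))) = f n := by
          have h3 := P.nb_nb (f n) (pt (f n) (f (n + 1)))
          rw [hpt n] at h3
          exact h3
        rw [h2] at h1'
        -- `f n = f (n + 2)` contradicts injectivity on a cycle
        have h3 : p.getVert (n % l) = p.getVert ((n + 1 + 1) % l) := h1'
        have h4 := hp.getVert_injOn' (by
          rw [Set.mem_ofPred_eq]
          have : n % l < l := Nat.mod_lt _ (by omega)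
          omega) (by
          rw [Set.mem_ofPred_eq]
          have : (n + 1 + 1) % l < l := Nat.mod_lt _ (by omega)
          omega) h3
        have h5 : (n + 0) % l = (n + 2) % l := h4
        have h6 : 0 ≡ 2 [MOD l] := Nat.ModEq.add_left_cancel' n h5
        have h7 : l ∣ 2 := (Nat.modEq_zero_iff_dvd).mp h6.symm
        have := Nat.le_of_dvd (by norm_num) h7
        omega
      perf := hper
      pera := by
        intro n
        show pt (f (n + l)) (f (n + l + 1)) = pt (f n) (f (n + 1))
        have e : n + l + 1 = n + 1 + l := by omega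
        rw [e, hper, hper] }
  exact_mod_cast this

/-- transport along a bijection -/
def map {Y : Type*} (P : Port X) (e : X ≃ Y) : Port Y where
  nb y i := e (P.nb (e.symm y) i)
  rv y i := P.rv (e.symm y) i
  side y := P.side (e.symm y)
  nb_nb y i := by simp [P.nb_nb]
  rv_rv y i := by simp [P.rv_rv]
  side_nb y i := by simp [P.side_nb]

theorem map_girth {Y : Type*} (e : X ≃ Y) {g : ℕ} (hg : P.PGirth g) : (P.map e).PGirth g := by
  intro l f a hl h
  apply hg l (fun n => e.symm (f n)) a hl
  refine ⟨?_, ?_, ?_, h.pera⟩
  · intro n
    have := h.step n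
    show P.nb (e.symm (f n)) (a n) = e.symm (f (n + 1))
    rw [← this]
    simp [map]
  · intro n
    exact h.nbt n
  · intro n
    show e.symm (f (n + l)) = e.symm (f n)
    rw [h.perf]

theorem good [Finite X] {g n : ℕ} (hg : P.PGirth g) (h3 : 3 ≤ g) (hn : Nat.card X = n) :
    Good g n := by
  have e : X ≃ Fin n := Finite.equivFinOfCardEq hn
  have hg' := map_girth e hg
  exact good_of_graph' (P.map e).gr (cubic_gr hg' h3) bip_gr (egirth_gr hg')

end Port

end H85S
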