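import Pool.Agent.H25G.Graph

/-!
Removing the two endpoints of an edge of colour `0` from a three-edge-coloured cubic bipartite graph,
and joining the two neighbours of colour `j` of its endpoints by an edge of colour `j`, for `j = 1, 2`.
This is done simultaneously at many separated edges.
-/

namespace H85S

open H25G

variable {X : Type*}

/-- `z` is an endpoint of a removed edge -/
def bad (C : Col X) (S : Set X) (z : X) : Prop := z ∈ S ∨ C.ι 0 z ∈ S

theorem bad_ι_zero {C : Col X} {S : Set X} {z : X} (h : bad C S z) : bad C S (C.ι 0 z) := by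
  rcases h with h | h
  · right; rwa [C.invol]
  · left; exact h

theorem bad_ι_zero_iff {C : Col X} {S : Set X} {z : X} : bad C S (C.ι 0 z) ↔ bad C S z :=
  ⟨fun h => by have := bad_ι_zero h; rwa [C.invol] at this, bad_ι_zero⟩

/-- the edges of colour `0` at the vertices of `S` are pairwise at distance `> R` -/
def Sep (C : Col X) (R : ℕ) (S : Set X) : Prop :=
  ∀ u ∈ S, C.side u = false ∧ ∀ u' ∈ S, u' ≠ u → ∀ e, (e = u ∨ e = C.ι 0 u) → ∀ w, Red w →
    w.head? ≠ some 0 → w.length ≤ R → C.act w e ≠ u' ∧ C.act w e ≠ C.ι 0 u'

/-- the new edges have kept endpoints -/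
def Ok (C : Col X) (S : Set X) : Prop :=
  ∀ z i, ¬ bad C S z → bad C S (C.ι i z) → ¬ bad C S (C.ι i (C.ι 0 (C.ι i z)))

theorem ne_zero_of_bad {C : Col X} {S : Set X} {z : X} {i : Fin 3} (hz : ¬ bad C S z)
    (h : bad C S (C.ι i z)) : i ≠ 0 := by
  rintro rfl
  exact hz (bad_ι_zero_iff.mp h)

theorem exists_site {C : Col X} {S : Set X} {z : X} (h : bad C S z) :
    ∃ u ∈ S, z = u ∨ z = C.ι 0 u := by
  rcases h with h | h
  · exact ⟨z, h, Or.inl rfl⟩
  · exact ⟨C.ι 0 z, h, Or.inr (C.invol 0 z).symm⟩

theorem Sep.ok {C : Col X} {R g : ℕ} {S : Set X} (hS : Sep C R S) (hR : 1 ≤ R) (hg : C.Girth g)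
    (h3 : 3 ≤ g) : Ok C S := by
  intro z i hz h1 h2
  have hi := ne_zero_of_bad hz h1
  obtain ⟨u, hu, hu'⟩ := exists_site (bad_ι_zero h1)
  obtain ⟨v, hv, hv'⟩ := exists_site h2
  have hne1 : C.ι i (C.ι 0 (C.ι i z)) ≠ C.ι 0 (C.ι i z) := C.ι_ne i _
  have hne2 : C.ι i (C.ι 0 (C.ι i z)) ≠ C.ι i z := by
    intro h
    refine hg [0, i] (by simp) ?_ (by simp; omega) (C.ι i z) ?_
    · unfold Red
      rw [List.isChain_pair]
      exact hi.symm
    · rw [Col.act_cons, Col.act_cons, Col.act_nil]
      exact h
  by_cases huv : v = u
  · subst huv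
    rcases hu' with h | h <;> rcases hv' with h' | h'
    · exact hne1 (h'.trans h.symm)
    · apply hne2
      rw [h', ← h, C.invol]
    · apply hne2
      rw [h']
      have := congrArg (C.ι 0) h
      rw [C.invol, C.invol] at this
      exact this.symm
    · exact hne1 (h'.trans h.symm)
  · have := (hS u hu).2 v hv huv _ hu' [i] (List.isChain_singleton _) (by simpa using hi)
      (by simpa using hR)
    rw [Col.act_cons, Col.act_nil] at this
    rcases hv' with h | h
    · exact this.1 h
    · exact this.2 h

open Classical in
/-- the new graph -/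
noncomputable def rem (C : Col X) (S : Set X) (hok : Ok C S) : Col {z // ¬ bad C S z} where
  ι i z := if h : bad C S (C.ι i z) then ⟨C.ι i (C.ι 0 (C.ι i z)), hok z i z.2 h⟩
    else ⟨C.ι i z, h⟩
  side z := C.side z
  invol i z := by
    by_cases h : bad C S (C.ι i z)
    · have h2 : bad C S (C.ι i (C.ι i (C.ι 0 (C.ι i z)))) := by
        rw [C.invol]; exact bad_ι_zero h
      apply Subtype.ext
      simp only [h, dif_pos, h2]
      rw [C.invol, C.invol, C.invol]
    · have h2 : ¬ bad C S (C.ι i (C.ι i z)) := by
        rw [C.invol]; exact z.2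
      apply Subtype.ext
      simp only [h, h2, not_false_eq_true, dif_neg]
      rw [C.invol]
  side_ι i z := by
    by_cases h : bad C S (C.ι i z)
    · simp only [h, dif_pos]
      rw [C.side_ι, C.side_ι, C.side_ι]
      simp
    · simp only [h, not_false_eq_true, dif_neg]
      rw [C.side_ι]

section

variable (C : Col X) (S : Set X) (hok : Ok C S)

theorem rem_ι_bad {i : Fin 3} {z : {z // ¬ bad C S z}} (h : bad C S (C.ι i z)) :
    ((rem C S hok).ι i z : X) = C.ι i (C.ι 0 (C.ι i z)) := by
  simp [rem, h]

theorem rem_ι_good {i : Fin 3} {z : {z // ¬ bad C S z}} (h : ¬ bad C S (C.ι i z)) :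
    ((rem C S hok).ι i z : X) = C.ι i z := by
  simp [rem, h]

open Classical in
/-- number of new edges of a walk -/
noncomputable def cnt : List (Fin 3) → {z // ¬ bad C S z} → ℕ
  | [], _ => 0
  | i :: w, z => (if bad C S (C.ι i z) then 1 else 0) + cnt w ((rem C S hok).ι i z)

open Classical in
/-- the corresponding walk in the old graph -/
noncomputable def lift : List (Fin 3) → {z // ¬ bad C S z} → List (Fin 3)
  | [], _ => []
  | i :: w, z => (if bad C S (C.ι i z) then [i, 0, i] else [i]) ++ lift w ((rem C S hok).ι i z)

theorem cnt_append (w w' : List (Fin 3)) (z : {z // ¬ bad C S z}) :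
    cnt C S hok (w ++ w') z = cnt C S hok w z + cnt C S hok w' ((rem C S hok).act w z) := by
  induction w generalizing z with
  | nil => simp [cnt]
  | cons i w ih =>
    rw [List.cons_append, cnt, cnt, ih, Col.act_cons, add_assoc]

theorem lift_length (w : List (Fin 3)) (z : {z // ¬ bad C S z}) :
    (lift C S hok w z).length = w.length + 2 * cnt C S hok w z := by
  induction w generalizing z with
  | nil => simp [cnt, lift]
  | cons i w ih =>
    rw [lift, cnt, List.length_append, ih, List.length_cons]
    split_ifs <;> simp <;> ring

theorem act_lift (w : List (Fin 3)) (z : {z // ¬ bad C S z}) :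
    C.act (lift C S hok w z) z = ((rem C S hok).act w z : X) := by
  induction w generalizing z with
  | nil => simp [lift]
  | cons i w ih =>
    rw [lift, Col.act_append, Col.act_cons, ← ih]
    congr 1
    split_ifs with h
    · rw [rem_ι_bad C S hok h]
      simp
    · rw [rem_ι_good C S hok h]
      simp

theorem lift_head (w : List (Fin 3)) (z : {z // ¬ bad C S z}) :
    (lift C S hok w z).head? = w.head? := by
  cases w with
  | nil => simp [lift]
  | cons i w =>
    rw [lift]
    split_ifs <;> simp

theorem lift_red (w : List (Fin 3)) (hw : Red w) (z : {z // ¬ bad C S z}) :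
    Red (lift C S hok w z) := by
  induction w generalizing z with
  | nil => exact List.isChain_nil
  | cons i w ih =>
    unfold Red at hw ⊢
    rw [List.isChain_cons] at hw
    have h2 := ih hw.2 ((rem C S hok).ι i z)
    rw [lift, List.isChain_append]
    refine ⟨?_, h2, ?_⟩
    · split_ifs with h
      · have hi := ne_zero_of_bad z.2 h
        rw [List.isChain_cons_cons, List.isChain_pair]
        exact ⟨hi, hi.symm⟩
      · exact List.isChain_singleton _
    · intro x hx y hy
      rw [lift_head] at hy
      have hxi : x = i := by
        split_ifs at hx <;> simpa using hx.symm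
      rw [hxi]
      exact hw.1 y hy

variable {C S}

theorem gap {R K g : ℕ} (hS : Sep C R S) (hg : C.Girth g) (hKR : K ≤ R) (hKg : K + 2 ≤ g)
    (w : List (Fin 3)) :
    ∀ (z : {z // ¬ bad C S z}) (p : List (Fin 3)) (e : X), bad C S e → C.act p e = z →
      Red (p ++ w) → p ≠ [] → p.head? ≠ some 0 →
      K * cnt C S hok w z + 1 ≤ w.length + p.length := by
  induction w with
  | nil =>
    intro z p e _ _ _ hp _
    have := List.length_pos_iff.mpr hp
    simp [cnt]
    omega
  | cons i w ih =>
    intro z p e he hz hr hp hp0
    have hpl := List.length_pos_iff.mpr hp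
    by_cases hb : bad C S (C.ι i z)
    · have hi := ne_zero_of_bad z.2 hb
      have hr1 : Red (p ++ [i]) := hr.of_eq [] _ w (by simp)
      have hhead : (p ++ [i]).head? ≠ some 0 := by
        cases p with
        | nil => exact absurd rfl hp
        | cons a p => simpa using hp0
      have hact : C.act (p ++ [i]) e = C.ι i z := by
        rw [Col.act_append, hz, Col.act_cons, Col.act_nil]
      have hlen : (p ++ [i]).length = p.length + 1 := by simp
      have hKp : K ≤ p.length := by
        obtain ⟨u, hu, hu'⟩ := exists_site he
        obtain ⟨v, hv, hv'⟩ := exists_site hb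
        by_cases huv : v = u
        · subst huv
          have hcase : C.ι i z = e ∨ C.ι i z = C.ι 0 e := by
            rcases hu' with h | h <;> rcases hv' with h' | h'
            · left; rw [h', h]
            · right; rw [h', h]
            · right; rw [h', h, C.invol]
            · left; rw [h', h]
          by_contra hcon
          rcases hcase with h | h
          · refine hg (p ++ [i]) (by simp) hr1 (by omega) e ?_
            rw [hact, h]
          · refine hg (p ++ [i] ++ [0]) (by simp) ?_ (by simp; omega) e ?_
            · unfold Red at hr1 ⊢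
              rw [List.isChain_append]
              refine ⟨hr1, List.isChain_singleton _, ?_⟩
              intro x hx y hy
              simp at hx hy
              rw [← hx, ← hy]
              exact hi
            · rw [Col.act_append, hact, h, Col.act_cons, Col.act_nil, C.invol]
        · by_contra hcon
          have := (hS u hu).2 v hv huv e hu' (p ++ [i]) hr1 hhead (by omega)
          rw [hact] at this
          rcases hv' with h | h
          · exact this.1 h
          · exact this.2 h
      have h1 := ih ((rem C S hok).ι i z) [i] (C.ι 0 (C.ι i z)) (bad_ι_zero hb) (by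
        rw [rem_ι_bad C S hok hb, Col.act_cons, Col.act_nil]) (hr.of_eq p _ [] (by simp)) (by simp)
        (by simpa using hi)
      rw [cnt, if_pos hb, List.length_cons, mul_add, mul_one]
      simp only [List.length_cons, List.length_nil] at h1
      omega
    · have h1 := ih ((rem C S hok).ι i z) (p ++ [i]) e he (by
        rw [Col.act_append, hz, Col.act_cons, Col.act_nil, rem_ι_good C S hok hb])
        (hr.of_eq [] _ [] (by simp)) (by simp) (by
          cases p with
          | nil => exact absurd rfl hp
          | cons a p => simpa using hp0)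
      rw [cnt, if_neg hb, List.length_cons, zero_add]
      simp only [List.length_append, List.length_cons, List.length_nil] at h1
      omega

theorem exists_bad (w : List (Fin 3)) (z : {z // ¬ bad C S z}) (h : cnt C S hok w z ≠ 0) :
    ∃ w1 j w2, w = w1 ++ j :: w2 ∧ bad C S (C.ι j ((rem C S hok).act w1 z)) := by
  induction w generalizing z with
  | nil => exact absurd rfl h
  | cons i w ih =>
    by_cases hb : bad C S (C.ι i z)
    · exact ⟨[], i, w, rfl, hb⟩
    · rw [cnt, if_neg hb, zero_add] at h
      obtain ⟨w1, j, w2, h1, h2⟩ := ih _ h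
      exact ⟨i :: w1, j, w2, by rw [h1]; rfl, h2⟩

theorem rem_girth {R g g' : ℕ} (hS : Sep C R S) (hg : C.Girth g) (hRg : R + 2 ≤ g)
    (hg' : ∀ l, R * g ≤ (R + 2) * l → g' ≤ l) : (rem C S hok).Girth g' := by
  by_contra hcon
  obtain ⟨w, x, hw, hr, hl, hf⟩ := (rem C S hok).exists_cyc hcon
  have hrw : Red w := hr.of_eq [] w w (by simp)
  have h1 : g ≤ w.length + 2 * cnt C S hok w x := by
    rw [← lift_length]
    by_contra h
    refine hg _ ?_ (lift_red C S hok w hrw x) (by omega) x ?_
    · intro h0
      have := lift_length C S hok w x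
      rw [h0] at this
      have h2 := List.length_pos_iff.mpr hw
      simp at this
      omega
    · rw [act_lift, hf]
  have h2 : R * cnt C S hok w x ≤ w.length := by
    by_cases h0 : cnt C S hok w x = 0
    · rw [h0]; omega
    · obtain ⟨w1, j, w2, he, hb⟩ := exists_bad hok w x h0
      set z := (rem C S hok).act w1 x with hz
      have hj := ne_zero_of_bad z.2 hb
      have h3 := gap hok hS hg le_rfl hRg (w2 ++ w1 ++ [j]) ((rem C S hok).ι j z) [j]
        (C.ι 0 (C.ι j z)) (bad_ι_zero hb) (by
          rw [rem_ι_bad C S hok hb, Col.act_cons, Col.act_nil])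
        (hr.of_eq w1 _ w2 (by rw [he]; simp)) (by simp) (by simpa using hj)
      have hx : (rem C S hok).act w2 ((rem C S hok).ι j z) = x := by
        rw [he, Col.act_append, Col.act_cons] at hf
        exact hf
      have h4 : cnt C S hok (w2 ++ w1 ++ [j]) ((rem C S hok).ι j z) = cnt C S hok w x := by
        rw [cnt_append, cnt_append, Col.act_append, hx, he, cnt_append, ← hz, cnt, cnt, cnt, if_pos hb]
        ring
      rw [h4] at h3
      have h5 : w.length = w1.length + (w2.length + 1) := by rw [he]; simp
      simp only [List.length_append, List.length_cons, List.length_nil] at h3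
      omega
  have h3 : R * g ≤ (R + 2) * w.length := by
    calc R * g ≤ R * (w.length + 2 * cnt C S hok w x) := Nat.mul_le_mul_left _ h1
      _ = R * w.length + 2 * (R * cnt C S hok w x) := by ring
      _ ≤ R * w.length + 2 * w.length := by omega
      _ = (R + 2) * w.length := by ring
  have := hg' _ h3
  omega

end

end H85S
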