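import Mathlib

/-! sums of boundedly many elements of a dense set (Schnirelmann's method) -/

namespace H85S

open Finset

open Classical in
/-- number of elements of `S` in `[1, n]` -/
noncomputable def ct (S : Set ℕ) (n : ℕ) : ℕ := ((Ioc 0 n).filter (fun x => x ∈ S)).card

theorem ct_le (S : Set ℕ) (n : ℕ) : ct S n ≤ n := by
  classical
  unfold ct
  refine (card_filter_le _ _).trans ?_
  simp

open Classical in
theorem ct_split (S : Set ℕ) {a n : ℕ} (h : a ≤ n) :
    ct S n = ct S a + ((Ioc a n).filter (fun x => x ∈ S)).card := by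
  unfold ct
  rw [← Ioc_union_Ioc_eq_Ioc (Nat.zero_le a) h, filter_union, card_union_of_disjoint]
  apply disjoint_filter_filter
  rw [Finset.disjoint_left]
  intro x hx hx'
  rw [mem_Ioc] at hx hx'
  omega

/-- sums of `k` elements of `S` -/
def sm (k : ℕ) (S : Set ℕ) : Set ℕ :=
  {x | ∃ l : List ℕ, l.length = k ∧ (∀ y ∈ l, y ∈ S) ∧ l.sum = x}

theorem zero_mem_sm {S : Set ℕ} (h : 0 ∈ S) (k : ℕ) : 0 ∈ sm k S :=
  ⟨List.replicate k 0, by simp, fun y hy => by rw [List.eq_of_mem_replicate hy]; exact h, by simp⟩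

theorem add_mem_sm {S : Set ℕ} {j k x y : ℕ} (hx : x ∈ sm j S) (hy : y ∈ sm k S) :
    x + y ∈ sm (j + k) S := by
  obtain ⟨l, h1, h2, h3⟩ := hx
  obtain ⟨l', h1', h2', h3'⟩ := hy
  refine ⟨l ++ l', by simp [h1, h1'], ?_, by simp [h3, h3']⟩
  intro z hz
  rw [List.mem_append] at hz
  rcases hz with h | h
  · exact h2 z h
  · exact h2' z h

theorem mem_sm_one {S : Set ℕ} {x : ℕ} (hx : x ∈ S) : x ∈ sm 1 S :=
  ⟨[x], rfl, by simpa using hx, by simp⟩

/-- Schnirelmann's inequality -/
theorem schnir {A B U : Set ℕ} (hA : 0 ∈ A) (hB : 0 ∈ B) (hU : ∀ x ∈ A, ∀ y ∈ B, x + y ∈ U)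
    {β : ℝ} {L : ℕ} (hβ : ∀ x ≤ L, β * x ≤ ct B x) (n : ℕ) (hn : n ≤ L) :
    (ct A n : ℝ) + β * (n - ct A n) ≤ ct U n := by
  classical
  induction n using Nat.strong_induction_on with
  | _ n ih =>
    rcases Nat.eq_zero_or_pos n with h0 | h0
    · subst h0
      have h1 : ct A 0 = 0 := Nat.le_zero.mp (ct_le A 0)
      rw [h1]
      simp
    by_cases hnA : n ∈ A
    · have h1 := ih (n - 1) (by omega) (by omega)
      have h2 := ct_split A (show n - 1 ≤ n by omega)
      have h3 := ct_split U (show n - 1 ≤ n by omega)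
      have h4 : Ioc (n - 1) n = {n} := by
        ext x
        rw [mem_Ioc, mem_singleton]
        omega
      have h5 : (filter (fun x => x ∈ A) {n}).card = 1 := by
        rw [filter_singleton, if_pos hnA, card_singleton]
      have h6 : (filter (fun x => x ∈ U) {n}).card = 1 := by
        rw [filter_singleton, if_pos (by simpa using hU n hnA 0 hB), card_singleton]
      rw [h4, h5] at h2
      rw [h4, h6] at h3
      rw [h2, h3]
      push_cast [Nat.cast_sub (show 1 ≤ n by omega)] at h1 ⊢
      linarith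
    · set a := Nat.findGreatest (fun x => x ∈ A) n with ha
      have haA : a ∈ A := Nat.findGreatest_spec (P := fun x => x ∈ A) (Nat.zero_le n) hA
      have han : a ≤ n := Nat.findGreatest_le n
      have han' : a < n := by
        rcases Nat.lt_or_eq_of_le han with h | h
        · exact h
        · rw [h] at haA
          exact absurd haA hnA
      have hno : ∀ x, a < x → x ≤ n → x ∉ A := fun x h1 h2 => Nat.findGreatest_is_greatest h1 h2
      have h1 := ih a han' (by omega)
      have h2 := ct_split A han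
      have h3 := ct_split U han
      have h4 : ((Ioc a n).filter (fun x => x ∈ A)).card = 0 := by
        rw [card_eq_zero, filter_eq_empty_iff]
        intro x hx
        rw [mem_Ioc] at hx
        exact hno x hx.1 hx.2
      have h5 : ct B (n - a) ≤ ((Ioc a n).filter (fun x => x ∈ U)).card := by
        unfold ct
        apply card_le_card_of_injOn (fun x => a + x)
        · intro x hx
          rw [mem_coe, mem_filter, mem_Ioc] at hx
          rw [mem_coe, mem_filter, mem_Ioc]
          refine ⟨⟨?_, ?_⟩, hU a haA x hx.2⟩ <;> dsimp only <;> omega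
        · intro x _ y _ h
          exact Nat.add_left_cancel h
      have h6 := hβ (n - a) (by omega)
      have h7 : (ct B (n - a) : ℝ) ≤ ((Ioc a n).filter (fun x => x ∈ U)).card := by exact_mod_cast h5
      rw [h4, add_zero] at h2
      rw [h2, h3]
      push_cast [Nat.cast_sub han] at h6 ⊢
      nlinarith

theorem ct_sm {S : Set ℕ} (hS : 0 ∈ S) {α : ℝ} (hα1 : α ≤ 1) {L : ℕ}
    (hα : ∀ x ≤ L, α * x ≤ ct S x) (k : ℕ) : ∀ n ≤ L, (1 - (1 - α) ^ k) * n ≤ ct (sm k S) n := by
  induction k with
  | zero =>
    intro n _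
    simp
  | succ k ih =>
    intro n hn
    have h1 := schnir (zero_mem_sm hS k) hS (U := sm (k + 1) S)
      (fun x hx y hy => add_mem_sm hx (mem_sm_one hy)) hα n hn
    have h2 := ih n hn
    have h3 : (1 - α) * ((1 - (1 - α) ^ k) * n) ≤ (1 - α) * ct (sm k S) n :=
      mul_le_mul_of_nonneg_left h2 (by linarith)
    rw [pow_succ]
    nlinarith

/-- a set of density `≥ 1/2` on all initial intervals -/
theorem half_basis {S : Set ℕ} (h0 : 0 ∈ S) {L : ℕ} (h : ∀ x ≤ L, (1 / 2 : ℝ) * x ≤ ct S x) (n : ℕ)
    (hn : n ≤ L) : ∃ x ∈ S, ∃ y ∈ S, x + y = n := by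
  classical
  rcases Nat.eq_zero_or_pos n with hn0 | hn0
  · subst hn0
    exact ⟨0, h0, 0, h0, rfl⟩
  by_contra hcon
  push Not at hcon
  set P := (range (n + 1)).filter (fun x => x ∈ S) with hP
  set Q := (range (n + 1)).filter (fun x => n - x ∈ S) with hQ
  have h1 : Disjoint P Q := by
    rw [Finset.disjoint_left]
    intro x hx hx'
    rw [hP, mem_filter, mem_range] at hx
    rw [hQ, mem_filter, mem_range] at hx'
    exact hcon x hx.2 (n - x) hx'.2 (by omega)
  have h2 : (P ∪ Q).card ≤ n + 1 := by
    have : P ∪ Q ⊆ range (n + 1) := union_subset (filter_subset _ _) (filter_subset _ _)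
    simpa using card_le_card this
  rw [card_union_of_disjoint h1] at h2
  have h3 : ct S n + 1 ≤ P.card := by
    have h4 : insert 0 ((Ioc 0 n).filter (fun x => x ∈ S)) ⊆ P := by
      intro x hx
      rw [mem_insert, mem_filter, mem_Ioc] at hx
      rw [hP, mem_filter, mem_range]
      rcases hx with rfl | hx
      · exact ⟨by omega, h0⟩
      · exact ⟨by omega, hx.2⟩
    have h5 := card_le_card h4
    rw [card_insert_of_notMem (by simp)] at h5
    exact h5
  have h4 : P.card ≤ Q.card := by
    apply card_le_card_of_injOn (fun x => n - x)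
    · intro x hx
      rw [hP, mem_coe, mem_filter, mem_range] at hx
      rw [hQ, mem_coe, mem_filter, mem_range]
      dsimp only
      refine ⟨by omega, ?_⟩
      have : n - (n - x) = x := by omega
      rw [this]
      exact hx.2
    · intro x hx y hy hxy
      rw [hP, mem_coe, mem_filter, mem_range] at hx hy
      simp only at hxy
      omega
  have h5 := h n hn
  have h6 : (n : ℝ) ≤ 2 * ct S n := by linarith
  have h7 : n ≤ 2 * ct S n := by exact_mod_cast h6
  omega

/-- rising sun -/
theorem rising (A : Finset ℕ) (B T Q : ℕ) (hB : ∀ a ∈ A, a ≤ B)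
    (h : ∀ a ∈ A, ∃ x, Q ≤ x ∧ x ≤ T ∧ Q * (A.filter (fun z => a < z ∧ z ≤ a + x)).card < x) :
    ∀ (m y : ℕ), (A.filter (fun z => y ≤ z)).card = m → y ≤ B + T + 1 →
      Q * m + 2 * y ≤ 2 * (B + T) + 2 := by
  intro m
  induction m using Nat.strong_induction_on with
  | _ m ih =>
    intro y hm hy
    rcases Nat.eq_zero_or_pos m with h0 | h0
    · subst h0
      omega
    · have hne : (A.filter (fun z => y ≤ z)).Nonempty := by
        rw [← card_pos, hm]
        exact h0
      set a := (A.filter (fun z => y ≤ z)).min' hne with ha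
      have ha1 : a ∈ A.filter (fun z => y ≤ z) := min'_mem _ _
      rw [mem_filter] at ha1
      have hmin : ∀ z ∈ A, y ≤ z → a ≤ z := fun z hz hz' => min'_le _ _ (by
        rw [mem_filter]; exact ⟨hz, hz'⟩)
      obtain ⟨x, h1, h2, h3⟩ := h a ha1.1
      have haB := hB a ha1.1
      have hsplit : A.filter (fun z => y ≤ z) =
          insert a (A.filter (fun z => a < z ∧ z ≤ a + x) ∪ A.filter (fun z => a + x + 1 ≤ z)) := by
        ext z
        simp only [mem_filter, mem_insert, mem_union]
        constructor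
        · rintro ⟨hz, hz'⟩
          have := hmin z hz hz'
          rcases Nat.lt_or_eq_of_le this with h4 | h4
          · right
            rcases Nat.lt_or_ge (a + x) z with h5 | h5
            · right; exact ⟨hz, h5⟩
            · left; exact ⟨hz, h4, h5⟩
          · left; exact h4.symm
        · rintro (rfl | ⟨hz, h4, _⟩ | ⟨hz, h4⟩)
          · exact ha1
          · exact ⟨hz, by omega⟩
          · exact ⟨hz, by omega⟩
      have hc : m ≤ 1 + (A.filter (fun z => a < z ∧ z ≤ a + x)).card +
          (A.filter (fun z => a + x + 1 ≤ z)).card := by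
        rw [← hm, hsplit]
        have e1 := card_insert_le a (A.filter (fun z => a < z ∧ z ≤ a + x) ∪
          A.filter (fun z => a + x + 1 ≤ z))
        have e2 := card_union_le (A.filter (fun z => a < z ∧ z ≤ a + x))
          (A.filter (fun z => a + x + 1 ≤ z))
        omega
      have hlt : (A.filter (fun z => a + x + 1 ≤ z)).card < m := by
        rw [← hm]
        apply card_lt_card
        rw [ssubset_iff_of_subset]
        · refine ⟨a, by rw [mem_filter]; exact ha1, ?_⟩
          rw [mem_filter]
          omega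
        · intro z hz
          rw [mem_filter] at hz ⊢
          exact ⟨hz.1, by omega⟩
      have h4 := ih _ hlt (a + x + 1) rfl (by omega)
      have h5 : Q * m ≤ Q * (1 + (A.filter (fun z => a < z ∧ z ≤ a + x)).card +
          (A.filter (fun z => a + x + 1 ≤ z)).card) := Nat.mul_le_mul_left _ hc
      rw [mul_add, mul_add, mul_one] at h5
      omega

/-- every large number is, up to a bounded error per term, a sum of elements of a dense set -/
theorem dense_sums (D F : ℕ) (hD : 1 ≤ D) (hF : 1 ≤ F) : ∃ K G : ℕ, ∀ (T : ℕ) (A : Finset ℕ),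
    1 ≤ T → (∀ a ∈ A, T ≤ a ∧ a ≤ F * T) → T ≤ D * A.card → ∀ t, K * T ≤ t →
    ∃ l : List ℕ, (∀ a ∈ l, a ∈ A) ∧ l.sum ≤ t ∧ t ≤ l.sum + G * l.length := by
  classical
  set Q := D * (2 * F + 5) with hQ
  have hQ1 : 1 ≤ Q := Nat.mul_pos (by omega) (by omega)
  have hQr : (1 : ℝ) ≤ Q := by exact_mod_cast hQ1
  set α : ℝ := 1 / Q with hα
  have hα0 : 0 < α := by rw [hα]; positivity
  have hα1 : α ≤ 1 := by rw [hα, div_le_one (by linarith)]; exact hQr
  obtain ⟨k1, hk1⟩ := exists_pow_lt_of_lt_one (show (0 : ℝ) < 1 / 2 by norm_num)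
    (show 1 - α < 1 by linarith)
  set k := k1 + k1 + 1 with hk
  refine ⟨k * F * (k * F), Q, ?_⟩
  intro T A hT hA hcard t ht
  -- the base point
  obtain ⟨a0, ha0, hbase⟩ : ∃ a0 ∈ A, ∀ x, Q ≤ x → x ≤ T →
      x ≤ Q * (A.filter (fun z => a0 < z ∧ z ≤ a0 + x)).card := by
    by_contra hcon
    push Not at hcon
    have h1 := rising A (F * T) T Q (fun a ha => (hA a ha).2) (by
      intro a ha
      obtain ⟨x, h1, h2, h3⟩ := hcon a ha
      exact ⟨x, h1, h2, h3⟩) _ 0 rfl (by omega)
    have h2 : A.filter (fun z => 0 ≤ z) = A := by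
      apply filter_true_of_mem
      intro z _
      exact Nat.zero_le z
    rw [h2] at h1
    have h3 : (2 * F + 5) * T ≤ Q * A.card := by
      calc (2 * F + 5) * T ≤ (2 * F + 5) * (D * A.card) := Nat.mul_le_mul_left _ hcard
        _ = Q * A.card := by rw [hQ]; ring
    have h4 : (2 * F + 5) * T = 2 * (F * T) + 5 * T := by ring
    omega
  obtain ⟨S, hS⟩ : ∃ S : Set ℕ, ∀ s, s ∈ S ↔ ∃ a ∈ A, a ≤ a0 + s ∧ a0 + s ≤ a + Q :=
    ⟨{s | ∃ a ∈ A, a ≤ a0 + s ∧ a0 + s ≤ a + Q}, fun s => Iff.rfl⟩
  have hS0 : 0 ∈ S := (hS 0).mpr ⟨a0, ha0, by omega, by omega⟩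
  have hden : ∀ x ≤ T, α * x ≤ ct S x := by
    intro x hx
    rcases Nat.le_total x Q with h | h
    · have h1 : ct S x = x := by
        unfold ct
        rw [filter_true_of_mem]
        · simp
        · intro s hs
          rw [mem_Ioc] at hs
          exact (hS s).mpr ⟨a0, ha0, by omega, by omega⟩
      rw [h1]
      have : (0 : ℝ) ≤ x := by positivity
      nlinarith
    · have h1 := hbase x h hx
      have h2 : (A.filter (fun z => a0 < z ∧ z ≤ a0 + x)).card ≤ ct S x := by
        unfold ct
        apply card_le_card_of_injOn (fun z => z - a0)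
        · intro z hz
          rw [mem_coe, mem_filter] at hz
          rw [mem_coe, mem_filter, mem_Ioc, hS]
          refine ⟨⟨?_, ?_⟩, z, hz.1, ?_, ?_⟩ <;> dsimp only <;> omega
        · intro z hz z' hz' hzz
          rw [mem_coe, mem_filter] at hz hz'
          simp only at hzz
          omega
      have h3 : x ≤ Q * ct S x := h1.trans (Nat.mul_le_mul_left _ h2)
      have h4 : (x : ℝ) ≤ Q * ct S x := by exact_mod_cast h3
      rw [hα, div_mul_eq_mul_div, one_mul, div_le_iff₀ (by linarith)]
      linarith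
  have hhalf : ∀ x ≤ T, (1 / 2 : ℝ) * x ≤ ct (sm k1 S) x := by
    intro x hx
    refine le_trans ?_ (ct_sm hS0 hα1 hden k1 x hx)
    apply mul_le_mul_of_nonneg_right _ (by positivity)
    linarith
  have hbasis : ∀ n ≤ T, n ∈ sm k S := by
    intro n hn
    obtain ⟨x, hx, y, hy, hxy⟩ := half_basis (zero_mem_sm hS0 k1) hhalf n hn
    have := add_mem_sm (add_mem_sm hx hy) (mem_sm_one hS0)
    rw [hxy, add_zero] at this
    exact this
  have hmult : ∀ m n : ℕ, n ≤ m * T → n ∈ sm (m * k) S := by
    intro m
    induction m with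
    | zero =>
      intro n hn
      rw [zero_mul, Nat.le_zero] at hn
      subst hn
      rw [zero_mul]
      exact zero_mem_sm hS0 0
    | succ m ih =>
      intro n hn
      have e : (m + 1) * k = m * k + k := by ring
      rw [e]
      rw [Nat.succ_mul] at hn
      have h1 := ih (n - min n T) (by omega)
      have h2 := hbasis (min n T) (Nat.min_le_right _ _)
      have h3 := add_mem_sm h1 h2
      have h4 : n - min n T + min n T = n := Nat.sub_add_cancel (Nat.min_le_left _ _)
      rw [h4] at h3
      exact h3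
  -- choose the number of terms
  have ha0' := hA a0 ha0
  have hk1' : 1 ≤ k := by omega
  have ha0pos : 0 < a0 := by omega
  have hka : 0 < k * a0 := Nat.mul_pos hk1' ha0pos
  set m := t / (k * a0) with hm
  have hm1 : k * F ≤ m := by
    rw [hm, Nat.le_div_iff_mul_le hka]
    calc k * F * (k * a0) ≤ k * F * (k * (F * T)) := by
          apply Nat.mul_le_mul_left
          apply Nat.mul_le_mul_left
          exact ha0'.2
      _ = k * F * (k * F) * T := by ring
      _ ≤ t := ht
  have hm2 : m * (k * a0) ≤ t := Nat.div_mul_le_self _ _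
  have hm3 : t - m * (k * a0) ≤ m * T := by
    have h1 : t - m * (k * a0) < k * a0 := by
      have := Nat.div_add_mod' t (k * a0)
      have h2 := Nat.mod_lt t hka
      rw [← hm] at this
      omega
    have h2 : k * a0 ≤ m * T := by
      calc k * a0 ≤ k * (F * T) := Nat.mul_le_mul_left _ ha0'.2
        _ = (k * F) * T := by ring
        _ ≤ m * T := Nat.mul_le_mul_right _ hm1
    omega
  obtain ⟨l, hl1, hl2, hl3⟩ := hmult m _ hm3
  -- replace each `s` by an element of `A`
  have hrep : ∀ l : List ℕ, (∀ y ∈ l, y ∈ S) → ∃ l' : List ℕ, (∀ a ∈ l', a ∈ A) ∧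
      l'.length = l.length ∧ l'.sum ≤ l.length * a0 + l.sum ∧
      l.length * a0 + l.sum ≤ l'.sum + Q * l.length := by
    intro l
    induction l with
    | nil => intro _; exact ⟨[], by simp, rfl, by simp, by simp⟩
    | cons s l ih =>
      intro h
      obtain ⟨l', b1, b2, b3, b4⟩ := ih (fun y hy => h y (List.mem_cons_of_mem _ hy))
      obtain ⟨a, c1, c2, c3⟩ := (hS s).mp (h s (by simp))
      refine ⟨a :: l', ?_, by simp [b2], ?_, ?_⟩
      · intro z hz
        rw [List.mem_cons] at hz
        rcases hz with rfl | hz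
        · exact c1
        · exact b1 z hz
      · simp only [List.sum_cons, List.length_cons]
        rw [Nat.succ_mul]
        omega
      · simp only [List.sum_cons, List.length_cons]
        rw [Nat.succ_mul, Nat.mul_succ]
        omega
  obtain ⟨l', b1, b2, b3, b4⟩ := hrep l hl2
  have e : l.length * a0 + l.sum = t := by
    rw [hl1, hl3]
    have : m * k * a0 = m * (k * a0) := by ring
    rw [this]
    omega
  rw [e] at b3 b4
  refine ⟨l', b1, b3, ?_⟩
  rw [b2]
  exact b4

end H85S
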