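import Pool.Agent.H85S.InsertGood

/-!
Simultaneous surgery: far apart balls around edges of a three-edge-coloured cubic bipartite graph are
replaced by cycles with the same number of outgoing edges.
-/

namespace H85S

open H25G

/-! ### the ring -/

/-- a step on the ring -/
def st {M : ℕ} (i : Fin 3) (p : ZMod M × Bool) : ZMod M × Bool :=
  if i = 1 then (p.1, !p.2) else if p.2 then (p.1 + 1, false) else (p.1 - 1, true)

theorem st_snd {M : ℕ} (i : Fin 3) (p : ZMod M × Bool) : (st i p).2 = !p.2 := by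
  unfold st
  rcases p with ⟨k, e⟩
  by_cases h : i = 1
  · simp [h]
  · cases e <;> simp [h]

theorem st_st {M : ℕ} (i : Fin 3) (p : ZMod M × Bool) : st i (st i p) = p := by
  unfold st
  rcases p with ⟨k, e⟩
  by_cases h : i = 1
  · simp [h]
  · cases e <;> simp [h]

theorem ring_len {M : ℕ} (p : ℕ → ZMod M × Bool) (a : ℕ → Fin 3) (i : ℕ) (hi : 0 < i)
    (h0 : ∀ n < i, a n ≠ 0) (h1 : ∀ n, n + 1 < i → a (n + 1) ≠ a n)
    (h2 : ∀ n < i, p (n + 1) = st (a n) (p n)) (h : p i = p 0) : 2 * M ≤ i := by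
  have hcases : ∀ i j : Fin 3, i ≠ 0 → j ≠ 0 → i ≠ j → (i = 1 ∧ j = 2) ∨ (i = 2 ∧ j = 1) := by
    decide
  have hb : ∀ n ≤ i, (p n).2 = if n % 2 = 1 then !(p 0).2 else (p 0).2 := by
    intro n
    induction n with
    | zero => intro _; simp
    | succ n ih =>
      intro hn
      rw [h2 n (by omega), st_snd, ih (by omega)]
      rcases Nat.mod_two_eq_zero_or_one n with h3 | h3
      · have h4 : (n + 1) % 2 = 1 := by omega
        simp [h3, h4]
      · have h4 : (n + 1) % 2 = 0 := by omega
        simp [h3, h4]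
  have hi2 : i % 2 = 0 := by
    rcases Nat.mod_two_eq_zero_or_one i with h3 | h3
    · exact h3
    · have h4 := hb i le_rfl
      rw [h, if_pos h3] at h4
      cases hh : (p 0).2 <;> rw [hh] at h4 <;> simp at h4
  obtain ⟨d, hd1, hd⟩ : ∃ d : ZMod M, (d = 1 ∨ d = -1) ∧ ∀ t : ℕ, 2 * t ≤ i →
      p (2 * t) = ((p 0).1 + t * d, (p 0).2) ∧ (2 * t < i → a (2 * t) = a 0) := by
    set d : ZMod M := if (a 0 = 1 ∧ (p 0).2 = false) ∨ (a 0 = 2 ∧ (p 0).2 = true) then 1 else -1
      with hdd
    refine ⟨d, ?_, ?_⟩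
    · rw [hdd]
      split_ifs
      · left; rfl
      · right; rfl
    · intro t
      induction t with
      | zero => intro _; simp
      | succ t ih =>
        intro ht
        obtain ⟨g1, g2⟩ := ih (by omega)
        have g2 := g2 (by omega)
        have e3 : 2 * (t + 1) = 2 * t + 1 + 1 := by ring
        have e1 := h2 (2 * t) (by omega)
        have e2 := h2 (2 * t + 1) (by omega)
        have n1 := h1 (2 * t) (by omega)
        rw [e3]
        rcases hcases (a (2 * t)) (a (2 * t + 1)) (h0 _ (by omega)) (h0 _ (by omega)) n1.symm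
          with h3 | h3
        · have h5 : a 0 = 1 := by rw [← g2]; exact h3.1
          refine ⟨?_, ?_⟩
          · rw [e2, e1, g1, h3.1, h3.2]
            cases hb : (p 0).2
            · simp [hdd, h5, hb, st]; ring
            · simp [hdd, h5, hb, st]; ring
          · intro hlt
            rcases hcases (a (2 * t + 1)) (a (2 * t + 1 + 1)) (h0 _ (by omega)) (h0 _ (by omega))
              (h1 _ (by omega)).symm with h6 | h6
            · rw [h6.1] at h3; exact absurd h3.2 (by decide)
            · rw [h6.2, h5]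
        · have h5 : a 0 = 2 := by rw [← g2]; exact h3.1
          refine ⟨?_, ?_⟩
          · rw [e2, e1, g1, h3.1, h3.2]
            cases hb : (p 0).2
            · simp [hdd, h5, hb, st]; ring
            · simp [hdd, h5, hb, st]; ring
          · intro hlt
            rcases hcases (a (2 * t + 1)) (a (2 * t + 1 + 1)) (h0 _ (by omega)) (h0 _ (by omega))
              (h1 _ (by omega)).symm with h6 | h6
            · rw [h6.2, h5]
            · rw [h6.1] at h3; exact absurd h3.2 (by decide)
  obtain ⟨t, ht⟩ : ∃ t, i = 2 * t := ⟨i / 2, by omega⟩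
  have g1 := (hd t (by omega)).1
  rw [← ht, h] at g1
  have h3 : (t : ZMod M) * d = 0 := by
    have := congrArg Prod.fst g1
    simp only at this
    exact left_eq_add.mp this
  have h4 : (t : ZMod M) = 0 := by
    rcases hd1 with h5 | h5
    · rw [h5, mul_one] at h3; exact h3
    · rw [h5, mul_neg, mul_one, neg_eq_zero] at h3; exact h3
  rw [ZMod.natCast_eq_zero_iff] at h4
  have := Nat.le_of_dvd (by omega) h4
  omega

/-! ### the surgery -/

/-- data for a simultaneous surgery -/
structure Surg {X : Type*} (C : Col X) {K : Type*} {M : ℕ} (B : Set X)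
    (o : K × ZMod M × Bool → X) (c : K × ZMod M × Bool → Fin 3) (ρ D : ℕ) : Prop where
  o_notin : ∀ q, o q ∉ B
  back : ∀ q, C.ι (c q) (o q) ∈ B
  inj : ∀ q q', o q = o q' → q = q'
  cover : ∀ x i, x ∉ B → C.ι i x ∈ B → ∃ q, o q = x ∧ c q = i
  side : ∀ k j j', C.side (o (k, j, false)) = !C.side (o (k, j', true))
  tree : ∀ k p p', p ≠ p' → ∃ T, Red T ∧ T.head? = some (c (k, p)) ∧
    T.getLast? = some (c (k, p')) ∧ T.length ≤ 2 * ρ + 3 ∧ C.act T (o (k, p)) = o (k, p')
  far : ∀ q q' u, Red (c q :: u ++ [c q']) → C.act u (o q) = o q' → D ≤ u.length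

section

variable {X : Type*} {C : Col X} {K : Type*} {M : ℕ} {B : Set X}
    {o : K × ZMod M × Bool → X} {c : K × ZMod M × Bool → Fin 3} {ρ D : ℕ}

theorem Surg.side' (H : Surg C B o c ρ D) (i : Fin 3) (k : K) (p : ZMod M × Bool) :
    C.side (o (k, st i p)) = !C.side (o (k, p)) := by
  have h1 := st_snd i p
  rcases hst : st i p with ⟨j', e'⟩
  rw [hst] at h1
  rcases p with ⟨j, e⟩
  simp only at h1
  subst h1
  cases e
  · rw [H.side k j j']
    simp
  · simp only [Bool.not_true]
    rw [H.side k j' j]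

open Classical in
/-- the new graph -/
noncomputable def insm (H : Surg C B o c ρ D) : Port ({x // x ∉ B} ⊕ (K × ZMod M × Bool)) where
  nb z i := match z with
    | Sum.inl x => if h : C.ι i x ∈ B then Sum.inr (H.cover x i x.2 h).choose
        else Sum.inl ⟨C.ι i x, h⟩
    | Sum.inr q => if i = 0 then Sum.inl ⟨o q, H.o_notin q⟩ else Sum.inr (q.1, st i q.2)
  rv z i := match z with
    | Sum.inl x => if C.ι i x ∈ B then 0 else i
    | Sum.inr q => if i = 0 then c q else i
  side z := match z with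
    | Sum.inl x => C.side x
    | Sum.inr q => !C.side (o q)
  nb_nb z i := by
    rcases z with x | q
    · by_cases h : C.ι i x ∈ B
      · have := (H.cover x i x.2 h).choose_spec
        simp only [h, dif_pos, if_true]
        congr 1
        exact Subtype.ext this.1
      · have h2 : C.ι i (C.ι i x) ∉ B := by rw [C.invol]; exact x.2
        simp only [h, h2, dif_neg, not_false_eq_true, if_false]
        congr 1
        apply Subtype.ext
        exact C.invol i x
    · by_cases h0 : i = 0
      · subst h0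
        have h1 := H.back q
        simp only [if_true, h1, dif_pos]
        congr 1
        exact H.inj _ _ (H.cover (o q) (c q) (H.o_notin q) h1).choose_spec.1
      · simp only [h0, if_false, st_st]
  rv_rv z i := by
    rcases z with x | q
    · by_cases h : C.ι i x ∈ B
      · have := (H.cover x i x.2 h).choose_spec
        simp only [h, dif_pos, if_true]
        exact this.2
      · have h2 : C.ι i (C.ι i x) ∉ B := by rw [C.invol]; exact x.2
        simp only [h, h2, dif_neg, not_false_eq_true, if_false]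
    · by_cases h0 : i = 0
      · subst h0
        have h1 := H.back q
        simp only [if_true, h1]
      · simp only [h0, if_false]
  side_nb z i := by
    rcases z with x | q
    · by_cases h : C.ι i x ∈ B
      · have := (H.cover x i x.2 h).choose_spec
        simp only [h, dif_pos]
        rw [this.1]
      · simp only [h, dif_neg, not_false_eq_true]
        exact C.side_ι i x
    · by_cases h0 : i = 0
      · subst h0
        simp
      · simp only [h0, if_false]
        rw [H.side']

variable (H : Surg C B o c ρ D)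

theorem m_inl {x x' : {x // x ∉ B}} {i : Fin 3} (h : (insm H).nb (Sum.inl x) i = Sum.inl x') :
    C.ι i x = x' ∧ (insm H).rv (Sum.inl x) i = i := by
  by_cases h1 : C.ι i x ∈ B
  · simp [insm, h1] at h
  · simp only [insm, h1, dif_neg, not_false_eq_true, Sum.inl.injEq] at h ⊢
    exact ⟨congrArg Subtype.val h, by simp⟩

theorem m_in {x : {x // x ∉ B}} {q : K × ZMod M × Bool} {i : Fin 3}
    (h : (insm H).nb (Sum.inl x) i = Sum.inr q) :
    o q = x ∧ c q = i ∧ (insm H).rv (Sum.inl x) i = 0 := by
  by_cases h1 : C.ι i x ∈ B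
  · simp only [insm, h1, dif_pos, Sum.inr.injEq] at h ⊢
    have := (H.cover x i x.2 h1).choose_spec
    rw [h] at this
    exact ⟨this.1, this.2, by simp⟩
  · simp [insm, h1] at h

theorem m_out {x : {x // x ∉ B}} {q : K × ZMod M × Bool} {i : Fin 3}
    (h : (insm H).nb (Sum.inr q) i = Sum.inl x) :
    i = 0 ∧ o q = x ∧ (insm H).rv (Sum.inr q) i = c q := by
  by_cases h0 : i = 0
  · subst h0
    simp only [insm, if_true, Sum.inl.injEq] at h ⊢
    exact ⟨trivial, congrArg Subtype.val h, trivial⟩
  · exfalso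
    simp [insm, h0] at h

theorem m_ring {q q' : K × ZMod M × Bool} {i : Fin 3}
    (h : (insm H).nb (Sum.inr q) i = Sum.inr q') :
    i ≠ 0 ∧ (insm H).rv (Sum.inr q) i = i ∧ q' = (q.1, st i q.2) := by
  by_cases h0 : i = 0
  · subst h0
    simp [insm] at h
  · simp only [insm, h0, if_false, Sum.inr.injEq] at h ⊢
    exact ⟨h0, trivial, h.symm⟩

/-- a part of a walk inside the rings -/
theorem ring_part {l : ℕ} {f : ℕ → {x // x ∉ B} ⊕ (K × ZMod M × Bool)} {a : ℕ → Fin 3}
    (h : Per (insm H) l f a) (s i : ℕ) (q : ℕ → K × ZMod M × Bool)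
    (hq : ∀ n ≤ i, f (s + n) = Sum.inr (q n)) :
    (∀ n ≤ i, (q n).1 = (q 0).1) ∧ (0 < i → (q i).2 = (q 0).2 → 2 * M ≤ i) := by
  have hs : ∀ n < i, a (s + n) ≠ 0 ∧ (insm H).rv (f (s + n)) (a (s + n)) = a (s + n) ∧
      q (n + 1) = ((q n).1, st (a (s + n)) (q n).2) := by
    intro n hn
    have h1 := h.step (s + n)
    have e : s + n + 1 = s + (n + 1) := by ring
    rw [e, hq n (by omega), hq (n + 1) (by omega)] at h1
    have h2 := m_ring H h1
    rw [hq n (by omega)]
    exact h2
  constructor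
  · intro n
    induction n with
    | zero => intro _; rfl
    | succ n ih =>
      intro hn
      rw [(hs n (by omega)).2.2]
      exact ih (by omega)
  · intro hi he
    apply ring_len (fun n => (q n).2) (fun n => a (s + n)) i hi
    · intro n hn
      exact (hs n hn).1
    · intro n hn
      have h3 := h.nbt (s + n)
      rw [(hs n (by omega)).2.1] at h3
      exact h3
    · intro n hn
      show (q (n + 1)).2 = st (a (s + n)) (q n).2
      rw [(hs n hn).2.2]
    · exact he

/-- from one exit of a ring to the next exit -/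
theorem round {l : ℕ} {f : ℕ → {x // x ∉ B} ⊕ (K × ZMod M × Bool)} {a : ℕ → Fin 3}
    (hl : 0 < l) (h : Per (insm H) l f a) (hM : l < 2 * M) (e : ℕ) (q1 : K × ZMod M × Bool)
    (h1 : f e = Sum.inr q1) (h2 : ∃ x, f (e + 1) = Sum.inl x) :
    ∃ e' q3 w, e < e' ∧ e' ≤ e + l ∧ f e' = Sum.inr q3 ∧ (∃ x, f (e' + 1) = Sum.inl x) ∧
      w ≠ [] ∧ Red (c q1 :: w) ∧ w.getLast? = some (c q3) ∧ C.act w (o q1) = o q3 ∧
      w.length ≤ (e' - e) + 2 * ρ ∧ D + 3 ≤ e' - e ∧
      (∀ e'', e < e'' → e'' < e' → ¬ ((∃ q, f e'' = Sum.inr q) ∧ ∃ x, f (e'' + 1) = Sum.inl x)) := by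
  classical
  -- the first return to a ring
  have hex : ∃ j, ∃ q, f (e + 1 + j) = Sum.inr q := by
    refine ⟨l - 1, q1, ?_⟩
    have : e + 1 + (l - 1) = e + l := by omega
    rw [this, h.perf, h1]
  set j := Nat.find hex with hj
  obtain ⟨q2, hq2⟩ := Nat.find_spec hex
  have hjl : j ≤ l - 1 := Nat.find_min' hex (by
    refine ⟨q1, ?_⟩
    have : e + 1 + (l - 1) = e + l := by omega
    rw [this, h.perf, h1])
  have hj1 : 1 ≤ j := by
    by_contra hcon
    have : j = 0 := by omega
    rw [← hj, this] at hq2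
    obtain ⟨x, hx⟩ := h2
    rw [add_zero, hx] at hq2
    exact absurd hq2 (by simp)
  have hmin : ∀ i < j, ∃ x, f (e + 1 + i) = Sum.inl x := by
    intro i hi
    have h3 := Nat.find_min hex hi
    push Not at h3
    rcases hf : f (e + 1 + i) with x | q
    · exact ⟨x, rfl⟩
    · exact absurd hf (h3 q)
  rw [← hj] at hq2
  -- the sequence of outer vertices
  set y : ℕ → X := fun n => match f n with
    | Sum.inl x => x
    | Sum.inr q => o q with hy
  have hyf : ∀ n x, f n = Sum.inl x → y n = x := by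
    intro n x hx
    simp only [hy, hx]
  -- leaving the ring
  obtain ⟨x1, hx1⟩ := h2
  have e1 := h.step e
  rw [h1, hx1] at e1
  have e1' := m_out H e1
  have n1 := h.nbt e
  rw [h1, e1'.2.2] at n1
  -- entering the next ring
  obtain ⟨x2, hx2⟩ := hmin (j - 1) (by omega)
  have hidx : e + 1 + (j - 1) + 1 = e + 1 + j := by omega
  have e2 := h.step (e + 1 + (j - 1))
  rw [hx2, hidx, hq2] at e2
  have e2' := m_in H e2
  have n2 := h.nbt (e + 1 + (j - 1))
  rw [hx2, e2'.2.2, hidx] at n2
  -- the inner steps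
  have hin : ∀ n, e + 1 ≤ n → n < e + 1 + (j - 1) →
      C.ι (a n) (y n) = y (n + 1) ∧ a (n + 1) ≠ a n := by
    intro n h3 h4
    obtain ⟨i, rfl⟩ : ∃ i, n = e + 1 + i := ⟨n - (e + 1), by omega⟩
    obtain ⟨u, hu⟩ := hmin i (by omega)
    obtain ⟨v, hv⟩ := hmin (i + 1) (by omega)
    have hv' : f (e + 1 + i + 1) = Sum.inl v := hv
    have h5 := h.step (e + 1 + i)
    rw [hu, hv'] at h5
    have h6 := m_inl H h5
    rw [hyf _ _ hu, hyf _ _ hv']
    refine ⟨h6.1, ?_⟩
    have h7 := h.nbt (e + 1 + i)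
    rw [hu, h6.2] at h7
    exact h7
  set v := W a (e + 1) (j - 1) with hv
  have hvl : v.length = j - 1 := W_length _ _ _
  have hvact : C.act v (o q1) = o q2 := by
    have h3 := act_W C a y (j - 1) (e + 1) (fun n h3 h4 => (hin n h3 h4).1)
    rw [hyf _ _ hx1, hyf _ _ hx2, ← e1'.2.1, ← e2'.1] at h3
    exact h3
  have hvred0 : Red (W a (e + 1) j) := by
    apply red_W
    intro n h3 h4
    exact (hin n h3 (by omega)).2
  have hvsnoc : W a (e + 1) j = v ++ [c q2] := by
    have : j = (j - 1) + 1 := by omega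
    rw [this, W_snoc, ← hv, e2'.2.1]
  have hvred : Red (c q1 :: (v ++ [c q2])) := by
    rw [← hvsnoc]
    unfold Red at hvred0 ⊢
    rw [List.isChain_cons]
    refine ⟨?_, hvred0⟩
    intro z hz
    rw [W_head a _ _ z hz]
    exact n1.symm
  -- the walk on the ring
  have hex2 : ∃ i, ∃ x, f (e + 1 + j + i + 1) = Sum.inl x := by
    refine ⟨l - 1 - j, x1, ?_⟩
    have : e + 1 + j + (l - 1 - j) + 1 = e + 1 + l := by omega
    rw [this, h.perf, hx1]
  set i := Nat.find hex2 with hi
  obtain ⟨x3, hx3⟩ := Nat.find_spec hex2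
  rw [← hi] at hx3
  have hil : i ≤ l - 1 - j := Nat.find_min' hex2 (by
    refine ⟨x1, ?_⟩
    have : e + 1 + j + (l - 1 - j) + 1 = e + 1 + l := by omega
    rw [this, h.perf, hx1])
  have hring : ∀ n ≤ i, ∃ q, f (e + 1 + j + n) = Sum.inr q := by
    intro n hn
    rcases Nat.eq_zero_or_pos n with h3 | h3
    · subst h3
      exact ⟨q2, hq2⟩
    · have h4 := Nat.find_min hex2 (m := n - 1) (by omega)
      push Not at h4
      have e3 : e + 1 + j + (n - 1) + 1 = e + 1 + j + n := by omega
      rw [e3] at h4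
      rcases hf : f (e + 1 + j + n) with x | q
      · exact absurd hf (h4 x)
      · exact ⟨q, rfl⟩
  have hch : ∀ n, ∃ q, n ≤ i → f (e + 1 + j + n) = Sum.inr q := by
    intro n
    by_cases hn : n ≤ i
    · obtain ⟨q, hq⟩ := hring n hn
      exact ⟨q, fun _ => hq⟩
    · exact ⟨q1, fun h => absurd h hn⟩
  choose q hq using hch
  have hq0 : q 0 = q2 := by
    have h3 := hq 0 (by omega)
    rw [add_zero, hq2] at h3
    exact (Sum.inr_injective h3).symm
  -- the exit uses port `0`, the entry too
  have e3 := h.step (e + 1 + j + i)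
  rw [hq i le_rfl, hx3] at e3
  have e3' := m_out H e3
  have hi1 : 0 < i := by
    by_contra hcon
    have : i = 0 := by omega
    rw [this, add_zero] at e3'
    exact n2 e3'.1
  obtain ⟨hk, hp⟩ := ring_part H h (e + 1 + j) i q hq
  have hpne : (q 0).2 ≠ (q i).2 := by
    intro h3
    have := hp hi1 h3.symm
    omega
  obtain ⟨T, hT1, hT2, hT3, hT4, hT5⟩ := H.tree (q 0).1 (q 0).2 (q i).2 hpne
  have hqi : ((q 0).1, (q i).2) = q i := by
    rw [← hk i le_rfl]
  have hq0' : ((q 0).1, (q 0).2) = q2 := by rw [hq0]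
  rw [hqi] at hT3 hT5
  rw [hq0'] at hT2 hT5
  obtain ⟨T', rfl⟩ : ∃ T', T = c q2 :: T' := by
    cases T with
    | nil => simp at hT2
    | cons b T' =>
      simp at hT2
      exact ⟨T', by rw [hT2]⟩
  refine ⟨e + 1 + j + i, q i, v ++ c q2 :: T', by omega, by omega, hq i le_rfl, ⟨x3, hx3⟩, by simp,
    ?_, ?_, ?_, ?_, ?_, ?_⟩
  · unfold Red at hvred hT1 ⊢
    rw [← List.cons_append, List.isChain_append] at hvred ⊢
    refine ⟨hvred.1, hT1, ?_⟩
    intro x hx z hz
    exact hvred.2.2 x hx z (by simpa using hz)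
  · rw [List.getLast?_append, hT3]
    rfl
  · rw [Col.act_append, hvact, hT5]
  · rw [List.length_append, hvl]
    omega
  · have h3 := H.far q1 q2 v hvred hvact
    omega
  · rintro e'' h3 h4 ⟨⟨q', hq'⟩, x', hx'⟩
    obtain ⟨t, rfl⟩ : ∃ t, e'' = e + 1 + t := ⟨e'' - (e + 1), by omega⟩
    rcases Nat.lt_or_ge t j with h5 | h5
    · obtain ⟨x, hx⟩ := hmin t h5
      rw [hx] at hq'
      exact absurd hq' (by simp)
    · obtain ⟨n, rfl⟩ : ∃ n, t = j + n := ⟨t - j, by omega⟩
      have h6 := Nat.find_min hex2 (m := n) (by omega)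
      apply h6
      refine ⟨x', ?_⟩
      rw [← hx']
      congr 1
      omega

end

end H85S
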