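import Pool.Agent.H85S.Surg

/-! the girth of the graph `insm` and the construction of the data `Surg` -/

namespace H85S

open H25G

section

variable {X : Type*} {C : Col X} {K : Type*} {M : ℕ} {B : Set X}
    {o : K × ZMod M × Bool → X} {c : K × ZMod M × Bool → Fin 3} {ρ D : ℕ}

variable (H : Surg C B o c ρ D)

/-- all the exits of a period -/
theorem rounds {l : ℕ} {f : ℕ → {x // x ∉ B} ⊕ (K × ZMod M × Bool)} {a : ℕ → Fin 3}
    (hl : 0 < l) (h : Per (insm H) l f a) (hM : l < 2 * M) (e0 : ℕ) (q0 : K × ZMod M × Bool)
    (h0 : f e0 = Sum.inr q0) (h0' : ∃ x, f (e0 + 1) = Sum.inl x) :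
    ∀ r e, e + r = e0 + l → ∀ q, f e = Sum.inr q → (∃ x, f (e + 1) = Sum.inl x) →
      ∃ w v, Red (c q :: w) ∧ (0 < r → w ≠ []) ∧ (w ≠ [] → w.getLast? = some (c q0)) ∧
        C.act w (o q) = o q0 ∧ w.length ≤ r + 2 * ρ * v ∧ v * (D + 3) ≤ r := by
  intro r
  induction r using Nat.strong_induction_on with
  | _ r ih =>
    intro e he q hq hx
    rcases Nat.eq_zero_or_pos r with hr | hr
    · subst hr
      have hqq : q = q0 := by
        rw [add_zero] at he
        rw [he, h.perf, h0] at hq
        exact (Sum.inr_injective hq).symm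
      subst hqq
      exact ⟨[], 0, List.isChain_singleton _, by simp, by simp, rfl, by simp, by simp⟩
    · obtain ⟨e', q3, w, g1, g2, g3, g4, g5, g6, g7, g8, g9, g10, g11⟩ :=
        round H hl h hM e q hq hx
      have hle : e' ≤ e0 + l := by
        by_contra hcon
        apply g11 (e0 + l) (by omega) (by omega)
        refine ⟨⟨q0, by rw [h.perf, h0]⟩, ?_⟩
        obtain ⟨x, hx⟩ := h0'
        refine ⟨x, ?_⟩
        have : e0 + l + 1 = e0 + 1 + l := by ring
        rw [this, h.perf, hx]
      obtain ⟨w', v, k1, k2, k3, k4, k5, k6⟩ := ih (e0 + l - e') (by omega) e' (by omega) q3 g3 g4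
      refine ⟨w ++ w', v + 1, ?_, ?_, ?_, ?_, ?_, ?_⟩
      · unfold Red at g6 k1 ⊢
        rw [List.isChain_cons] at k1
        rw [← List.cons_append, List.isChain_append]
        refine ⟨g6, k1.2, ?_⟩
        intro x hx z hz
        have hx' : x = c q3 := by
          cases w with
          | nil => exact absurd rfl g5
          | cons b w =>
            rw [List.getLast?_cons_cons] at hx
            rw [g7] at hx
            simpa using hx.symm
        rw [hx']
        exact k1.1 z hz
      · intro _
        simp [g5]
      · intro _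
        by_cases hw' : w' = []
        · subst hw'
          rw [List.append_nil, g7]
          rw [Col.act_nil] at k4
          rw [H.inj _ _ k4]
        · rw [List.getLast?_append, k3 hw']
          rfl
      · rw [Col.act_append, g8, k4]
      · rw [List.length_append]
        have : 2 * ρ * (v + 1) = 2 * ρ * v + 2 * ρ := by ring
        omega
      · have : (v + 1) * (D + 3) = v * (D + 3) + (D + 3) := by ring
        omega

theorem insm_girth {g g' : ℕ} (hg : C.Girth g) (h1 : g' ≤ 2 * M)
    (h2 : ∀ l v, g ≤ l + 2 * ρ * v → v * (D + 3) ≤ l → g' ≤ l) : (insm H).PGirth g' := by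
  intro l f a hl h
  by_cases hM : 2 * M ≤ l
  · omega
  by_cases hA : ∀ n, ∃ x, f n = Sum.inl x
  · choose x hx using hA
    have hs : ∀ n, C.ι (a n) (x n) = x (n + 1) ∧ a (n + 1) ≠ a n := by
      intro n
      have h3 := h.step n
      rw [hx, hx] at h3
      have h4 := m_inl H h3
      refine ⟨h4.1, ?_⟩
      have h5 := h.nbt n
      rw [hx, h4.2] at h5
      exact h5
    have h3 := act_W C a (fun n => (x n : X)) l 0 (fun n _ _ => (hs n).1)
    have h4 := red_W a l 0 (fun n _ _ => (hs n).2)
    have h5 : (x (0 + l) : X) = x 0 := by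
      have h6 := h.perf 0
      rw [hx, hx] at h6
      exact congrArg Subtype.val (Sum.inl_injective h6)
    rw [h5] at h3
    apply h2 l 0 _ (by simp)
    by_contra hcon
    refine hg _ ?_ h4 (by rw [W_length]; omega) _ h3
    intro h6
    have := W_length a l 0
    rw [h6] at this
    simp at this
    omega
  · push Not at hA
    obtain ⟨n1, hn1⟩ := hA
    obtain ⟨q1, hq1⟩ : ∃ q, f n1 = Sum.inr q := by
      rcases hf : f n1 with x | q
      · exact absurd hf (hn1 x)
      · exact ⟨q, rfl⟩
    by_cases hB : ∀ n, ∃ q, f n = Sum.inr q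
    · exfalso
      choose q hq using hB
      have h3 := (ring_part H h 0 l (fun n => q n) (fun n _ => by rw [zero_add]; exact hq n)).2 hl (by
        have h3 := h.perf 0
        rw [zero_add, hq, hq] at h3
        rw [Sum.inr_injective h3])
      omega
    · -- find an exit
      push Not at hB
      obtain ⟨n2, hn2⟩ := hB
      have hperk : ∀ k n, f (n + k * l) = f n := by
        intro k
        induction k with
        | zero => intro n; simp
        | succ k ih =>
          intro n
          have : n + (k + 1) * l = n + k * l + l := by ring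
          rw [this, h.perf, ih]
      have hex : ∃ m, ∃ x, f (n1 + 1 + m) = Sum.inl x := by
        obtain ⟨k, hk⟩ : ∃ k, n1 + 1 ≤ n2 + k * l := by
          refine ⟨n1 + 1, ?_⟩
          have : n1 + 1 ≤ (n1 + 1) * l := Nat.le_mul_of_pos_right _ hl
          omega
        refine ⟨n2 + k * l - (n1 + 1), ?_⟩
        have e : n1 + 1 + (n2 + k * l - (n1 + 1)) = n2 + k * l := by omega
        rw [e, hperk]
        rcases hf : f n2 with x | q
        · exact ⟨x, rfl⟩
        · exact absurd hf (hn2 q)
      classical
      set m := Nat.find hex with hm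
      obtain ⟨x, hx⟩ := Nat.find_spec hex
      rw [← hm] at hx
      have hprev : ∃ q, f (n1 + m) = Sum.inr q := by
        rcases Nat.eq_zero_or_pos m with h0 | h0
        · rw [h0, add_zero]
          exact ⟨q1, hq1⟩
        · have h3 := Nat.find_min hex (m := m - 1) (by omega)
          push Not at h3
          have e : n1 + 1 + (m - 1) = n1 + m := by omega
          rw [e] at h3
          rcases hf : f (n1 + m) with x | q
          · exact absurd hf (h3 x)
          · exact ⟨q, rfl⟩
      have e : n1 + 1 + m = n1 + m + 1 := by ring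
      rw [e] at hx
      obtain ⟨q0, hq0⟩ := hprev
      obtain ⟨w, v, k1, k2, k3, k4, k5, k6⟩ := rounds H hl h (by omega) (n1 + m) q0 hq0 ⟨x, hx⟩ l
        (n1 + m) rfl q0 hq0 ⟨x, hx⟩
      apply h2 l v _ k6
      by_contra hcon
      exact hg w (k2 hl) (k1.of_eq [c q0] w [] (by simp)) (by omega) _ k4

end

/-! ### words -/

theorem first_diff (w : List (Fin 3)) : ∀ w' : List (Fin 3), w.length = w'.length → w ≠ w' →
    ∃ p i a j b, w = p ++ i :: a ∧ w' = p ++ j :: b ∧ i ≠ j := by
  induction w with
  | nil =>
    intro w' h hne
    cases w' with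
    | nil => exact absurd rfl hne
    | cons j b => simp at h
  | cons i a ih =>
    intro w' h hne
    cases w' with
    | nil => simp at h
    | cons j b =>
      by_cases hij : i = j
      · subst hij
        obtain ⟨p, i', a', j', b', h1, h2, h3⟩ := ih b (by simpa using h) (by
          rintro rfl
          exact hne rfl)
        exact ⟨i :: p, i', a', j', b', by rw [h1]; rfl, by rw [h2]; rfl, h3⟩
      · exact ⟨[], i, a, j, b, rfl, rfl, hij⟩

theorem wd_getLast {s : List Bool} (hs : s ≠ []) : (wd 0 s).getLast? = some (lst s) := by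
  obtain ⟨s1, h1, _⟩ := wd_split hs
  rw [h1]
  simp

section

variable {X : Type*} {C : Col X}

/-- the path in a ball between two outer vertices -/
theorem tree_path (x0 : X) {ρ : ℕ} {e e' : Bool} {s s' : List Bool} (hs : s.length = ρ + 1)
    (hs' : s'.length = ρ + 1) (hne : ¬ (e = e' ∧ s = s')) :
    ∃ T, Red T ∧ T.head? = some (lst s) ∧ T.getLast? = some (lst s') ∧ T.length ≤ 2 * ρ + 3 ∧
      C.act T (vt C x0 e s) = vt C x0 e' s' := by
  have hsn : s ≠ [] := by rintro rfl; simp at hs
  have hsn' : s' ≠ [] := by rintro rfl; simp at hs'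
  have hl : (wd 0 s).length = ρ + 1 := by rw [wd_length, hs]
  have hl' : (wd 0 s').length = ρ + 1 := by rw [wd_length, hs']
  have hr := wd_red s 0
  have hr' := wd_red s' 0
  by_cases he : e = e'
  · subst he
    have hss : s ≠ s' := fun h => hne ⟨rfl, h⟩
    obtain ⟨p, i, a, j, b, h1, h2, h3⟩ := first_diff (wd 0 s) (wd 0 s') (by rw [hl, hl'])
      (fun h => hss (wd_inj s s' 0 h))
    refine ⟨(i :: a).reverse ++ (j :: b), ?_, ?_, ?_, ?_, ?_⟩
    · rw [h1] at hr
      rw [h2] at hr'
      unfold Red at hr hr' ⊢
      rw [List.isChain_append] at hr hr'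
      rw [List.isChain_append, List.isChain_reverse]
      refine ⟨hr.2.1.imp fun _ _ h => h.symm, hr'.2.1, ?_⟩
      intro x hx z hz
      rw [List.getLast?_reverse] at hx
      simp at hx hz
      rw [← hx, ← hz]
      exact h3
    · have h4 := wd_getLast hsn
      rw [h1, List.getLast?_append] at h4
      rw [List.head?_append, List.head?_reverse]
      cases hh : (i :: a).getLast? with
      | none => simp at hh
      | some z =>
        rw [hh] at h4
        simpa using h4
    · have h4 := wd_getLast hsn'
      rw [h2, List.getLast?_append] at h4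
      rw [List.getLast?_append]
      cases hh : (j :: b).getLast? with
      | none => simp at hh
      | some z =>
        rw [hh] at h4
        simpa using h4
    · rw [h1] at hl
      rw [h2] at hl'
      rw [List.length_append] at hl hl' ⊢
      rw [List.length_reverse]
      omega
    · unfold vt
      rw [h1, h2, Col.act_append, Col.act_append, Col.act_reverse, Col.act_append]
  · have hrr : rt C x0 e' = C.ι 0 (rt C x0 e) := by
      rw [rt_not]
      congr 1
      cases e <;> cases e' <;> simp at he ⊢
    refine ⟨(wd 0 s).reverse ++ (0 :: wd 0 s'), ?_, ?_, ?_, ?_, ?_⟩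
    · unfold Red at hr hr' ⊢
      rw [List.isChain_append, List.isChain_reverse, List.isChain_cons]
      refine ⟨hr.imp fun _ _ h => h.symm, ⟨fun z hz => (wd_head s' 0 z hz).symm, hr'⟩, ?_⟩
      intro x hx z hz
      rw [List.getLast?_reverse] at hx
      simp only [List.head?_cons, Option.mem_def, Option.some.injEq] at hz
      subst hz
      exact wd_head s 0 x hx
    · rw [List.head?_append, List.head?_reverse, wd_getLast hsn]
      rfl
    · have h4 := wd_getLast hsn'
      rw [List.getLast?_append]
      cases hw : wd 0 s' with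
      | nil => rw [hw] at hl'; simp at hl'
      | cons z w =>
        rw [hw] at h4
        rw [List.getLast?_cons_cons, h4]
        rfl
    · rw [List.length_append, List.length_reverse, List.length_cons, hl, hl']
      omega
    · unfold vt
      rw [Col.act_append, Col.act_reverse, Col.act_cons, hrr]

/-- a reduced walk between two outer vertices of one ball is long -/
theorem same_far (x0 : X) {g ρ : ℕ} (hg : C.Girth g) {e e' : Bool} {s s' : List Bool}
    (hs : s.length = ρ + 1) (hs' : s'.length = ρ + 1) {u : List (Fin 3)}
    (hu : Red (lst s :: u ++ [lst s'])) (hact : C.act u (vt C x0 e s) = vt C x0 e' s') :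
    g ≤ u.length + 2 * ρ + 3 := by
  have hsn : s ≠ [] := by rintro rfl; simp at hs
  have hsn' : s' ≠ [] := by rintro rfl; simp at hs'
  have hl : (wd 0 s).length = ρ + 1 := by rw [wd_length, hs]
  have hl' : (wd 0 s').length = ρ + 1 := by rw [wd_length, hs']
  have hr := wd_red s 0
  have hr' := wd_red s' 0
  -- the long word
  have hU : Red (wd 0 s ++ (u ++ (wd 0 s').reverse)) := by
    have h1 : Red (u ++ (wd 0 s').reverse) := by
      have h2 : Red (u ++ [lst s']) := hu.of_eq [lst s] _ [] (by simp)
      unfold Red at h2 hr' ⊢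
      rw [List.isChain_append] at h2 ⊢
      rw [List.isChain_reverse]
      refine ⟨h2.1, hr'.imp fun _ _ h => h.symm, ?_⟩
      intro x hx z hz
      rw [List.head?_reverse, wd_getLast hsn'] at hz
      exact h2.2.2 x hx z (by simpa using hz)
    unfold Red at h1 hr hu ⊢
    rw [List.isChain_append]
    refine ⟨hr, h1, ?_⟩
    intro x hx z hz
    rw [wd_getLast hsn] at hx
    have hx' : x = lst s := by simpa using hx.symm
    rw [hx']
    rw [List.cons_append, List.isChain_cons] at hu
    apply hu.1
    cases u with
    | nil =>
      rw [List.nil_append, List.head?_reverse, wd_getLast hsn'] at hz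
      simpa using hz
    | cons b u => simpa using hz
  have hUact : C.act (wd 0 s ++ (u ++ (wd 0 s').reverse)) (rt C x0 e) = rt C x0 e' := by
    rw [Col.act_append, Col.act_append]
    have h3 : C.act (wd 0 s) (rt C x0 e) = vt C x0 e s := rfl
    have h4 : vt C x0 e' s' = C.act (wd 0 s') (rt C x0 e') := rfl
    rw [h3, hact, h4, Col.act_reverse]
  have hUl : (wd 0 s ++ (u ++ (wd 0 s').reverse)).length = 2 * (ρ + 1) + u.length := by
    simp [hl, hl']
    ring
  have hUne : wd 0 s ++ (u ++ (wd 0 s').reverse) ≠ [] := by
    intro h3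
    rw [h3] at hUl
    simp at hUl
    omega
  by_contra hcon
  by_cases hee : e = e'
  · rw [← hee] at hUact
    exact hg _ hUne hU (by omega) _ hUact
  · have hrr : rt C x0 e = C.ι 0 (rt C x0 e') := by
      rw [rt_not]
      congr 1
      cases e <;> cases e' <;> simp at hee ⊢
    refine hg (wd 0 s ++ (u ++ (wd 0 s').reverse) ++ [0]) (by simp) ?_ (by
      rw [List.length_append, hUl]
      simp
      omega) (rt C x0 e) ?_
    · unfold Red at hU ⊢
      rw [List.isChain_append]
      refine ⟨hU, List.isChain_singleton _, ?_⟩
      intro x hx z hz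
      simp only [List.head?_cons, Option.mem_def, Option.some.injEq] at hz
      subst hz
      apply wd_head s' 0 x
      have h3 : (wd 0 s ++ (u ++ (wd 0 s').reverse)).getLast? = (wd 0 s').head? := by
        rw [List.getLast?_append, List.getLast?_append, List.getLast?_reverse]
        cases hw2' : wd 0 s' with
        | nil => rw [hw2'] at hl'; simp at hl'
        | cons b w => simp
      rw [← h3]
      exact hx
    · rw [Col.act_append, hUact, Col.act_cons, Col.act_nil, ← hrr]

end

end H85S
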