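import Pool.Agent.H85S.SurgGirth

/-! many simultaneous insertions: `Good g n` gives `Good g' (n + 2h)` -/

namespace H85S

open H25G

/-! ### choosing the roots -/

section

variable {X : Type*} [DecidableEq X]

/-- endpoints of the words of length at most `L` -/
def AL (C : Col X) : ℕ → X → Finset X
  | 0, x => {x}
  | L + 1, x => insert x (Finset.univ.biUnion fun i => AL C L (C.ι i x))

theorem AL_card (C : Col X) (L : ℕ) (x : X) : (AL C L x).card ≤ 4 ^ L := by
  induction L generalizing x with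
  | zero => simp [AL]
  | succ L ih =>
    rw [AL]
    have h1 := Finset.card_insert_le x (Finset.univ.biUnion fun i => AL C L (C.ι i x))
    have h2 : (Finset.univ.biUnion fun i => AL C L (C.ι i x)).card ≤
        (Finset.univ : Finset (Fin 3)).card * 4 ^ L :=
      Finset.card_biUnion_le_card_mul _ _ _ (fun i _ => ih (C.ι i x))
    have h3 : (Finset.univ : Finset (Fin 3)).card = 3 := by simp
    rw [h3] at h2
    have h4 : 4 ^ (L + 1) = 4 * 4 ^ L := by ring
    have h5 : 1 ≤ 4 ^ L := Nat.one_le_pow _ _ (by norm_num)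
    omega

theorem mem_AL (C : Col X) (w : List (Fin 3)) : ∀ L x, w.length ≤ L → C.act w x ∈ AL C L x := by
  induction w with
  | nil =>
    intro L x _
    cases L <;> simp [AL]
  | cons i w ih =>
    intro L x hl
    cases L with
    | zero => simp at hl
    | succ L =>
      rw [AL, Finset.mem_insert, Finset.mem_biUnion]
      right
      exact ⟨i, Finset.mem_univ _, ih L _ (by simpa using hl)⟩

end

theorem exists_roots {X : Type*} [Finite X] (C : Col X) (L : ℕ) : ∀ h : ℕ,
    h * 4 ^ L ≤ Nat.card X → ∃ r : Fin h → X, ∀ k k', k ≠ k' → ∀ w : List (Fin 3), w.length ≤ L →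
      C.act w (r k) ≠ r k' := by
  classical
  have := Fintype.ofFinite X
  intro h
  induction h with
  | zero => intro _; exact ⟨fun k => k.elim0, fun k => k.elim0⟩
  | succ h ih =>
    intro hh
    have h4 : 1 ≤ 4 ^ L := Nat.one_le_pow _ _ (by norm_num)
    have h5 : (h + 1) * 4 ^ L = h * 4 ^ L + 4 ^ L := by ring
    obtain ⟨r, hr⟩ := ih (by omega)
    obtain ⟨x, hx⟩ : ∃ x, x ∉ Finset.univ.biUnion fun k : Fin h => AL C L (r k) := by
      by_contra hcon
      push Not at hcon
      have h6 : (Finset.univ.biUnion fun k : Fin h => AL C L (r k)) = Finset.univ := by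
        ext x
        simp only [Finset.mem_univ, iff_true]
        exact hcon x
      have h7 : (Finset.univ.biUnion fun k : Fin h => AL C L (r k)).card ≤
          (Finset.univ : Finset (Fin h)).card * 4 ^ L :=
        Finset.card_biUnion_le_card_mul _ _ _ (fun k _ => AL_card C L (r k))
      rw [h6, Finset.card_univ, Finset.card_univ, Fintype.card_fin, ← Nat.card_eq_fintype_card] at h7
      omega
    have hx' : ∀ k : Fin h, ∀ w : List (Fin 3), w.length ≤ L → C.act w (r k) ≠ x := by
      intro k w hw hc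
      apply hx
      rw [Finset.mem_biUnion]
      exact ⟨k, Finset.mem_univ _, by rw [← hc]; exact mem_AL C w L _ hw⟩
    refine ⟨Fin.snoc r x, ?_⟩
    intro k k'
    induction k using Fin.lastCases with
    | last =>
      induction k' using Fin.lastCases with
      | last => intro h; exact absurd rfl h
      | cast k' =>
        intro _ w hw hc
        rw [Fin.snoc_last, Fin.snoc_castSucc] at hc
        apply hx' k' w.reverse (by simpa using hw)
        rw [← hc, Col.act_reverse]
    | cast k =>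
      induction k' using Fin.lastCases with
      | last =>
        intro _ w hw
        rw [Fin.snoc_last, Fin.snoc_castSucc]
        exact hx' k w hw
      | cast k' =>
        intro hne w hw
        rw [Fin.snoc_castSucc, Fin.snoc_castSucc]
        exact hr k k' (fun h => hne (by rw [h])) w hw

/-! ### separated balls -/

section

variable {X : Type*} {C : Col X} {K : Type*} {r : K → X} {L : ℕ}
  (hr : ∀ k k', k ≠ k' → ∀ w : List (Fin 3), w.length ≤ L → C.act w (r k) ≠ r k')

include hr in
theorem sep_vt {k k' : K} {e e' : Bool} {s s' : List Bool} {u : List (Fin 3)}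
    (h : C.act u (vt C (r k) e s) = vt C (r k') e' s') (hl : u.length + s.length + s'.length + 2 ≤ L) :
    k = k' := by
  by_contra hne
  have p1 : ∃ p : List (Fin 3), p.length ≤ 1 ∧ C.act p (r k) = rt C (r k) e := by
    cases e
    · exact ⟨[], by simp, rfl⟩
    · exact ⟨[0], by simp, rfl⟩
  have p2 : ∃ p : List (Fin 3), p.length ≤ 1 ∧ C.act p (rt C (r k') e') = r k' := by
    cases e'
    · exact ⟨[], by simp, rfl⟩
    · exact ⟨[0], by simp, C.invol 0 _⟩
  obtain ⟨p, hp, hp'⟩ := p1
  obtain ⟨q, hq, hq'⟩ := p2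
  apply hr k k' hne (p ++ (wd 0 s ++ (u ++ ((wd 0 s').reverse ++ q))))
  · simp only [List.length_append, List.length_reverse, wd_length]
    omega
  · rw [Col.act_append, Col.act_append, Col.act_append, Col.act_append, hp']
    have h3 : C.act (wd 0 s) (rt C (r k) e) = vt C (r k) e s := rfl
    have h4 : vt C (r k') e' s' = C.act (wd 0 s') (rt C (r k') e') := rfl
    rw [h3, h, h4, Col.act_reverse, hq']

include hr in
theorem surg_of {g ρ D M : ℕ} (hg : C.Girth g) (hρ : 2 * ρ + 4 ≤ g) (hD : 1 ≤ D)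
    (hL : D + 2 * ρ + 3 ≤ L) (hDg : D + 2 * ρ + 3 ≤ g)
    (E : ZMod M ≃ {s : List Bool // s.length = ρ + 1}) :
    Surg C {x | ∃ k, InB C (r k) ρ x}
      (fun q : K × ZMod M × Bool => vt C (r q.1) q.2.2 (E q.2.1)) (fun q => lst (E q.2.1)) ρ D where
  o_notin := by
    rintro ⟨k, j, e⟩ ⟨k', e', s', h1, h2⟩
    have hk : k' = k := sep_vt hr (u := []) h2 (by
      have := (E j).2
      simp only [List.length_nil]
      omega)
    subst hk
    exact outer_notin C (r k') hg hρ e (E j).2 ⟨e', s', h1, h2⟩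
  back := by
    rintro ⟨k, j, e⟩
    exact ⟨k, back_in C (r k) e (E j).2⟩
  inj := by
    rintro ⟨k, j, e⟩ ⟨k', j', e'⟩ h
    simp only at h
    have hk : k = k' := sep_vt hr (u := []) h (by
      rw [(E j).2, (E j').2]
      simp only [List.length_nil]
      omega)
    subst hk
    have h3 := vt_inj C (r k) hg (by
      rw [(E j).2, (E j').2]
      omega) h
    have h4 : j = j' := E.injective (Subtype.ext h3.2)
    rw [h3.1, h4]
  cover := by
    rintro x i hx ⟨k, h⟩
    obtain ⟨e, s, h1, h2, h3⟩ := exists_pend C (r k) (fun h' => hx ⟨k, h'⟩) h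
    refine ⟨(k, E.symm ⟨s, h1⟩, e), ?_, ?_⟩
    · simpa using h2
    · simpa using h3
  side := by
    intro k j j'
    simp only
    rw [side_vt C (r k) false true (s := E j) (s' := E j') ((E j).2.trans (E j').2.symm)]
    simp
  tree := by
    rintro k ⟨j, e⟩ ⟨j', e'⟩ hne
    apply tree_path (r k) (E j).2 (E j').2
    rintro ⟨h1, h2⟩
    apply hne
    have h3 : e = e' := h1
    rw [h3, E.injective (Subtype.ext h2)]
  far := by
    rintro ⟨k, j, e⟩ ⟨k', j', e'⟩ u hu hact
    simp only at hu hact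
    by_cases hk : k = k'
    · subst hk
      have := same_far (r k) hg (E j).2 (E j').2 hu hact
      omega
    · by_contra hcon
      apply hk
      apply sep_vt hr hact
      rw [(E j).2, (E j').2]
      omega

end

/-! ### counting -/

theorem balls_card {X : Type*} [Finite X] {C : Col X} {h : ℕ} {r : Fin h → X} {L : ℕ}
    (hr : ∀ k k', k ≠ k' → ∀ w : List (Fin 3), w.length ≤ L → C.act w (r k) ≠ r k') {g ρ : ℕ}
    (hg : C.Girth g) (hρ : 2 * ρ + 4 ≤ g) (hL : 2 * ρ + 2 ≤ L) :
    {x | ∃ k, InB C (r k) ρ x}.ncard + 2 * h = h * 2 ^ (ρ + 2) := by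
  classical
  have h1 : {x | ∃ k, InB C (r k) ρ x} = ⋃ k, {x | InB C (r k) ρ x} := by
    ext x
    simp
  have h2 : (⋃ k, {x | InB C (r k) ρ x}).ncard = ∑ k : Fin h, {x | InB C (r k) ρ x}.ncard := by
    have := Fintype.ofFinite X
    have h3 : ∀ k : Fin h, {x | InB C (r k) ρ x}.ncard =
        (Finset.univ.filter (fun x => InB C (r k) ρ x)).card := by
      intro k
      rw [← Set.ncard_coe_finset]
      congr 1
      ext x
      simp
    have h4 : (⋃ k, {x | InB C (r k) ρ x}).ncard =
        (Finset.univ.biUnion fun k : Fin h => Finset.univ.filter (fun x => InB C (r k) ρ x)).card := by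
      rw [← Set.ncard_coe_finset]
      congr 1
      ext x
      simp
    rw [h4, Finset.card_biUnion]
    · exact Finset.sum_congr rfl fun k _ => (h3 k).symm
    · intro k _ k' _ hne
      rw [Function.onFun, Finset.disjoint_left]
      intro x hx hx'
      rw [Finset.mem_filter] at hx hx'
      obtain ⟨_, e, s, h5, h6⟩ := hx
      obtain ⟨_, e', s', h7, h8⟩ := hx'
      apply hne
      apply sep_vt hr (u := []) (h6.trans h8.symm)
      simp only [List.length_nil]
      omega
  rw [h1, h2]
  have h5 : ∀ k : Fin h, {x | InB C (r k) ρ x}.ncard = 2 ^ (ρ + 2) - 2 := by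
    intro k
    have := ball_card (r k) hg hρ
    omega
  rw [Finset.sum_congr rfl fun k _ => h5 k, Finset.sum_const, Finset.card_univ, Fintype.card_fin,
    smul_eq_mul]
  have h6 : 2 ≤ 2 ^ (ρ + 2) := by
    calc 2 = 2 ^ 1 := by norm_num
      _ ≤ 2 ^ (ρ + 2) := Nat.pow_le_pow_right (by norm_num) (by omega)
  obtain ⟨t, ht⟩ : ∃ t, 2 ^ (ρ + 2) = t + 2 := ⟨2 ^ (ρ + 2) - 2, by omega⟩
  rw [ht]
  have : t + 2 - 2 = t := by omega
  rw [this]
  ring

theorem good_insert_many {g g' n h ρ D : ℕ} (hn : Good g n) (hρ : 2 * ρ + 4 ≤ g) (hD : 1 ≤ D)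
    (hDg : D + 2 * ρ + 3 ≤ g) (h1 : g' ≤ 2 ^ (ρ + 2))
    (h2 : ∀ l v, g ≤ l + 2 * ρ * v → v * (D + 3) ≤ l → g' ≤ l) (h3 : 3 ≤ g')
    (hh : h * 4 ^ (D + 2 * ρ + 3) ≤ n) : Good g' (n + 2 * h) := by
  classical
  obtain ⟨X, _, C, rfl, hC⟩ := hn
  obtain ⟨r, hr⟩ := exists_roots C (D + 2 * ρ + 3) h hh
  have hM : 0 < 2 ^ (ρ + 1) := by positivity
  have : NeZero (2 ^ (ρ + 1)) := ⟨hM.ne'⟩
  have hcard : Nat.card (ZMod (2 ^ (ρ + 1))) = Nat.card {s : List Bool // s.length = ρ + 1} := by
    rw [Nat.card_zmod]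
    have : Nat.card (List.Vector Bool (ρ + 1)) = 2 ^ (ρ + 1) := by simp
    exact this.symm
  have hfin : Finite {s : List Bool // s.length = ρ + 1} := by
    have : Finite (List.Vector Bool (ρ + 1)) := inferInstance
    exact this
  let E : ZMod (2 ^ (ρ + 1)) ≃ {s : List Bool // s.length = ρ + 1} :=
    (Finite.card_eq.mp hcard).some
  have H := surg_of hr hC hρ hD le_rfl hDg E
  have hP : (insm H).PGirth g' := by
    apply insm_girth H hC _ h2
    have : 2 * 2 ^ (ρ + 1) = 2 ^ (ρ + 2) := by ring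
    rw [this]
    exact h1
  apply Port.good hP h3
  rw [Nat.card_sum, Nat.card_prod, Nat.card_prod, Nat.card_zmod]
  have h4 := balls_card hr hC hρ (by omega)
  have h5 := Set.ncard_add_ncard_compl {x | ∃ k, InB C (r k) ρ x}
  have h6 : Nat.card {x // x ∉ {x | ∃ k, InB C (r k) ρ x}} =
      {x | ∃ k, InB C (r k) ρ x}ᶜ.ncard := by
    rw [← Nat.card_coe_set_eq]
    rfl
  have h7 : 2 ^ (ρ + 2) = 2 ^ (ρ + 1) * 2 := by ring
  have h8 : Nat.card Bool = 2 := by simp
  have h9 : Nat.card (Fin h) = h := by simp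
  rw [h6, h8, h9, ← h7]
  omega

end H85S
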